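import Pool.Agent.CIR.Defs

/-! Module Act (difficulty 2, Mathlib only): the linear circle action `g` and its generator `VV g`.

`act_zero`: `g 0 x = g (0 + 0) x = g 0 (g 0 x)` and `g 0` is injective.  `act_int`: induction.
`act_lin`: `VV g` is additive and homogeneous (derivative of `t ↦ g t (x + y) = g t x + g t y`, `h.smooth`), finite
dimension: continuous.  `act_der`: `g (t + s) x = g s (g t x)`, derivative in `s` at `0`.  `act_comm`: also
`g (t + s) x = g t (g s x)` and `g t` is continuous linear.  `act_skew`: differentiate `⟪g t x, g t y⟫ = ⟪x, y⟫` at 0.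
`act_cont`: `g t x - g t₀ x₀ = g t (x - x₀) + (g t x₀ - g t₀ x₀)`, isometry.  `act_fix`: derivative 0 everywhere
(`act_der`: `VV g (g t x) = g t (VV g x) = 0`) so constant; conversely the derivative of a constant. -/

set_option autoImplicit false

namespace Pool.Agent.CIR

open Set Filter
open scoped Topology ContDiff RealInnerProductSpace

variable {m : ℕ} {Y : Set (EE m)} {g : ℝ → EE m →ₗᵢ[ℝ] EE m}

theorem act_zero (h : IsCircleAction Y g) (x : EE m) : g 0 x = x := by
  have h1 := h.add 0 0 x
  rw [add_zero] at h1
  exact ((g 0).injective h1).symm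

theorem act_int (h : IsCircleAction Y g) (n : ℤ) (x : EE m) : g n x = x := by
  have hp : Function.Periodic (fun t : ℝ => g t x) 1 := by
    intro t
    show g (t + 1) x = g t x
    rw [h.add, h.period]
  have h1 := (hp.int_mul n) 0
  have h2 : g (0 + (n : ℝ) * 1) x = g 0 x := h1
  rw [zero_add, mul_one, act_zero h] at h2
  exact h2

theorem Act_d0 (h : IsCircleAction Y g) (x : EE m) : HasDerivAt (fun t => g t x) (VV g x) 0 :=
  (h.smooth x 0).hasDerivAt

theorem act_lin (h : IsCircleAction Y g) : ∃ A : EE m →L[ℝ] EE m, ∀ x, VV g x = A x := by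
  have h1 : IsLinearMap ℝ (fun x => VV g x) := by
    constructor
    · intro x y
      have e1 := Act_d0 h (x + y)
      have e2 := (Act_d0 h x).add (Act_d0 h y)
      have e3 : (fun t => g t (x + y)) = (fun t => g t x) + fun t => g t y := by
        funext t
        exact map_add (g t) x y
      rw [e3] at e1
      exact e1.unique e2
    · intro c x
      have e1 := Act_d0 h (c • x)
      have e2 := (Act_d0 h x).const_smul c
      have e3 : (fun t => g t (c • x)) = c • fun t => g t x := by
        funext t
        exact map_smul (g t) c x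
      rw [e3] at e1
      exact e1.unique e2
  exact ⟨LinearMap.toContinuousLinearMap (h1.mk' _), fun x => rfl⟩

theorem act_comm (h : IsCircleAction Y g) (t : ℝ) (x : EE m) : VV g (g t x) = g t (VV g x) := by
  have e1 := Act_d0 h (g t x)
  have e2 : HasDerivAt (fun s => g t (g s x)) (g t (VV g x)) 0 :=
    ((g t).toContinuousLinearMap.hasFDerivAt).comp_hasDerivAt (0 : ℝ) (Act_d0 h x)
  have e3 : (fun s => g s (g t x)) = fun s => g t (g s x) := by
    funext s
    rw [← h.add, ← h.add, add_comm]
  rw [e3] at e1
  exact e1.unique e2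

theorem act_der (h : IsCircleAction Y g) (t : ℝ) (x : EE m) :
    HasDerivAt (fun s => g s x) (VV g (g t x)) t := by
  have e1 : HasDerivAt (fun s => g s (g t x)) (VV g (g t x)) (t - t) := by
    rw [sub_self]
    exact Act_d0 h (g t x)
  have e2 := e1.comp_sub_const t t
  have e3 : (fun s => g (s - t) (g t x)) = fun s => g s x := by
    funext s
    rw [← h.add, sub_add_cancel]
  rw [e3] at e2
  exact e2

theorem act_skew (h : IsCircleAction Y g) (x y : EE m) : ⟪VV g x, y⟫ = - ⟪x, VV g y⟫ := by
  have e1 := (Act_d0 h x).inner ℝ (Act_d0 h y)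
  have e2 : (fun t => ⟪g t x, g t y⟫) = fun _ => ⟪x, y⟫ := by
    funext t
    exact (g t).inner_map_map x y
  rw [e2, act_zero h, act_zero h] at e1
  have e3 := e1.unique (hasDerivAt_const 0 _)
  linarith

theorem act_cont (h : IsCircleAction Y g) : Continuous fun p : ℝ × EE m => g p.1 p.2 := by
  rw [continuous_iff_continuousAt]
  rintro ⟨t0, x0⟩
  rw [ContinuousAt, tendsto_iff_dist_tendsto_zero]
  have h1 : Tendsto (fun p : ℝ × EE m => dist p.2 x0 + dist (g p.1 x0) (g t0 x0)) (𝓝 (t0, x0))
      (𝓝 0) := by
    have hc : Continuous (fun p : ℝ × EE m => dist p.2 x0 + dist (g p.1 x0) (g t0 x0)) := by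
      have h2 : Continuous (fun p : ℝ × EE m => g p.1 x0) :=
        (h.smooth x0).continuous.comp continuous_fst
      exact (continuous_snd.dist continuous_const).add (h2.dist continuous_const)
    have h3 := hc.tendsto (t0, x0)
    simpa using h3
  refine squeeze_zero (fun _ => dist_nonneg) (fun p => ?_) h1
  calc dist (g p.1 p.2) (g t0 x0) ≤ dist (g p.1 p.2) (g p.1 x0) + dist (g p.1 x0) (g t0 x0) :=
        dist_triangle _ _ _
    _ = dist p.2 x0 + dist (g p.1 x0) (g t0 x0) := by rw [(g p.1).dist_map]

theorem act_fix (h : IsCircleAction Y g) (x : EE m) : VV g x = 0 ↔ ∀ t, g t x = x := by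
  constructor
  · intro h0 t
    have h1 : ∀ s, deriv (fun s => g s x) s = 0 := by
      intro s
      rw [(act_der h s x).deriv, act_comm h, h0, map_zero]
    have h2 := is_const_of_deriv_eq_zero (h.smooth x) h1 t 0
    have h3 : g t x = g 0 x := h2
    rw [h3, act_zero h]
  · intro h0
    have h1 : (fun t => g t x) = fun _ => x := funext h0
    rw [VV, h1, deriv_const]

end Pool.Agent.CIR
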