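import Pool.Agent.CIR.LamI

/-! Module Al (difficulty 3): the return time has derivative zero.

Let `τ₀ = τ u₀`, `k u = φ τ₀ (g b (c u))`.  `k u₀ = c u₀ =: x` (the hypothesis `h` holds at `u₀`: `Filter.Eventually.self_of_nhds`).
`u ↦ g b (c u)` is in `Y`, with velocity `g b v`; `lam_inv` gives `HasDerivAt k J u₀` with
`lam x J = lam (g b x) (g b v) = lam x v` (invariance).  For `u` near `u₀`, with `α u = τ u - τ₀ → 0`:
`c u = φ (τ u) (g b (c u)) = φ (α u) (k u)` (`hφ.add`).  Let `K` be a Lipschitz constant and `B` a bound of `X`: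
`‖φ a y - y - a • X y‖ ≤ K B a^2` for all `a`, `y` (`‖φ s y - y‖ ≤ B |s|`, mean value inequality for
`s ↦ φ s y - s • X y`).  So `d u := c u - k u = α u • X (k u) + O((α u)^2)`, and applying `lam x`:
`lam x (d u) = α u * (lam x (X (k u)) + O(α u))`, where the factor tends to `lam x (X x) = 1`.  `d` has derivative
`v - J` at `u₀` and `d u₀ = 0`, so `lam x (d u) = (u - u₀) lam x (v - J) + o(u - u₀) = o(u - u₀)`, hence
`α u = o(u - u₀)`, i.e. `HasDerivAt τ 0 u₀` (`hasDerivAt_iff_isLittleO`). -/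

set_option autoImplicit false

namespace Pool.Agent.CIR

open Set Filter
open scoped Topology ContDiff

variable {m : ℕ} {Y : Set (EE m)} {g : ℝ → EE m →ₗᵢ[ℝ] EE m} {lam : OneForm m} {X : EE m → EE m}
  {φ : ℝ → EE m → EE m}

theorem Al_est (hX : ContDiff ℝ ∞ X) (hs : HasCompactSupport X) (hφ : IsFlow X φ) :
    ∃ C : ℝ, 0 ≤ C ∧ ∀ (a : ℝ) (y : EE m), ‖φ a y - y - a • X y‖ ≤ C * |a| ^ 2 := by
  obtain ⟨K, hK⟩ := ContDiff.lipschitzWith_of_hasCompactSupport hs hX (by simp)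
  obtain ⟨B, hB⟩ := hs.exists_bound_of_continuous hX.continuous
  have hB0 : 0 ≤ B := (norm_nonneg _).trans (hB 0)
  have h1 : ∀ (s : ℝ) (y : EE m), ‖φ s y - y‖ ≤ B * |s| := by
    intro s y
    have h2 := (convex_univ (𝕜 := ℝ) (E := ℝ)).norm_image_sub_le_of_norm_deriv_le (𝕜 := ℝ)
      (f := fun s => φ s y) (C := B) (fun t _ => (hφ.der y t).differentiableAt)
      (fun t _ => by rw [(hφ.der y t).deriv]; exact hB _) (mem_univ 0) (mem_univ s)
    simp only [hφ.zero, sub_zero] at h2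
    exact h2
  refine ⟨K * B, by positivity, fun a y => ?_⟩
  have hd : ∀ t, HasDerivAt (fun s => φ s y - s • X y) (X (φ t y) - (1 : ℝ) • X y) t := fun t =>
    (hφ.der y t).sub ((hasDerivAt_id t).smul_const (X y))
  have h3 := (convex_uIcc (0 : ℝ) a).norm_image_sub_le_of_norm_deriv_le (𝕜 := ℝ)
    (f := fun s => φ s y - s • X y) (C := K * (B * |a|)) (fun t _ => (hd t).differentiableAt)
    (fun t ht => by
      rw [(hd t).deriv, one_smul]
      have h4 : ‖X (φ t y) - X y‖ ≤ K * ‖φ t y - y‖ := by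
        rw [← dist_eq_norm, ← dist_eq_norm]
        exact hK.dist_le_mul _ _
      have h5 : |t| ≤ |a| := by
        have := abs_sub_left_of_mem_uIcc ht
        simpa using this
      have h6 := h1 t y
      calc ‖X (φ t y) - X y‖ ≤ K * ‖φ t y - y‖ := h4
        _ ≤ K * (B * |a|) := by gcongr; exact h6.trans (by gcongr)) left_mem_uIcc right_mem_uIcc
  simp only [hφ.zero, zero_smul, sub_zero] at h3
  have e : φ a y - a • X y - y = φ a y - y - a • X y := by abel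
  rw [e, Real.norm_eq_abs] at h3
  calc ‖φ a y - y - a • X y‖ ≤ K * (B * |a|) * |a| := h3
    _ = K * B * |a| ^ 2 := by ring

theorem al (D : Dat Y g lam) (hX : ContDiff ℝ ∞ X) (hs : HasCompactSupport X)
    (hR : ∀ x ∈ Y, IsReebVector Y lam x (X x)) (hφ : IsFlow X φ) {c : ℝ → EE m} {u₀ : ℝ} {v : EE m}
    (hcY : ∀ᶠ u in 𝓝 u₀, c u ∈ Y) (hc : HasDerivAt c v u₀) {τ : ℝ → ℝ} (hτ : ContinuousAt τ u₀) {b : ℝ}
    (h : ∀ᶠ u in 𝓝 u₀, φ (τ u) (g b (c u)) = c u) : HasDerivAt τ 0 u₀ := by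
  obtain ⟨C, hC0, hC⟩ := Al_est hX hs hφ
  have hx : c u₀ ∈ Y := hcY.self_of_nhds
  have hh := h.self_of_nhds
  have hc' : HasDerivAt (fun u => g b (c u)) (g b v) u₀ :=
    (g b).toContinuousLinearMap.hasFDerivAt.comp_hasDerivAt u₀ hc
  obtain ⟨J, hJ, hJl⟩ := lam_inv D hX hs hR hφ (hcY.mono fun u hu => D.act.maps b _ hu) hc' (τ u₀)
  rw [hh, D.inv b (c u₀) v] at hJl
  -- the linear form
  obtain ⟨l, hl⟩ : ∃ l, l = lam (c u₀) := ⟨_, rfl⟩
  rw [← hl] at hJl
  have hl1 : l (X (c u₀)) = 1 := by rw [hl]; exact (hR _ hx).2.1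
  obtain ⟨k, hk⟩ : ∃ k : ℝ → EE m, ∀ u, k u = φ (τ u₀) (g b (c u)) := ⟨_, fun u => rfl⟩
  have hk' : HasDerivAt k J u₀ := by
    have e : k = fun u => φ (τ u₀) (g b (c u)) := funext hk
    rw [e]
    exact hJ
  have hk0 : k u₀ = c u₀ := by rw [hk, hh]
  have hd : HasDerivAt (fun u => l (c u - k u)) (l (v - J)) u₀ :=
    l.hasFDerivAt.comp_hasDerivAt u₀ (hc.sub hk')
  have hvJ : l (v - J) = 0 := by rw [map_sub, hJl, sub_self]
  rw [hvJ] at hd
  have ho := hasDerivAt_iff_isLittleO.1 hd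
  simp only [hk0, sub_self, map_zero, smul_zero, sub_zero] at ho
  rw [hasDerivAt_iff_isLittleO]
  simp only [smul_zero, sub_zero]
  refine Asymptotics.IsBigO.trans_isLittleO ?_ ho
  -- the bound
  have hcont : ContinuousAt (fun u => l (X (k u)) - ‖l‖ * C * |τ u - τ u₀|) u₀ := by
    have h1 : ContinuousAt (fun u => l (X (k u))) u₀ :=
      l.continuous.continuousAt.comp (hX.continuous.continuousAt.comp hk'.continuousAt)
    exact h1.sub (continuousAt_const.mul (hτ.sub continuousAt_const).abs)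
  have hval : l (X (k u₀)) - ‖l‖ * C * |τ u₀ - τ u₀| = 1 := by
    rw [hk0, hl1, sub_self, abs_zero, mul_zero, sub_zero]
  have hev : ∀ᶠ u in 𝓝 u₀, 1 / 2 < l (X (k u)) - ‖l‖ * C * |τ u - τ u₀| :=
    hcont.eventually (lt_mem_nhds (by simp only [hval]; norm_num))
  refine Asymptotics.IsBigO.of_bound 2 ?_
  filter_upwards [h, hev] with u h1 h2
  obtain ⟨α, hα⟩ : ∃ α, α = τ u - τ u₀ := ⟨_, rfl⟩
  have e1 : c u = φ α (k u) := by
    rw [hk, ← hφ.add, hα, sub_add_cancel, h1]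
  obtain ⟨r, hr⟩ : ∃ r, r = φ α (k u) - k u - α • X (k u) := ⟨_, rfl⟩
  have hrn : ‖r‖ ≤ C * |α| ^ 2 := by rw [hr]; exact hC α (k u)
  have e2 : c u - k u = α • X (k u) + r := by rw [hr, e1]; abel
  have e3 : l (c u - k u) = α * l (X (k u)) + l r := by
    rw [e2, map_add, map_smul, smul_eq_mul]
  have h4 : |l r| ≤ ‖l‖ * (C * |α| ^ 2) := by
    have := l.le_opNorm r
    rw [Real.norm_eq_abs] at this
    exact this.trans (by gcongr)
  rw [Real.norm_eq_abs, Real.norm_eq_abs, e3, ← hα]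
  rw [← hα] at h2
  have h5 : |α * l (X (k u))| ≤ |α * l (X (k u)) + l r| + |l r| := by
    have := abs_sub (α * l (X (k u)) + l r) (l r)
    rwa [add_sub_cancel_right] at this
  have h6 : l (X (k u)) ≤ |l (X (k u))| := le_abs_self _
  rw [abs_mul] at h5
  have h7 : 0 ≤ |α| := abs_nonneg α
  have h8 : |α| * (1 / 2) ≤ |α| * (|l (X (k u))| - ‖l‖ * C * |α|) := by
    apply mul_le_mul_of_nonneg_left _ h7
    linarith
  nlinarith [h8, h5, h4]

end Pool.Agent.CIR
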