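import Mathlib

/-! Module Cur (difficulty 3, Mathlib only): the complement of finitely many curves in a ball of `ℝ³`.

Let `C = ⋃ i, c i '' s i`.  `dimH C ≤ 1` (`dimH_iUnion`, `dimH_image_le_of_locally_lipschitzOn`, `Real.dimH_univ` and
`dimH_mono` for subsets of `ℝ`), so `Cᶜ` is dense (`dense_compl_of_dimH_lt_finrank`), which gives the second statement
(`Dense.open_subset_closure_inter`).
For a point `a` let `B a = ⋃ i, (fun p : ℝ × ℝ => a + p.1 • (c i p.2 - a)) '' (univ ×ˢ s i)`; the maps are locally Lipschitz on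
`univ ×ˢ s i`, so `dimH (B a) ≤ dimH (univ : Set (ℝ × ℝ)) ≤ 2 < 3` (`Real.dimH_univ_eq_finrank`).
Let `a, b ∈ ball y r \ C`.  By density there is `x ∈ ball y r`, `x ∉ B a ∪ B b`
(`dimH_union`).  The segments `[a, x]` and `[x, b]` are in the ball (convex) and avoid `C`: if
`a + t • (x - a) = c i u`, `u ∈ s i`, `t ∈ [0, 1]`, then `t ≠ 0` (`a ∉ C`) and `x = a + t⁻¹ • (c i u - a) ∈ B a`.
So `ball y r \ C` is (pre)connected: `isPreconnected_of_forall_pair` with the union of the two segments (or `JoinedIn`). -/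

set_option autoImplicit false

namespace Pool.Agent.CIR

open Set Filter
open scoped Topology NNReal

/-- the cone over the curves with the vertex `a` -/
def Cur_B {ι : Type} (c : ι → ℝ → EuclideanSpace ℝ (Fin 3)) (s : ι → Set ℝ)
    (a : EuclideanSpace ℝ (Fin 3)) : Set (EuclideanSpace ℝ (Fin 3)) :=
  ⋃ i, (fun q : ℝ × EuclideanSpace ℝ (Fin 3) => a + q.1 • (q.2 - a)) ''
    ((fun p : ℝ × ℝ => (p.1, c i p.2)) '' (univ ×ˢ s i))

theorem Cur_dimB {ι : Type} [Finite ι] (c : ι → ℝ → EuclideanSpace ℝ (Fin 3)) (s : ι → Set ℝ)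
    (hc : ∀ i, ∀ t ∈ s i, ∃ K : ℝ≥0, ∃ u ∈ 𝓝[s i] t, LipschitzOnWith K (c i) u)
    (a : EuclideanSpace ℝ (Fin 3)) : dimH (Cur_B c s a) ≤ 2 := by
  unfold Cur_B
  rw [dimH_iUnion]
  refine iSup_le fun i => ?_
  have h1 : dimH ((fun q : ℝ × EuclideanSpace ℝ (Fin 3) => a + q.1 • (q.2 - a)) ''
    ((fun p : ℝ × ℝ => (p.1, c i p.2)) '' (univ ×ˢ s i))) ≤
      dimH ((fun p : ℝ × ℝ => (p.1, c i p.2)) '' (univ ×ˢ s i)) := by
    refine dimH_image_le_of_locally_lipschitzOn fun q _ => ?_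
    have hd : ContDiff ℝ 1 (fun q : ℝ × EuclideanSpace ℝ (Fin 3) => a + q.1 • (q.2 - a)) := by
      fun_prop
    obtain ⟨K, t, ht, hK⟩ := hd.contDiffAt (x := q).exists_lipschitzOnWith
    exact ⟨K, t, mem_nhdsWithin_of_mem_nhds ht, hK⟩
  have h2 : dimH ((fun p : ℝ × ℝ => (p.1, c i p.2)) '' (univ ×ˢ s i)) ≤
      dimH ((univ : Set ℝ) ×ˢ s i) := by
    refine dimH_image_le_of_locally_lipschitzOn fun p hp => ?_
    obtain ⟨K, u, hu, hK⟩ := hc i p.2 hp.2
    refine ⟨max 1 (K * 1), univ ×ˢ u, ?_, ?_⟩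
    · rw [nhdsWithin_prod_eq]
      exact prod_mem_prod univ_mem hu
    · refine LipschitzOnWith.prodMk LipschitzWith.prod_fst.lipschitzOnWith ?_
      exact hK.comp LipschitzWith.prod_snd.lipschitzOnWith fun p hp => hp.2
  refine h1.trans (h2.trans ((dimH_mono (subset_univ _)).trans ?_))
  rw [Real.dimH_univ_eq_finrank]
  simp

theorem cur {ι : Type} [Finite ι] (c : ι → ℝ → EuclideanSpace ℝ (Fin 3)) (s : ι → Set ℝ)
    (hc : ∀ i, ∀ t ∈ s i, ∃ K : ℝ≥0, ∃ u ∈ 𝓝[s i] t, LipschitzOnWith K (c i) u)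
    (y : EuclideanSpace ℝ (Fin 3)) (r : ℝ) :
    IsPreconnected (Metric.ball y r \ ⋃ i, c i '' s i) ∧
      Metric.ball y r ⊆ closure (Metric.ball y r \ ⋃ i, c i '' s i) := by
  have hdim : dimH (⋃ i, c i '' s i) ≤ 1 := by
    rw [dimH_iUnion]
    refine iSup_le fun i => ?_
    refine (dimH_image_le_of_locally_lipschitzOn (hc i)).trans ?_
    refine (dimH_mono (subset_univ _)).trans ?_
    rw [Real.dimH_univ]
  have hdense : Dense (⋃ i, c i '' s i)ᶜ := by
    refine dense_compl_of_dimH_lt_finrank (lt_of_le_of_lt hdim ?_)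
    simp
  constructor
  · have key : ∀ a ∈ Metric.ball y r \ ⋃ i, c i '' s i, ∀ x ∈ Metric.ball y r, x ∉ Cur_B c s a →
        segment ℝ a x ⊆ Metric.ball y r \ ⋃ i, c i '' s i := by
      intro a ha x hx hxB w hw
      refine ⟨(convex_ball y r).segment_subset ha.1 hx hw, ?_⟩
      intro hwC
      rw [segment_eq_image'] at hw
      obtain ⟨t, ht, hw⟩ := hw
      simp only at hw
      have ht0 : t ≠ 0 := by
        rintro rfl
        rw [zero_smul, add_zero] at hw
        exact ha.2 (hw ▸ hwC)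
      apply hxB
      obtain ⟨i, hi⟩ := mem_iUnion.1 hwC
      obtain ⟨u, hu, hcu⟩ := hi
      refine mem_iUnion.2 ⟨i, ⟨(t⁻¹, c i u), ⟨(t⁻¹, u), ⟨mem_univ _, hu⟩, rfl⟩, ?_⟩⟩
      simp only
      rw [hcu, ← hw, add_sub_cancel_left, smul_smul, inv_mul_cancel₀ ht0, one_smul]
      abel
    refine isPreconnected_of_forall_pair fun a ha b hb => ?_
    have hBd : Dense (Cur_B c s a ∪ Cur_B c s b)ᶜ := by
      refine dense_compl_of_dimH_lt_finrank (lt_of_le_of_lt ?_ (b := 2) ?_)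
      · rw [dimH_union]
        exact max_le (Cur_dimB c s hc a) (Cur_dimB c s hc b)
      · simp only [finrank_euclideanSpace, Fintype.card_fin]
        norm_num
    obtain ⟨x, hx, hxB⟩ := hBd.inter_open_nonempty _ Metric.isOpen_ball ⟨a, ha.1⟩
    have hxB' : x ∉ Cur_B c s a ∧ x ∉ Cur_B c s b := by
      constructor
      · exact fun h => hxB (Or.inl h)
      · exact fun h => hxB (Or.inr h)
    refine ⟨segment ℝ a x ∪ segment ℝ b x, ?_, Or.inl (left_mem_segment ℝ a x),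
      Or.inr (left_mem_segment ℝ b x), ?_⟩
    · exact union_subset (key a ha x hx hxB'.1) (key b hb x hx hxB'.2)
    · exact IsPreconnected.union x (right_mem_segment ℝ a x) (right_mem_segment ℝ b x)
        (convex_segment a x).isPreconnected (convex_segment b x).isPreconnected
  · rw [sdiff_eq]
    exact hdense.open_subset_closure_inter Metric.isOpen_ball

end Pool.Agent.CIR
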