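import Pool.Agent.CIR.Defs
import Pool.Agent.CIR.Cur

/-! Module Cpl (difficulty 3): the complement of finitely many curves in `Y` is preconnected and dense.

Let `C = ⋃ i, range (γ i)`.  (1) Let `p ∈ Y` with chart `U, V, χ, π` and `ball (π p) ρ ⊆ V`.  `N = χ '' ball (π p) ρ` is
open in `Y`: `N = Y ∩ {x ∈ U | π x ∈ ball (π p) ρ}` (`left_inv`, `right_inv`; `π` continuous on the open set `U`).
`N \ C = χ '' (ball \ C')` with `C' = ⋃ i, (π ∘ γ i) '' s i`, `s i = {t | γ i t ∈ U}` (if `y ∈ ball`, `χ y ∈ C` then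
`y = π (χ y) ∈ C'`; if `y ∈ C' ∩ ball`, `y = π (γ i t)`, `γ i t ∈ Y ∩ U`, so `χ y = γ i t ∈ C`).  `π ∘ γ i` is `C^1`
on the open set `s i` so locally Lipschitz (`ContDiffAt.exists_lipschitzOnWith`).  By `cur`, `N \ C` is preconnected
(image under the continuous `χ`) and dense in `N`.  For every neighbourhood of `p` such an `N` exists inside it.
(2) Density: every `p ∈ Y` is in the closure of `N \ C`.
(3) Let `A, B` be open sets of `EE m` with `Y \ C ⊆ A ∪ B`, both meeting `Y \ C`; suppose `(Y \ C) ∩ (A ∩ B) = ∅`.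
Every `p ∈ Y` has an `N` as in (1), and `N \ C ⊆ A` or `N \ C ⊆ B` (preconnected).  Let `Y_A` (`Y_B`) be the set of
`p ∈ Y` having a neighbourhood `W` (open in `EE m`) with `(Y ∩ W) \ C ⊆ A` (`⊆ B`).  They are relatively open, cover `Y`,
are non-empty (a point of `(Y \ C) ∩ A` is in `Y_A`: otherwise in `Y_B`, contradiction) and
disjoint (if `p` is in both then `(Y ∩ W ∩ W') \ C` is non-empty by (2) and contained in `A ∩ B`): contradiction to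
`Y` preconnected. -/

set_option autoImplicit false

namespace Pool.Agent.CIR

open Set Filter
open scoped Topology ContDiff

variable {m : ℕ} {Y : Set (EE m)}

theorem Cpl_loc (hY : IsClosedThreeManifold Y) {ι : Type} [Finite ι] (γ : ι → ℝ → EE m)
    (hγ : ∀ i, ContDiff ℝ 1 (γ i)) (hγY : ∀ i t, γ i t ∈ Y) {p : EE m} (hp : p ∈ Y) :
    ∃ O : Set (EE m), IsOpen O ∧ p ∈ O ∧ IsPreconnected ((Y ∩ O) \ ⋃ i, range (γ i)) ∧
      p ∈ closure (Y \ ⋃ i, range (γ i)) := by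
  obtain ⟨U, V, χ, π, hpU, hch⟩ := hY.chart p hp
  obtain ⟨hpV, hpχ⟩ := hch.right_inv p ⟨hp, hpU⟩
  obtain ⟨ρ, hρ, hρV⟩ := Metric.isOpen_iff.1 hch.open_V (π p) hpV
  let O : Set (EE m) := U ∩ π ⁻¹' Metric.ball (π p) ρ
  have hO : IsOpen O :=
    hch.smooth_π.continuousOn.isOpen_inter_preimage hch.open_U Metric.isOpen_ball
  let s : ι → Set ℝ := fun i => γ i ⁻¹' U
  have hcur := cur (fun i t => π (γ i t)) s (by
    intro i t ht
    have h1 : ContDiffAt ℝ 1 π (γ i t) :=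
      ((hch.smooth_π.contDiffAt (hch.open_U.mem_nhds ht))).of_le (by simp)
    have h2 : ContDiffAt ℝ 1 (fun t => π (γ i t)) t := h1.comp t (hγ i).contDiffAt
    obtain ⟨K, u, hu, hK⟩ := h2.exists_lipschitzOnWith
    exact ⟨K, u, mem_nhdsWithin_of_mem_nhds hu, hK⟩) (π p) ρ
  have hball : ∀ y ∈ Metric.ball (π p) ρ, χ y ∈ Y ∩ O ∧ π (χ y) = y := by
    intro y hy
    obtain ⟨h1, h2⟩ := hch.left_inv y (hρV hy)
    refine ⟨⟨h1.1, h1.2, ?_⟩, h2⟩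
    show π (χ y) ∈ Metric.ball (π p) ρ
    rw [h2]
    exact hy
  have himg : χ '' (Metric.ball (π p) ρ \ ⋃ i, (fun t => π (γ i t)) '' s i) =
      (Y ∩ O) \ ⋃ i, range (γ i) := by
    apply Subset.antisymm
    · rintro _ ⟨y, ⟨hy, hyC⟩, rfl⟩
      obtain ⟨h1, h2⟩ := hball y hy
      refine ⟨h1, ?_⟩
      intro hC
      obtain ⟨i, t, ht⟩ := mem_iUnion.1 hC
      apply hyC
      refine mem_iUnion.2 ⟨i, t, ?_, ?_⟩
      · show γ i t ∈ U
        rw [ht]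
        exact h1.2.1
      · show π (γ i t) = y
        rw [ht, h2]
    · rintro x ⟨⟨hxY, hxU, hxb⟩, hxC⟩
      obtain ⟨h1, h2⟩ := hch.right_inv x ⟨hxY, hxU⟩
      refine ⟨π x, ⟨hxb, ?_⟩, h2⟩
      intro hC
      obtain ⟨i, t, ht, he⟩ := mem_iUnion.1 hC
      apply hxC
      refine mem_iUnion.2 ⟨i, t, ?_⟩
      have he' : π (γ i t) = π x := he
      have h3 := (hch.right_inv (γ i t) ⟨hγY i t, ht⟩).2
      rw [he', h2] at h3
      exact h3.symm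
  refine ⟨O, hO, ⟨hpU, Metric.mem_ball_self hρ⟩, ?_, ?_⟩
  · rw [← himg]
    apply hcur.1.image
    exact (hch.smooth_χ.continuousOn).mono (fun y hy => hρV hy.1)
  · have h1 : π p ∈ closure (Metric.ball (π p) ρ \ ⋃ i, (fun t => π (γ i t)) '' s i) :=
      hcur.2 (Metric.mem_ball_self hρ)
    have h2 : ContinuousAt χ (π p) :=
      hch.smooth_χ.continuousOn.continuousAt (hch.open_V.mem_nhds hpV)
    have h3 := mem_closure_image h2 h1
    rw [hpχ, himg] at h3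
    exact closure_mono (sdiff_subset_sdiff_left inter_subset_left) h3

theorem cpl (hY : IsClosedThreeManifold Y) {ι : Type} [Finite ι] (γ : ι → ℝ → EE m)
    (hγ : ∀ i, ContDiff ℝ 1 (γ i)) (hγY : ∀ i t, γ i t ∈ Y) :
    IsPreconnected (Y \ ⋃ i, range (γ i)) ∧ Y ⊆ closure (Y \ ⋃ i, range (γ i)) := by
  have hden : Y ⊆ closure (Y \ ⋃ i, range (γ i)) := by
    intro p hp
    obtain ⟨O, -, -, -, h⟩ := Cpl_loc hY γ hγ hγY hp
    exact h
  refine ⟨?_, hden⟩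
  intro A B hA hB hAB hneA hneB
  by_contra hcon
  rw [not_nonempty_iff_eq_empty] at hcon
  let YA : Set (EE m) := ⋃₀ {W | IsOpen W ∧ (Y ∩ W) \ (⋃ i, range (γ i)) ⊆ A}
  let YB : Set (EE m) := ⋃₀ {W | IsOpen W ∧ (Y ∩ W) \ (⋃ i, range (γ i)) ⊆ B}
  have hYA : IsOpen YA := isOpen_sUnion fun W hW => hW.1
  have hYB : IsOpen YB := isOpen_sUnion fun W hW => hW.1
  have hcov : Y ⊆ YA ∪ YB := by
    intro p hp
    obtain ⟨O, hO, hpO, hpre, -⟩ := Cpl_loc hY γ hγ hγY hp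
    have hsub : (Y ∩ O) \ (⋃ i, range (γ i)) ⊆ Y \ ⋃ i, range (γ i) :=
      sdiff_subset_sdiff_left inter_subset_left
    rw [isPreconnected_iff_subset_of_disjoint] at hpre
    rcases hpre A B hA hB (hsub.trans hAB) (by
      rw [eq_empty_iff_forall_notMem]
      intro x hx
      have h1 : x ∈ (Y \ ⋃ i, range (γ i)) ∩ (A ∩ B) := ⟨hsub hx.1, hx.2⟩
      rw [hcon] at h1
      exact h1) with h | h
    · exact Or.inl ⟨O, ⟨hO, h⟩, hpO⟩
    · exact Or.inr ⟨O, ⟨hO, h⟩, hpO⟩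
  obtain ⟨a, haY, haA⟩ := hneA
  obtain ⟨b, hbY, hbB⟩ := hneB
  obtain ⟨r, hrY, ⟨W, ⟨hW, hWA⟩, hrW⟩, ⟨W', ⟨hW', hWB⟩, hrW'⟩⟩ :=
    hY.connected.isPreconnected YA YB hYA hYB hcov
    ⟨a, haY.1, A, ⟨hA, fun x hx => hx.1.2⟩, haA⟩ ⟨b, hbY.1, B, ⟨hB, fun x hx => hx.1.2⟩, hbB⟩
  obtain ⟨q, hq, hqY⟩ := mem_closure_iff.1 (hden hrY) (W ∩ W') (hW.inter hW') ⟨hrW, hrW'⟩
  have h1 : q ∈ (Y \ ⋃ i, range (γ i)) ∩ (A ∩ B) :=
    ⟨hqY, hWA ⟨⟨hqY.1, hq.1⟩, hqY.2⟩, hWB ⟨⟨hqY.1, hq.2⟩, hqY.2⟩⟩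
  rw [hcon] at h1
  exact h1

end Pool.Agent.CIR
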