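import Pool.Agent.CIR.Defs

/-! Module Prs (difficulty 3, Mathlib only): the flow of a tangent vector field preserves `Y` (Nagumo).

Proof.  `K` a Lipschitz constant of `X` (`ContDiff.lipschitzWith_of_hasCompactSupport`).  Let `x₀ ∈ Y` and
`d t = Metric.infDist (φ t x₀) Y`; `d` is continuous, `d 0 = 0`.  Claim: for all `t` and all `r > K * d t`:
`∃ᶠ z in 𝓝[>] t, (z - t)⁻¹ * (d z - d t) < r`, in fact eventually.  Proof: let `x = φ t x₀` and `y ∈ Y` with
`‖x - y‖ = d t` (`IsCompact.exists_infDist_eq_dist`), `γ` a curve in `Y` with `γ 0 = y`, velocity `X y` at `0`.  Then for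
small `h > 0`: `d (t + h) ≤ ‖φ (t + h) x₀ - γ h‖ ≤ ‖x - y‖ + h ‖X x - X y‖ + o(h) ≤ d t + h K d t + o(h)`.
`le_gronwallBound_of_liminf_deriv_right_le` (with `f = d`, `f' t = K d t`, `δ = 0`, `ε = 0`) gives `d t ≤ 0` for `t ≥ 0`, so
`φ t x₀ ∈ Y` (`Y` closed, `IsClosed.mem_iff_infDist_zero`).  For `t < 0`: apply the result to `- X` and the flow
`t ↦ φ (-t)` (`- X y` is tangent: reverse the curve). -/

set_option autoImplicit false

namespace Pool.Agent.CIR

open Set Filter
open scoped Topology ContDiff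

variable {m : ℕ} {Y : Set (EE m)}

theorem prs_fwd (hY : IsCompact Y) {X : EE m → EE m} {K : NNReal} (hK : LipschitzWith K X)
    (ht : ∀ x ∈ Y, IsTangent Y x (X x)) {c : ℝ → EE m} (hc : ∀ t, HasDerivAt c (X (c t)) t)
    (h0 : c 0 ∈ Y) {t : ℝ} (ht0 : 0 ≤ t) : c t ∈ Y := by
  have hcc : Continuous c := continuous_iff_continuousAt.2 fun t => (hc t).continuousAt
  have hd : Continuous fun t => Metric.infDist (c t) Y :=
    (Metric.continuous_infDist_pt Y).comp hcc
  have hne : Y.Nonempty := ⟨_, h0⟩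
  have key : ∀ x ∈ Icc (0 : ℝ) t, Metric.infDist (c x) Y ≤ gronwallBound 0 (K : ℝ) 0 (x - 0) := by
    refine le_gronwallBound_of_liminf_deriv_right_le (f := fun t => Metric.infDist (c t) Y)
      (f' := fun t => (K : ℝ) * Metric.infDist (c t) Y) hd.continuousOn ?_ ?_ ?_
    · intro x _ r hr
      obtain ⟨y, hy, hxy⟩ := hY.exists_infDist_eq_dist hne (c x)
      obtain ⟨γ, hγ, hγ0, hγd⟩ := ht y hy
      have e1 : HasDerivAt (fun z => γ (z - x)) (X y) x := by
        have h1 : HasDerivAt (fun z : ℝ => z - x) 1 x := (hasDerivAt_id x).sub_const x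
        have h2 : HasDerivAt γ (X y) (x - x) := by rw [sub_self]; exact hγd
        have h3 := HasDerivAt.scomp (h := fun z : ℝ => z - x) x h2 h1
        simpa [Function.comp_def] using h3
      have e2 : HasDerivWithinAt (fun z => c z - γ (z - x)) (X (c x) - X y) (Ioi x) x :=
        ((hc x).sub e1).hasDerivWithinAt
      have e3 : ‖X (c x) - X y‖ < r := by
        refine lt_of_le_of_lt ?_ hr
        rw [← dist_eq_norm]
        show _ ≤ (K : ℝ) * Metric.infDist (c x) Y
        rw [hxy]
        exact hK.dist_le_mul _ _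
      have e4 := e2.limsup_slope_norm_le e3
      have e5 : ∀ᶠ z in 𝓝[>] x, γ (z - x) ∈ Y := by
        have h1 : Tendsto (fun z : ℝ => z - x) (𝓝[>] x) (𝓝 0) := by
          have h2 : Continuous fun z : ℝ => z - x := continuous_id.sub continuous_const
          have h3 := h2.tendsto x
          rw [sub_self] at h3
          exact h3.mono_left nhdsWithin_le_nhds
        exact h1.eventually hγ
      refine Eventually.frequently ?_
      filter_upwards [e4, e5, self_mem_nhdsWithin] with z h1 h2 h3
      have h3' : x < z := h3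
      have h4 : 0 < z - x := sub_pos.2 h3'
      refine lt_of_le_of_lt ?_ h1
      rw [Real.norm_of_nonneg h4.le]
      refine mul_le_mul_of_nonneg_left ?_ (inv_nonneg.2 h4.le)
      have h5 : Metric.infDist (c z) Y ≤ ‖c z - γ (z - x)‖ := by
        rw [← dist_eq_norm]
        exact Metric.infDist_le_dist_of_mem h2
      have h6 : Metric.infDist (c x) Y = ‖c x - γ (x - x)‖ := by
        rw [sub_self, hγ0, ← dist_eq_norm]
        exact hxy
      show Metric.infDist (c z) Y - Metric.infDist (c x) Y ≤ _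
      rw [h6]
      linarith
    · show Metric.infDist (c 0) Y ≤ 0
      rw [Metric.infDist_zero_of_mem h0]
    · intro x _
      simp
  have h1 := key t ⟨ht0, le_rfl⟩
  rw [gronwallBound_ε0_δ0] at h1
  rw [hY.isClosed.mem_iff_infDist_zero hne]
  exact le_antisymm h1 Metric.infDist_nonneg

theorem prs (hY : IsCompact Y) {X : EE m → EE m} (hX : ContDiff ℝ ∞ X) (hs : HasCompactSupport X)
    (ht : ∀ x ∈ Y, IsTangent Y x (X x)) {φ : ℝ → EE m → EE m} (hφ : IsFlow X φ) {x : EE m} (hx : x ∈ Y)
    (t : ℝ) : φ t x ∈ Y := by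
  obtain ⟨K, hK⟩ := ContDiff.lipschitzWith_of_hasCompactSupport hs hX (by simp)
  rcases le_total 0 t with h | h
  · refine prs_fwd hY hK ht (c := fun t => φ t x) (fun t => hφ.der x t) ?_ h
    show φ 0 x ∈ Y
    rw [hφ.zero]
    exact hx
  · have hK' : LipschitzWith K (fun x => - X x) := hK.neg
    have ht' : ∀ x ∈ Y, IsTangent Y x (- X x) := by
      intro y hy
      obtain ⟨γ, hγ, hγ0, hγd⟩ := ht y hy
      refine ⟨fun s => γ (-s), ?_, ?_, ?_⟩
      · have h1 : Tendsto (fun z : ℝ => -z) (𝓝 0) (𝓝 0) := by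
          have h3 := (continuous_neg (G := ℝ)).tendsto 0
          rw [neg_zero] at h3
          exact h3
        exact h1.eventually hγ
      · show γ (-0) = y
        rw [neg_zero]
        exact hγ0
      · have h1 : HasDerivAt (fun z : ℝ => -z) (-1) 0 := hasDerivAt_neg 0
        have h2 : HasDerivAt γ (X y) (-0) := by rw [neg_zero]; exact hγd
        have h3 := h2.scomp (0 : ℝ) h1
        simpa [Function.comp_def] using h3
    have h5 := prs_fwd hY hK' ht' (c := fun t => φ (-t) x) (fun s => ?_) ?_ (neg_nonneg.2 h)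
    · have h6 : φ (- -t) x ∈ Y := h5
      rw [neg_neg] at h6
      exact h6
    · have h1 : HasDerivAt (fun z : ℝ => -z) (-1) s := hasDerivAt_neg s
      have h3 := (hφ.der x (-s)).scomp s h1
      simpa [Function.comp_def] using h3
    · show φ (-0) x ∈ Y
      rw [neg_zero, hφ.zero]
      exact hx

end Pool.Agent.CIR
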