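import Pool.Agent.CIR.Fld
import Pool.Agent.CIR.Prs

/-! Module Cmm (difficulty 2): the Reeb flow and the circle action commute; `HH` is a first integral.

`X` is a vector field with `X x` = Reeb vector for `x ∈ Y`, `φ` its flow.  `φ` preserves `Y` (`prs`).
`cmm_X`: `g t (X x)` is the Reeb vector at `g t x`: tangent (`tan_g`), `lam (g t x) (g t (X x)) = lam x (X x) = 1`,
and for `w` tangent at `g t x`: `w = g t (g (-t) w)`, `inv_d`.  So `X (g t x) = g t (X x)` (`reeb_unique`).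
`cmm`: the curve `s ↦ g t (φ s x)` has derivative `g t (X (φ s x)) = X (g t (φ s x))` so it is `φ s (g t x)` (`hφ.uniq`).
`cmm_H`: the derivative of `t ↦ HH (φ t x)` is `fderiv HH (φ t x) (X (φ t x)) = - dForm lam .. (VV ..) (X ..) = 0`
(`inv_H`, Reeb, `tan_V`; `dForm` is alternating).
`cmm_V`: for `x ∈ Crt`: `VV g x = HH g lam x • X x` (apply `lam x` to `VV g x = c • v`, `v = X x`).
`crt_phi`: for `x ∈ Crt`, `c = HH g lam x`: the derivative of `s ↦ g s (φ t x) = φ t (g s x)`.. simplest: if `c ≠ 0`,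
`s ↦ g (s / c) x` has derivative `c⁻¹ • VV g (g (s/c) x) = c⁻¹ • g (s/c) (VV g x) = g (s/c) (X x) = X (g (s/c) x)`, so
`φ s x = g (s / c) x` (this is `crt_par`), and `Crt` is `g`-invariant (`crt_g`: `act_comm`, `inv_Hg`, `cmm_X`).  If
`c = 0` then `VV g x = 0`, `g s x = x` for all `s` (`act_fix`), `g s (φ t x) = φ t (g s x) = φ t x`, so
`VV g (φ t x) = 0` (`act_fix`).
`crt_closed`: `Crt = {x ∈ Y | VV g x = HH g lam x • X x}` is closed.
`traj_iff`: (⇒) the derivative of a Reeb trajectory at `t` is the Reeb vector `X (γ t)`; `hφ.uniq`.  (⇐) `prs`, `hφ.der`. -/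

set_option autoImplicit false

namespace Pool.Agent.CIR

open Set Filter
open scoped Topology ContDiff

variable {m : ℕ} {Y : Set (EE m)} {g : ℝ → EE m →ₗᵢ[ℝ] EE m} {lam : OneForm m} {X : EE m → EE m}
  {φ : ℝ → EE m → EE m}

/-- the action preserves Reeb vectors -/
theorem cmm_reeb (D : Dat Y g lam) {x v : EE m} (hv : IsReebVector Y lam x v) (t : ℝ) :
    IsReebVector Y lam (g t x) (g t v) := by
  refine ⟨tan_g D.act hv.1 t, ?_, ?_⟩
  · rw [D.inv t x v]
    exact hv.2.1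
  · intro w hw
    have h1 : g t (g (-t) w) = w := by
      rw [← D.act.add, add_neg_cancel, act_zero D.act]
    have h2 : g (-t) (g t x) = x := by
      rw [← D.act.add, neg_add_cancel, act_zero D.act]
    have h3 := tan_g D.act hw (-t)
    rw [h2] at h3
    rw [← h1, inv_d D.con.1 D.inv]
    exact hv.2.2 _ h3

theorem cmm_X (D : Dat Y g lam) (hR : ∀ x ∈ Y, IsReebVector Y lam x (X x)) {x : EE m} (hx : x ∈ Y) (t : ℝ) :
    X (g t x) = g t (X x) :=
  reeb_unique D.mfd D.con (D.act.maps t x hx) (hR _ (D.act.maps t x hx)) (cmm_reeb D (hR x hx) t)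

theorem cmm_Y (D : Dat Y g lam) (hX : ContDiff ℝ ∞ X) (hs : HasCompactSupport X)
    (hR : ∀ x ∈ Y, IsReebVector Y lam x (X x)) (hφ : IsFlow X φ) {x : EE m} (hx : x ∈ Y) (t : ℝ) :
    φ t x ∈ Y :=
  prs D.mfd.compact hX hs (fun y hy => (hR y hy).1) hφ hx t

theorem cmm (D : Dat Y g lam) (hX : ContDiff ℝ ∞ X) (hs : HasCompactSupport X)
    (hR : ∀ x ∈ Y, IsReebVector Y lam x (X x)) (hφ : IsFlow X φ) {x : EE m} (hx : x ∈ Y) (s t : ℝ) :
    φ s (g t x) = g t (φ s x) := by
  have h1 : ∀ u, HasDerivAt (fun u => g t (φ u x)) (X (g t (φ u x))) u := by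
    intro u
    rw [cmm_X D hR (cmm_Y D hX hs hR hφ hx u) t]
    exact (g t).toContinuousLinearMap.hasFDerivAt.comp_hasDerivAt u (hφ.der x u)
  have h2 := hφ.uniq _ h1 s
  rw [hφ.zero] at h2
  exact h2.symm

theorem cmm_H (D : Dat Y g lam) (hX : ContDiff ℝ ∞ X) (hs : HasCompactSupport X)
    (hR : ∀ x ∈ Y, IsReebVector Y lam x (X x)) (hφ : IsFlow X φ) {x : EE m} (hx : x ∈ Y) (t : ℝ) :
    HH g lam (φ t x) = HH g lam x := by
  have hd : ∀ u, HasDerivAt (fun u => HH g lam (φ u x)) 0 u := by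
    intro u
    have h1 : HasFDerivAt (HH g lam) (fderiv ℝ (HH g lam) (φ u x)) (φ u x) :=
      ((inv_smooth D.act D.con.1).differentiable (by simp)).differentiableAt.hasFDerivAt
    have h2 := h1.comp_hasDerivAt u (hφ.der x u)
    have hy := cmm_Y D hX hs hR hφ hx u
    have h3 : fderiv ℝ (HH g lam) (φ u x) (X (φ u x)) = 0 := by
      rw [inv_H D.act D.con.1 D.inv]
      have h4 := (hR _ hy).2.2 _ (tan_V D.act hy)
      have h5 : - dForm lam (φ u x) (VV g (φ u x)) (X (φ u x)) =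
          dForm lam (φ u x) (X (φ u x)) (VV g (φ u x)) := by
        unfold dForm
        ring
      rw [h5, h4]
    rw [h3] at h2
    exact h2
  have h6 := is_const_of_deriv_eq_zero (f := fun u => HH g lam (φ u x))
    (fun u => (hd u).differentiableAt) (fun u => (hd u).deriv) t 0
  rw [hφ.zero] at h6
  exact h6

theorem cmm_V (D : Dat Y g lam) (hR : ∀ x ∈ Y, IsReebVector Y lam x (X x)) {x : EE m} (hx : x ∈ Y) :
    x ∈ Crt Y g lam ↔ VV g x = HH g lam x • X x := by
  constructor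
  · rintro ⟨-, v, c, hv, hV⟩
    have h1 : v = X x := reeb_unique D.mfd D.con hx hv (hR x hx)
    have h2 : HH g lam x = c := by
      unfold HH
      rw [hV, map_smul, hv.2.1, smul_eq_mul, mul_one]
    rw [h2, hV, h1]
  · intro h
    exact ⟨hx, X x, HH g lam x, hR x hx, h⟩

theorem crt_closed (D : Dat Y g lam) (hX : ContDiff ℝ ∞ X) (hR : ∀ x ∈ Y, IsReebVector Y lam x (X x)) :
    IsClosed (Crt Y g lam) := by
  have h1 : Crt Y g lam = Y ∩ {x | VV g x = HH g lam x • X x} := by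
    ext x
    constructor
    · intro h
      exact ⟨h.1, (cmm_V D hR h.1).1 h⟩
    · rintro ⟨h2, h3⟩
      exact (cmm_V D hR h2).2 h3
  rw [h1]
  obtain ⟨A, hA⟩ := act_lin D.act
  have hVc : Continuous (VV g) := by
    have h4 : VV g = fun x => A x := funext hA
    rw [h4]
    exact A.continuous
  exact D.mfd.compact.isClosed.inter (isClosed_eq hVc
    ((inv_smooth D.act D.con.1).continuous.smul hX.continuous))

theorem crt_g (D : Dat Y g lam) {x : EE m} (hx : x ∈ Crt Y g lam) (t : ℝ) : g t x ∈ Crt Y g lam := by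
  obtain ⟨hY, v, c, hv, hV⟩ := hx
  refine ⟨D.act.maps t x hY, g t v, c, cmm_reeb D hv t, ?_⟩
  rw [act_comm D.act, hV, map_smul]

theorem crt_par (D : Dat Y g lam) (hX : ContDiff ℝ ∞ X) (hs : HasCompactSupport X)
    (hR : ∀ x ∈ Y, IsReebVector Y lam x (X x)) (hφ : IsFlow X φ) {x : EE m} (hx : x ∈ Crt Y g lam) (b : ℝ) :
    g b x = φ (b * HH g lam x) x := by
  have hxY := hx.1
  by_cases hc : HH g lam x = 0
  · have h1 := (cmm_V D hR hxY).1 hx
    rw [hc, zero_smul] at h1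
    rw [hc, mul_zero, hφ.zero]
    exact (act_fix D.act x).1 h1 b
  · have h1 : ∀ s, HasDerivAt (fun s => g (s / HH g lam x) x)
        (X (g (s / HH g lam x) x)) s := by
      intro s
      have h2 := act_der D.act (s / HH g lam x) x
      have h3 : HasDerivAt (fun s : ℝ => s / HH g lam x) (1 / HH g lam x) s :=
        (hasDerivAt_id s).div_const _
      have h4 := h2.scomp s h3
      have h5 := (cmm_V D hR (D.act.maps (s / HH g lam x) x hxY)).1 (crt_g D hx (s / HH g lam x))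
      rw [inv_Hg D.act D.inv] at h5
      rw [h5, smul_smul, one_div, inv_mul_cancel₀ hc, one_smul] at h4
      exact h4
    have h6 := hφ.uniq _ h1 (b * HH g lam x)
    rw [zero_div, act_zero D.act, mul_div_assoc, div_self hc, mul_one] at h6
    exact h6

theorem crt_phi (D : Dat Y g lam) (hX : ContDiff ℝ ∞ X) (hs : HasCompactSupport X)
    (hR : ∀ x ∈ Y, IsReebVector Y lam x (X x)) (hφ : IsFlow X φ) {x : EE m} (hx : x ∈ Crt Y g lam) (t : ℝ) :
    φ t x ∈ Crt Y g lam := by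
  have hxY := hx.1
  have hy := cmm_Y D hX hs hR hφ hxY t
  by_cases hc : HH g lam x = 0
  · have h1 := (cmm_V D hR hxY).1 hx
    rw [hc, zero_smul] at h1
    have h2 : VV g (φ t x) = 0 := by
      rw [act_fix D.act]
      intro s
      rw [← cmm D hX hs hR hφ hxY t s, (act_fix D.act x).1 h1 s]
    refine ⟨hy, X (φ t x), 0, hR _ hy, ?_⟩
    rw [zero_smul]
    exact h2
  · have h1 := crt_par D hX hs hR hφ hx (t / HH g lam x)
    rw [div_mul_cancel₀ _ hc] at h1
    rw [← h1]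
    exact crt_g D hx _

theorem traj_iff (D : Dat Y g lam) (hX : ContDiff ℝ ∞ X) (hs : HasCompactSupport X)
    (hR : ∀ x ∈ Y, IsReebVector Y lam x (X x)) (hφ : IsFlow X φ) (γ : ℝ → EE m) :
    IsReebTrajectory Y lam γ ↔ γ 0 ∈ Y ∧ ∀ t, γ t = φ t (γ 0) := by
  constructor
  · intro h
    refine ⟨(h 0).1, fun t => hφ.uniq γ (fun s => ?_) t⟩
    obtain ⟨h1, v, h2, h3⟩ := h s
    rw [reeb_unique D.mfd D.con h1 h3 (hR _ h1)] at h2
    exact h2
  · rintro ⟨h0, h1⟩ t
    have h2 : γ t ∈ Y := by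
      rw [h1 t]
      exact cmm_Y D hX hs hR hφ h0 t
    refine ⟨h2, X (γ t), ?_, hR _ h2⟩
    have h3 := hφ.der (γ 0) t
    rw [← h1 t] at h3
    exact h3.congr_of_eventuallyEq (Filter.Eventually.of_forall h1)

end Pool.Agent.CIR
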