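import Pool.Agent.CIR.FixA
import Pool.Agent.CIR.Cmm

/-! Module FixB (difficulty 3): the Reeb orbit of a fixed point of the circle action is closed.

Let `z ∈ Y`, `VV g z = 0`, `R = X z` (Reeb vector).
(1) `VV g R = 0`: `g t R = X (g t z) = X z = R` (`cmm_X`, `act_fix`).
(2) `fix_ker`: if `w` is tangent at `z` and `VV g w = 0` then `w = lam z w • R`.  Proof: suppose not; then `R, w` are
linearly independent.  The tangent space `T` has dimension 3 (image of the injective `fderiv χ (π z)`), so there is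
`u ∈ T` such that `T = span (R, w, u)`.  `VV g u ∈ T`: `g t u ∈ T` for all `t` (`tan_g` with `g t z = z`), `T` is a
subspace of a finite dimensional space, so closed, and the derivative of a curve in `T` is in `T`.  By `act_skew`
`⟪VV g u, R⟫ = - ⟪u, VV g R⟫ = 0`, the same for `w`, and `⟪VV g u, u⟫ = - ⟪u, VV g u⟫`, so it is `0`.  So `VV g u`
is orthogonal to `T` and in `T`, `VV g u = 0`, and `VV g = 0` on `T`: contradiction to `fixb`.
(3) `fix_loc`: `L v = (VV g v, lam z v)` (continuous linear, `act_lin`) is injective on `T` (by (2): `w = lam z w • R = 0`).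
`imm` gives `r`.  For `ε > 0` small, `|a| < ε` implies `dist (φ a z) z < r`; the function `a ↦ lam z (φ a z)` is continuous
with derivative `lam z R = 1` at `0`, so its image of `(-ε, ε)` contains a neighbourhood of `lam z z`
(intermediate value theorem).  If `x ∈ Y` is close to `z` and `VV g x = 0` choose `|a| < ε` with
`lam z (φ a z) = lam z x`; `VV g (φ a z) = 0` (`act_fix`, `cmm`), so `L (φ a z) = L x` and `φ a z = x`.
(4) `fix_per`: `K = {x ∈ Y | VV g x = 0}` is compact and contains `φ n z` for all `n`.  Let `w` be a cluster point of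
`n ↦ φ n z`; `fix_loc` at `w` with `ε = 1/4`: there are `n > n'` with `φ n z = φ a w`, `φ n' z = φ a' w`, `|a|, |a'| < 1/4`, so
`φ (n - n' - (a - a')) z = z` and `T = n - n' - (a - a') > 0`. -/

set_option autoImplicit false

namespace Pool.Agent.CIR

open Set Filter
open scoped Topology ContDiff

variable {m : ℕ} {Y : Set (EE m)} {g : ℝ → EE m →ₗᵢ[ℝ] EE m} {lam : OneForm m} {X : EE m → EE m}
  {φ : ℝ → EE m → EE m}

theorem FixB_R (D : Dat Y g lam) (hR : ∀ x ∈ Y, IsReebVector Y lam x (X x)) {z : EE m} (hz : z ∈ Y)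
    (h0 : VV g z = 0) : VV g (X z) = 0 := by
  rw [act_fix D.act]
  intro t
  have h1 := cmm_X D hR hz t
  rw [(act_fix D.act z).1 h0 t] at h1
  exact h1.symm

/-- `VV g u` is tangent at a fixed point -/
theorem FixB_tan (D : Dat Y g lam) {z : EE m} (hz : z ∈ Y) (h0 : VV g z = 0) {U : Set (EE m)}
    {V : Set (EE 3)} {χ : EE 3 → EE m} {π : EE m → EE 3} (hU : z ∈ U) (hc : IsChart Y U V χ π)
    {u : EE m} (hu : IsTangent Y z u) :
    fderiv ℝ χ (π z) (fderiv ℝ π z (VV g u)) = VV g u := by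
  have h1 : ∀ t, fderiv ℝ χ (π z) (fderiv ℝ π z (g t u)) = g t u := by
    intro t
    have h2 := tan_g D.act hu t
    rw [(act_fix D.act z).1 h0 t] at h2
    exact tan_eq hc ⟨hz, hU⟩ h2
  have h3 := act_der D.act 0 u
  rw [act_zero D.act] at h3
  have h4 : HasDerivAt (fun s => ((fderiv ℝ χ (π z)).comp (fderiv ℝ π z)) (g s u))
      (((fderiv ℝ χ (π z)).comp (fderiv ℝ π z)) (VV g u)) 0 :=
    (ContinuousLinearMap.hasFDerivAt _).comp_hasDerivAt 0 h3
  have h5 : (fun s => ((fderiv ℝ χ (π z)).comp (fderiv ℝ π z)) (g s u)) = fun s => g s u := by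
    funext s
    exact h1 s
  rw [h5] at h4
  exact h4.unique h3

theorem fix_ker (D : Dat Y g lam) (hR : ∀ x ∈ Y, IsReebVector Y lam x (X x)) {z : EE m} (hz : z ∈ Y)
    (h0 : VV g z = 0) {w : EE m} (hw : IsTangent Y z w) (hw0 : VV g w = 0) : w = lam z w • X z := by
  by_contra hne
  obtain ⟨U, V, χ, π, hU, hc⟩ := D.mfd.chart z hz
  have hr := hc.right_inv z ⟨hz, hU⟩
  have hRz := hR z hz
  have hVR := FixB_R D hR hz h0
  obtain ⟨A, hA⟩ := act_lin D.act
  -- there is a tangent vector which is not in the kernel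
  obtain ⟨u, hu, hVu⟩ := fixb D.mfd D.act hz h0
  obtain ⟨n, hn⟩ : ∃ n, n = VV g u := ⟨_, rfl⟩
  have hnT : fderiv ℝ χ (π z) (fderiv ℝ π z n) = n := by
    rw [hn]
    exact FixB_tan D hz h0 hU hc hu
  have hnR : inner ℝ n (X z) = (0 : ℝ) := by
    rw [hn, act_skew D.act, hVR, inner_zero_right, neg_zero]
  have hnw : inner ℝ n w = (0 : ℝ) := by
    rw [hn, act_skew D.act, hw0, inner_zero_right, neg_zero]
  have hn0 : n ≠ 0 := by
    rw [hn]
    exact hVu
  have hRT := tan_eq hc ⟨hz, hU⟩ hRz.1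
  have hwT := tan_eq hc ⟨hz, hU⟩ hw
  have huT := tan_eq hc ⟨hz, hU⟩ hu
  -- linear independence
  have hRn : X z ≠ 0 := by
    intro h
    have h2 := hRz.2.1
    rw [h, map_zero] at h2
    exact zero_ne_one h2
  have hli : LinearIndependent ℝ ![X z, w, n] := by
    rw [Fintype.linearIndependent_iff]
    intro c hcs
    rw [Fin.sum_univ_three] at hcs
    simp only [Matrix.cons_val_zero, Matrix.cons_val_one, Matrix.cons_val_two, Matrix.head_cons,
      Matrix.tail_cons] at hcs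
    have e1 : c 2 * inner ℝ n n = (0 : ℝ) := by
      have h2 : inner ℝ n (c 0 • X z + c 1 • w + c 2 • n) = (0 : ℝ) := by
        rw [hcs, inner_zero_right]
      rw [inner_add_right, inner_add_right, inner_smul_right, inner_smul_right, inner_smul_right,
        hnR, hnw] at h2
      linarith
    have hc2 : c 2 = 0 := by
      rcases mul_eq_zero.mp e1 with h2 | h2
      · exact h2
      · exact absurd (inner_self_eq_zero.mp h2) hn0
    rw [hc2, zero_smul, add_zero] at hcs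
    have hc1 : c 1 = 0 := by
      by_contra h2
      apply hne
      have h3 : w = (-(c 0 / c 1)) • X z := by
        have h4 : c 1 • w = -(c 0 • X z) := by
          rw [eq_neg_iff_add_eq_zero, add_comm]
          exact hcs
        have h5 : w = (c 1)⁻¹ • (c 1 • w) := by
          rw [smul_smul, inv_mul_cancel₀ h2, one_smul]
        rw [h5, h4, smul_neg, smul_smul, neg_smul]
        congr 2
        field_simp
      have h4 : lam z w = -(c 0 / c 1) := by
        rw [h3, map_smul, hRz.2.1, smul_eq_mul, mul_one]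
      rw [h4]
      exact h3
    rw [hc1, zero_smul, add_zero] at hcs
    have hc0 : c 0 = 0 := by
      rcases smul_eq_zero.mp hcs with h2 | h2
      · exact h2
      · exact absurd h2 hRn
    intro i
    fin_cases i
    · exact hc0
    · exact hc1
    · exact hc2
  obtain ⟨e, he⟩ : ∃ e : Fin 3 → EE 3, e = ![fderiv ℝ π z (X z), fderiv ℝ π z w, fderiv ℝ π z n] :=
    ⟨_, rfl⟩
  have hcomp : (fderiv ℝ χ (π z) : EE 3 →ₗ[ℝ] EE m) ∘ e = ![X z, w, n] := by
    funext i
    rw [he]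
    fin_cases i
    · exact hRT
    · exact hwT
    · exact hnT
  have hli3 : LinearIndependent ℝ e := by
    refine LinearIndependent.of_comp (fderiv ℝ χ (π z) : EE 3 →ₗ[ℝ] EE m) ?_
    rw [hcomp]
    exact hli
  have hbas : ∃ c : Fin 3 → ℝ, fderiv ℝ π z u = c 0 • e 0 + c 1 • e 1 + c 2 • e 2 := by
    let bb := basisOfLinearIndependentOfCardEqFinrank hli3 (by simp)
    have h1 := bb.sum_repr (fderiv ℝ π z u)
    rw [Fin.sum_univ_three] at h1
    have h2 : ∀ i, bb i = e i := fun i => by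
      rw [coe_basisOfLinearIndependentOfCardEqFinrank]
    rw [h2, h2, h2] at h1
    exact ⟨_, h1.symm⟩
  obtain ⟨c, hcu⟩ := hbas
  have hue : u = c 0 • X z + c 1 • w + c 2 • n := by
    rw [← huT, hcu, map_add, map_add, map_smul, map_smul, map_smul]
    have k0 : fderiv ℝ χ (π z) (e 0) = X z := congrFun hcomp 0
    have k1 : fderiv ℝ χ (π z) (e 1) = w := congrFun hcomp 1
    have k2 : fderiv ℝ χ (π z) (e 2) = n := congrFun hcomp 2
    rw [k0, k1, k2]
  have hn2 : n = c 2 • VV g n := by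
    have h1 : n = A u := by
      rw [hn, hA]
    rw [hA] at hVR hw0
    rw [hA]
    conv_lhs => rw [h1, hue]
    rw [map_add, map_add, map_smul, map_smul, map_smul, hVR, hw0, smul_zero, smul_zero, zero_add,
      zero_add]
  have hskew : inner ℝ (VV g n) n = (0 : ℝ) := by
    have h1 := act_skew D.act n n
    rw [real_inner_comm (VV g n) n] at h1
    linarith
  have hnn : inner ℝ n n = (0 : ℝ) := by
    have h1 : inner ℝ n n = inner ℝ (c 2 • VV g n) n := by rw [← hn2]
    rw [h1, real_inner_smul_left, hskew, mul_zero]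
  exact hn0 (inner_self_eq_zero.mp hnn)

/-- a function with derivative 1 at 0 is locally surjective -/
theorem FixB_ivt {f : ℝ → ℝ} (hf : Continuous f) (hd : HasDerivAt f 1 0) {ε : ℝ} (hε : 0 < ε) :
    ∃ δ : ℝ, 0 < δ ∧ ∀ y : ℝ, |y - f 0| < δ → ∃ a : ℝ, |a| < ε ∧ f a = y := by
  have h1 := (hasDerivAt_iff_isLittleO_nhds_zero.1 hd).def (c := 1 / 2) (by norm_num)
  obtain ⟨η, hη, h2⟩ := Metric.eventually_nhds_iff.1 h1
  obtain ⟨e, he⟩ : ∃ e, e = min ε η / 2 := ⟨_, rfl⟩
  have hm : 0 < min ε η := lt_min hε hη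
  have he0 : 0 < e := by rw [he]; linarith
  have heε : e < ε := by
    rw [he]
    have := min_le_left ε η
    linarith
  have heη : e < η := by
    rw [he]
    have := min_le_right ε η
    linarith
  have k1 := h2 (y := e) (by rw [Real.dist_eq, sub_zero, abs_of_pos he0]; exact heη)
  have k2 := h2 (y := -e) (by rw [Real.dist_eq, sub_zero, abs_neg, abs_of_pos he0]; exact heη)
  rw [zero_add, smul_eq_mul, mul_one, Real.norm_eq_abs, Real.norm_eq_abs, abs_of_pos he0] at k1
  rw [zero_add, smul_eq_mul, mul_one, Real.norm_eq_abs, Real.norm_eq_abs, abs_neg,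
    abs_of_pos he0] at k2
  rw [abs_le] at k1 k2
  refine ⟨e / 2, by linarith, fun y hy => ?_⟩
  rw [abs_lt] at hy
  have h3 := intermediate_value_Icc (show -e ≤ e by linarith) hf.continuousOn
  obtain ⟨a, ha, hay⟩ := h3 (show y ∈ Icc (f (-e)) (f e) by
    constructor <;> linarith [k1.1, k1.2, k2.1, k2.2, hy.1, hy.2])
  refine ⟨a, ?_, hay⟩
  rw [abs_lt]
  constructor <;> linarith [ha.1, ha.2]

theorem FixB_fixed (D : Dat Y g lam) (hX : ContDiff ℝ ∞ X) (hs : HasCompactSupport X)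
    (hR : ∀ x ∈ Y, IsReebVector Y lam x (X x)) (hφ : IsFlow X φ) {z : EE m} (hz : z ∈ Y)
    (h0 : VV g z = 0) (a : ℝ) : φ a z ∈ Y ∧ VV g (φ a z) = 0 := by
  refine ⟨prs D.mfd.compact hX hs (fun x hx => (hR x hx).1) hφ hz a, ?_⟩
  rw [act_fix D.act]
  intro t
  rw [← cmm D hX hs hR hφ hz a t, (act_fix D.act z).1 h0 t]

theorem fix_loc (D : Dat Y g lam) (hX : ContDiff ℝ ∞ X) (hs : HasCompactSupport X)
    (hR : ∀ x ∈ Y, IsReebVector Y lam x (X x)) (hφ : IsFlow X φ) {z : EE m} (hz : z ∈ Y)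
    (h0 : VV g z = 0) {ε : ℝ} (hε : 0 < ε) :
    ∃ r : ℝ, 0 < r ∧ ∀ x ∈ Y, dist x z < r → VV g x = 0 → ∃ a : ℝ, |a| < ε ∧ φ a z = x := by
  obtain ⟨A, hA⟩ := act_lin D.act
  obtain ⟨r, hr, himm⟩ := imm D.mfd hz (A.prod (lam z)) (fun v hv hL => by
    have h1 : A v = 0 := congrArg Prod.fst hL
    have h2 : lam z v = 0 := congrArg Prod.snd hL
    rw [← hA] at h1
    rw [fix_ker D hR hz h0 hv h1, h2, zero_smul])
  have hφc : Continuous fun a => φ a z := by
    rw [continuous_iff_continuousAt]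
    exact fun a => (hφ.der z a).continuousAt
  have hnear : ∀ᶠ a in 𝓝 (0 : ℝ), dist (φ a z) z < r := by
    have h1 : Continuous fun a => dist (φ a z) z := hφc.dist continuous_const
    have h2 := h1.continuousAt (x := (0 : ℝ))
    refine h2.eventually_lt_const ?_
    simp only [hφ.zero, dist_self]
    exact hr
  obtain ⟨ε1, hε1, hnear'⟩ := Metric.eventually_nhds_iff.1 hnear
  have hfc : Continuous fun a => lam z (φ a z) := (lam z).continuous.comp hφc
  have hfd : HasDerivAt (fun a => lam z (φ a z)) 1 0 := by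
    have h1 := (lam z).hasFDerivAt.comp_hasDerivAt 0 (hφ.der z 0)
    rw [hφ.zero, (hR z hz).2.1] at h1
    exact h1
  obtain ⟨δ, hδ, hivt⟩ := FixB_ivt hfc hfd (lt_min hε hε1)
  have hlc : ∀ᶠ x in 𝓝 z, |lam z x - lam z z| < δ := by
    have h1 : Continuous fun x => |lam z x - lam z z| := by fun_prop
    refine (h1.continuousAt (x := z)).eventually_lt_const ?_
    simp only [sub_self, abs_zero]
    exact hδ
  obtain ⟨r', hr', hlc'⟩ := Metric.eventually_nhds_iff.1 hlc
  refine ⟨min r r', lt_min hr hr', fun x hx hxz hx0 => ?_⟩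
  have hxr : dist x z < r := lt_of_lt_of_le hxz (min_le_left _ _)
  have hxr' : dist x z < r' := lt_of_lt_of_le hxz (min_le_right _ _)
  obtain ⟨a, ha, hax⟩ := hivt (lam z x) (by
    simp only [hφ.zero]
    exact hlc' hxr')
  refine ⟨a, lt_of_lt_of_le ha (min_le_left _ _), ?_⟩
  have hY := FixB_fixed D hX hs hR hφ hz h0 a
  refine himm _ hY.1 _ hx (hnear' ?_) hxr ?_
  · rw [Real.dist_eq, sub_zero]
    exact lt_of_lt_of_le ha (min_le_right _ _)
  · show (A (φ a z), lam z (φ a z)) = (A x, lam z x)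
    rw [← hA, ← hA, hY.2, hx0]
    exact congrArg _ hax

theorem fix_per (D : Dat Y g lam) (hX : ContDiff ℝ ∞ X) (hs : HasCompactSupport X)
    (hR : ∀ x ∈ Y, IsReebVector Y lam x (X x)) (hφ : IsFlow X φ) {z : EE m} (hz : z ∈ Y)
    (h0 : VV g z = 0) : ∃ T : ℝ, 0 < T ∧ φ T z = z := by
  obtain ⟨A, hA⟩ := act_lin D.act
  have hK : IsCompact (Y ∩ {x | VV g x = 0}) := by
    refine D.mfd.compact.inter_right ?_
    have h1 : {x | VV g x = 0} = {x | A x = 0} := by
      ext x
      rw [mem_setOf_eq, mem_setOf_eq, hA]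
    rw [h1]
    exact isClosed_eq A.continuous continuous_const
  obtain ⟨w, hw, ψ, hψ, hlim⟩ := hK.tendsto_subseq (x := fun n : ℕ => φ (n : ℝ) z)
    (fun n => FixB_fixed D hX hs hR hφ hz h0 (n : ℝ))
  obtain ⟨r, hr, hloc⟩ := fix_loc D hX hs hR hφ hw.1 hw.2 (ε := 1 / 4) (by norm_num)
  have hev : ∀ᶠ k in atTop, dist (φ ((ψ k : ℕ) : ℝ) z) w < r :=
    (tendsto_iff_dist_tendsto_zero.1 hlim).eventually_lt_const hr
  obtain ⟨k, hk⟩ := eventually_atTop.1 hev
  have f1 := FixB_fixed D hX hs hR hφ hz h0 ((ψ k : ℕ) : ℝ)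
  have f2 := FixB_fixed D hX hs hR hφ hz h0 ((ψ (k + 1) : ℕ) : ℝ)
  obtain ⟨a, ha, ea⟩ := hloc _ f1.1 (hk k le_rfl) f1.2
  obtain ⟨a', ha', ea'⟩ := hloc _ f2.1 (hk (k + 1) (Nat.le_succ k)) f2.2
  have hlt : ψ k < ψ (k + 1) := hψ (Nat.lt_succ_self k)
  have hge : ((ψ k : ℕ) : ℝ) + 1 ≤ ((ψ (k + 1) : ℕ) : ℝ) := by exact_mod_cast hlt
  rw [abs_lt] at ha ha'
  refine ⟨((ψ (k + 1) : ℕ) : ℝ) - ((ψ k : ℕ) : ℝ) + (a - a'), by linarith [ha.1, ha'.2], ?_⟩
  have e1 : φ (-((ψ k : ℕ) : ℝ)) (φ ((ψ k : ℕ) : ℝ) z) = z := by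
    rw [← hφ.add, neg_add_cancel, hφ.zero]
  have e2 : φ (a - a') (φ ((ψ (k + 1) : ℕ) : ℝ) z) = φ ((ψ k : ℕ) : ℝ) z := by
    rw [← ea', ← ea, ← hφ.add, sub_add_cancel]
  have e3 : ((ψ (k + 1) : ℕ) : ℝ) - ((ψ k : ℕ) : ℝ) + (a - a') =
      -((ψ k : ℕ) : ℝ) + ((a - a') + ((ψ (k + 1) : ℕ) : ℝ)) := by ring
  rw [e3, hφ.add, hφ.add, e2, e1]

end Pool.Agent.CIR
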