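import Pool.Agent.CIR.Cmm

/-! Module Psi (difficulty 2): the gradient-like flow.

`psi_fix`: `x ∈ Crt`: the constant curve satisfies the equation (`W x = 0`), `hψ.uniq`.
`psi_inc`: let `x ∈ Y`, `x ∉ Crt`.  For all `t`, `ψ t x ∈ Y` (`prs`) and `ψ t x ∉ Crt` (otherwise
`x = ψ (-t) (ψ t x) = ψ t x ∈ Crt` by `psi_fix`).  The derivative of `t ↦ HH (ψ t x)` is
`fderiv HH (ψ t x) (W (ψ t x)) > 0`; strictly increasing. -/

set_option autoImplicit false

namespace Pool.Agent.CIR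

open Set Filter
open scoped Topology ContDiff

variable {m : ℕ} {Y : Set (EE m)} {g : ℝ → EE m →ₗᵢ[ℝ] EE m} {lam : OneForm m} {W : EE m → EE m}
  {ψ : ℝ → EE m → EE m}

theorem psi_fix (hψ : IsFlow W ψ) {x : EE m} (h : W x = 0) (t : ℝ) : ψ t x = x := by
  have h1 := hψ.uniq (fun _ => x) (fun u => by rw [h]; exact hasDerivAt_const u x) t
  exact h1.symm

theorem psi_inc (D : Dat Y g lam) (hW : ContDiff ℝ ∞ W) (hs : HasCompactSupport W)
    (hG : ∀ x ∈ Y, IsTangent Y x (W x) ∧ (x ∈ Crt Y g lam → W x = 0) ∧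
      (x ∉ Crt Y g lam → 0 < fderiv ℝ (HH g lam) x (W x))) (hψ : IsFlow W ψ) {x : EE m} (hx : x ∈ Y)
    (hc : x ∉ Crt Y g lam) {t : ℝ} (ht : 0 < t) : HH g lam x < HH g lam (ψ t x) := by
  have hsm : ContDiff ℝ ∞ (HH g lam) := inv_smooth D.act D.con.1
  have hdiff : Differentiable ℝ (HH g lam) := hsm.differentiable (by simp)
  have hY : ∀ u, ψ u x ∈ Y := fun u => prs D.mfd.compact hW hs (fun y hy => (hG y hy).1) hψ hx u
  have hC : ∀ u, ψ u x ∉ Crt Y g lam := by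
    intro u hu
    have h1 : ψ (-u) (ψ u x) = ψ u x := psi_fix hψ ((hG _ (hY u)).2.1 hu) (-u)
    have h2 : ψ (-u) (ψ u x) = x := by
      rw [← hψ.add, neg_add_cancel, hψ.zero]
    rw [h2] at h1
    rw [← h1] at hu
    exact hc hu
  have hder : ∀ u, HasDerivAt (fun v => HH g lam (ψ v x))
      (fderiv ℝ (HH g lam) (ψ u x) (W (ψ u x))) u := by
    intro u
    have h1 : HasFDerivAt (HH g lam) (fderiv ℝ (HH g lam) (ψ u x)) (ψ u x) :=
      (hdiff (ψ u x)).hasFDerivAt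
    exact h1.comp_hasDerivAt u (hψ.der x u)
  have hmono : StrictMono (fun v => HH g lam (ψ v x)) := by
    apply strictMono_of_deriv_pos
    intro u
    rw [(hder u).deriv]
    exact (hG _ (hY u)).2.2 (hC u)
  have h3 := hmono ht
  simp only [hψ.zero] at h3
  exact h3

end Pool.Agent.CIR
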