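import Pool.Agent.CIR.Al

/-! Module Rig (difficulty 2): rigidity of the return time.

Let `z ∈ Y`, `O` a neighbourhood of `z` in `EE m`.  Chart `U, V, χ, π` at `z`; choose `ρ > 0` with `ball (π z) ρ ⊆ V` and
`χ '' ball (π z) ρ ⊆ O` (`χ` continuous at `π z`, `χ (π z) = z`).  `N = χ '' ball (π z) ρ`.  `N ⊆ Y ∩ O`.
`N ∈ 𝓝[Y] z`: it contains `Y ∩ {x ∈ U | π x ∈ ball (π z) ρ}`.  `N` is preconnected (image of a ball under a continuous map).
Let `τ, b` be as in the statement, `x ∈ N`, `y = π x ∈ ball (π z) ρ`, and `c u = χ (π z + u • (y - π z))`, defined for `u` in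
an open interval `I ⊇ [0, 1]` with `π z + u • (y - π z) ∈ ball (π z) ρ`.  For `u₀ ∈ [0, 1]`: `c u ∈ N ⊆ Y` for `u` near
`u₀`, `c` is differentiable at `u₀`, `τ ∘ c` is continuous at `u₀` (`ContinuousOn τ N`, `c` maps a neighbourhood of `u₀` into
`N`), and `φ (τ (c u)) (g b (c u)) = c u`.  By `al`, `HasDerivAt (τ ∘ c) 0 u₀`.  So `τ ∘ c` is constant on `[0, 1]`
(`constant_of_derivWithin_zero` or `Convex.is_const_of_fderivWithin_eq_zero`), `τ x = τ (c 1) = τ (c 0) = τ z`. -/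

set_option autoImplicit false

namespace Pool.Agent.CIR

open Set Filter
open scoped Topology ContDiff

variable {m : ℕ} {Y : Set (EE m)} {g : ℝ → EE m →ₗᵢ[ℝ] EE m} {lam : OneForm m} {X : EE m → EE m}
  {φ : ℝ → EE m → EE m}

theorem rig (D : Dat Y g lam) (hX : ContDiff ℝ ∞ X) (hs : HasCompactSupport X)
    (hR : ∀ x ∈ Y, IsReebVector Y lam x (X x)) (hφ : IsFlow X φ) {z : EE m} (hz : z ∈ Y) {O : Set (EE m)}
    (hO : O ∈ 𝓝 z) : ∃ N : Set (EE m), N ⊆ O ∧ N ⊆ Y ∧ N ∈ 𝓝[Y] z ∧ IsPreconnected N ∧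
      ∀ (b : ℝ) (τ : EE m → ℝ), ContinuousOn τ N → (∀ x ∈ N, φ (τ x) (g b x) = x) → ∀ x ∈ N, τ x = τ z := by
  obtain ⟨U, V, χ, π, hzU, hch⟩ := D.mfd.chart z hz
  obtain ⟨hV, hχz⟩ := hch.right_inv z ⟨hz, hzU⟩
  have hχc : ContinuousAt χ (π z) := hch.smooth_χ.continuousOn.continuousAt (hch.open_V.mem_nhds hV)
  have hπc : ContinuousAt π z := hch.smooth_π.continuousOn.continuousAt (hch.open_U.mem_nhds hzU)
  have hO' : χ ⁻¹' O ∈ 𝓝 (π z) := by
    apply hχc
    rw [hχz]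
    exact hO
  obtain ⟨ρ, hρ, hball⟩ := Metric.mem_nhds_iff.1 (inter_mem (hch.open_V.mem_nhds hV) hO')
  have hbV : Metric.ball (π z) ρ ⊆ V := fun y hy => (hball hy).1
  refine ⟨χ '' Metric.ball (π z) ρ, ?_, ?_, ?_, ?_, ?_⟩
  · rintro _ ⟨y, hy, rfl⟩
    exact (hball hy).2
  · rintro _ ⟨y, hy, rfl⟩
    exact (hch.left_inv y (hbV hy)).1.1
  · rw [mem_nhdsWithin_iff_exists_mem_nhds_inter]
    refine ⟨U ∩ π ⁻¹' Metric.ball (π z) ρ, inter_mem (hch.open_U.mem_nhds hzU)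
      (hπc (Metric.ball_mem_nhds _ hρ)), ?_⟩
    rintro x ⟨⟨hxU, hxb⟩, hxY⟩
    exact ⟨π x, hxb, (hch.right_inv x ⟨hxY, hxU⟩).2⟩
  · exact (convex_ball (π z) ρ).isPreconnected.image χ (hch.smooth_χ.continuousOn.mono hbV)
  · rintro b τ hτ hfix _ ⟨y, hy, rfl⟩
    have hp : Continuous fun u : ℝ => π z + u • (y - π z) := by fun_prop
    have hopen : ∀ u₀ : ℝ, π z + u₀ • (y - π z) ∈ Metric.ball (π z) ρ →
        ∀ᶠ u in 𝓝 u₀, π z + u • (y - π z) ∈ Metric.ball (π z) ρ := fun u₀ h0 =>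
      (Metric.isOpen_ball.preimage hp).mem_nhds h0
    have key : ∀ u₀ : ℝ, π z + u₀ • (y - π z) ∈ Metric.ball (π z) ρ →
        HasDerivAt (fun u : ℝ => τ (χ (π z + u • (y - π z)))) 0 u₀ := by
      intro u₀ h0
      have hev := hopen u₀ h0
      have hd1 : HasDerivAt (fun u : ℝ => π z + u • (y - π z)) (y - π z) u₀ := by
        have h1 := ((hasDerivAt_id u₀).smul_const (y - π z)).const_add (π z)
        simpa using h1
      have hd2 : DifferentiableAt ℝ χ (π z + u₀ • (y - π z)) :=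
        (hch.smooth_χ.contDiffAt (hch.open_V.mem_nhds (hbV h0))).differentiableAt (by simp)
      have hd3 : HasDerivAt (fun u : ℝ => χ (π z + u • (y - π z)))
          (fderiv ℝ χ (π z + u₀ • (y - π z)) (y - π z)) u₀ :=
        hd2.hasFDerivAt.comp_hasDerivAt u₀ hd1
      refine al D hX hs hR hφ (c := fun u : ℝ => χ (π z + u • (y - π z))) (b := b)
        (τ := fun u : ℝ => τ (χ (π z + u • (y - π z)))) ?_ hd3 ?_ ?_
      · filter_upwards [hev] with u hu
        exact (hch.left_inv _ (hbV hu)).1.1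
      · have h1 : Tendsto τ (𝓝[χ '' Metric.ball (π z) ρ] (χ (π z + u₀ • (y - π z))))
            (𝓝 (τ (χ (π z + u₀ • (y - π z))))) := hτ _ ⟨_, h0, rfl⟩
        have h2 : Tendsto (fun u : ℝ => χ (π z + u • (y - π z))) (𝓝 u₀)
            (𝓝[χ '' Metric.ball (π z) ρ] (χ (π z + u₀ • (y - π z)))) := by
          rw [tendsto_nhdsWithin_iff]
          refine ⟨hd3.continuousAt, ?_⟩
          filter_upwards [hev] with u hu
          exact ⟨_, hu, rfl⟩
        exact h1.comp h2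
      · filter_upwards [hev] with u hu
        exact hfix _ ⟨_, hu, rfl⟩
    have hmem : ∀ u ∈ Icc (0 : ℝ) 1, π z + u • (y - π z) ∈ Metric.ball (π z) ρ := by
      intro u hu
      rw [mem_ball_iff_norm, add_sub_cancel_left, norm_smul, Real.norm_eq_abs, abs_of_nonneg hu.1]
      rw [mem_ball_iff_norm] at hy
      calc u * ‖y - π z‖ ≤ 1 * ‖y - π z‖ := mul_le_mul_of_nonneg_right hu.2 (norm_nonneg _)
        _ = ‖y - π z‖ := one_mul _
        _ < ρ := hy
    have hconst := constant_of_has_deriv_right_zero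
      (f := fun u : ℝ => τ (χ (π z + u • (y - π z)))) (a := 0) (b := 1)
      (fun u hu => (key u (hmem u hu)).continuousAt.continuousWithinAt)
      (fun u hu => (key u (hmem u ⟨hu.1, hu.2.le⟩)).hasDerivWithinAt) 1 ⟨zero_le_one, le_refl _⟩
    simp only [one_smul, zero_smul, add_zero, add_sub_cancel] at hconst
    rw [hconst, hχz]

end Pool.Agent.CIR
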