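import Pool.Agent.CIR.BoxC
import Pool.Agent.CIR.FixB
import Pool.Agent.CIR.Cpl
import Pool.Agent.CIR.Rig
import Pool.Agent.CIR.Psi

/-! Module Asm (difficulty 3): the abstract system on the subtype `Y`.

`restr f h`: restriction of `f : ℝ → EE m → EE m` to the subtype.  Fields:
`ne`: `D.mfd.connected.nonempty`.  `pC`, `sC`, `gC`: `hφ.cont`, `hψ.cont`, `act_cont` (`Continuous.subtype_mk`).
`p0, pa, s0, sa, g0, ga, g1`: `IsFlow`, `act_zero`, `D.act`.  `com`: `cmm`.  `hC`: `inv_smooth`.  `hp, hg`: `cmm_H`, `inv_Hg`.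
`cl`: `crt_closed`.  `cp, cg`: `crt_phi`, `crt_g`.  `cs`: `psi_fix` with `hG`.  `inc`: `psi_inc`.  `box`, `inj`: `box_sur`, `box_inj`.
`per`: for `x ∈ Crt`: if `HH g lam x ≠ 0` then `crt_par` with `b = 1` gives `φ (HH x) x = x` (`D.act.period`), so
`T = |HH x|`; if `HH g lam x = 0` then `VV g x = 0` (`cmm_V`) and `fix_per`.  `par`: `crt_par`.
`pre`, `den`: for a finite set `C` of closed orbits choose for each `O ∈ C` a point `x_O` with `O = range (t ↦ φ t x_O)`;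
`cpl` with `ι = C` (a finite type), `γ O t = φ t x_O` (`ContDiff ℝ 1`: the derivative `X (φ t x)` is continuous in `t`:
`contDiff_one_iff_deriv`); transfer to the subtype: the preimage of `Y \ ⋃ range γ` under `Subtype.val` is `(⋃₀ C)ᶜ`
(`Topology.IsInducing.subtypeVal.isPreconnected_image`, `Subtype.dense_iff`).
`rig`: `rig` (the set `O ∈ 𝓝 z` of the subtype is the preimage of a neighbourhood: `mem_nhds_subtype`; `N' = val ⁻¹' N`;
given `τ` on the subtype extend it to `EE m` by `0` outside `Y`). -/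

set_option autoImplicit false

namespace Pool.Agent.CIR

open Set Filter
open scoped Topology ContDiff

variable {m : ℕ} {Y : Set (EE m)} {g : ℝ → EE m →ₗᵢ[ℝ] EE m} {lam : OneForm m} {X W : EE m → EE m}
  {φ ψ : ℝ → EE m → EE m}

/-- restriction to the subtype -/
def restr (f : ℝ → EE m → EE m) (h : ∀ t, ∀ x ∈ Y, f t x ∈ Y) (t : ℝ) (x : Y) : Y := ⟨f t x, h t x x.2⟩

theorem Asm_cont {f : ℝ → EE m → EE m} (h : ∀ t, ∀ x ∈ Y, f t x ∈ Y)
    (hf : Continuous (fun p : ℝ × EE m => f p.1 p.2)) :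
    Continuous (fun p : ℝ × Y => restr f h p.1 p.2) := by
  apply Continuous.subtype_mk
  exact hf.comp (continuous_fst.prodMk (continuous_subtype_val.comp continuous_snd))

theorem Asm_per (D : Dat Y g lam) (hX : ContDiff ℝ ∞ X) (hs : HasCompactSupport X)
    (hR : ∀ x ∈ Y, IsReebVector Y lam x (X x)) (hφ : IsFlow X φ) {x : EE m} (hx : x ∈ Crt Y g lam) :
    ∃ T : ℝ, 0 < T ∧ φ T x = x := by
  have hxY : x ∈ Y := hx.1
  by_cases h : HH g lam x = 0
  · have h0 : VV g x = 0 := by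
      rw [(cmm_V D hR hxY).1 hx, h, zero_smul]
    exact fix_per D hX hs hR hφ hxY h0
  · have h1 := crt_par D hX hs hR hφ hx 1
    rw [one_mul, D.act.period] at h1
    rcases lt_or_gt_of_ne h with h2 | h2
    · refine ⟨-HH g lam x, by linarith, ?_⟩
      have h3 : φ (-HH g lam x) (φ (HH g lam x) x) = x := by
        rw [← hφ.add, neg_add_cancel, hφ.zero]
      rwa [← h1] at h3
    · exact ⟨HH g lam x, h2, h1.symm⟩

theorem Asm_smooth (hX : ContDiff ℝ ∞ X) (hφ : IsFlow X φ) (x : EE m) :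
    ContDiff ℝ 1 (fun t => φ t x) := by
  rw [contDiff_one_iff_deriv]
  refine ⟨fun t => (hφ.der x t).differentiableAt, ?_⟩
  have h1 : deriv (fun t => φ t x) = fun t => X (φ t x) := by
    funext t
    exact (hφ.der x t).deriv
  rw [h1]
  exact hX.continuous.comp (hφ.cont.comp (continuous_id.prodMk continuous_const))

theorem Asm_cpl (D : Dat Y g lam) (hX : ContDiff ℝ ∞ X) (hφ : IsFlow X φ)
    (h1 : ∀ t, ∀ x ∈ Y, φ t x ∈ Y) (C : Set (Set Y)) (hC : C.Finite)
    (hO : ∀ O ∈ C, IsPO (restr φ h1) O) : IsPreconnected ((⋃₀ C)ᶜ) ∧ Dense ((⋃₀ C)ᶜ) := by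
  have hfin : Finite C := hC.to_subtype
  choose x T hT hx using fun O : C => hO O.1 O.2
  have hc := cpl D.mfd (fun (O : C) t => φ t (x O)) (fun O => Asm_smooth hX hφ (x O))
    (fun O t => h1 t _ (x O).2)
  have himg : (Subtype.val '' ((⋃₀ C)ᶜ) : Set (EE m)) = Y \ ⋃ O : C, range (fun t => φ t (x O)) := by
    ext y
    constructor
    · rintro ⟨z, hz, rfl⟩
      refine ⟨z.2, fun hmem => hz ?_⟩
      obtain ⟨O, hO1⟩ := mem_iUnion.1 hmem
      obtain ⟨t, ht⟩ := hO1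
      refine ⟨O.1, O.2, ?_⟩
      rw [(hx O).2]
      exact ⟨t, Subtype.ext ht⟩
    · rintro ⟨hy, hn⟩
      refine ⟨⟨y, hy⟩, fun hmem => hn ?_, rfl⟩
      obtain ⟨O, hOC, hyO⟩ := hmem
      have h3 : O = range fun t => restr φ h1 t (x ⟨O, hOC⟩) := (hx ⟨O, hOC⟩).2
      rw [h3] at hyO
      obtain ⟨t, ht⟩ := hyO
      exact mem_iUnion.2 ⟨⟨O, hOC⟩, t, congrArg Subtype.val ht⟩
  constructor
  · rw [← Topology.IsInducing.subtypeVal.isPreconnected_image, himg]
    exact hc.1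
  · rw [Subtype.dense_iff, himg]
    exact hc.2

theorem Asm_rig (D : Dat Y g lam) (hX : ContDiff ℝ ∞ X) (hs : HasCompactSupport X)
    (hR : ∀ x ∈ Y, IsReebVector Y lam x (X x)) (hφ : IsFlow X φ)
    (h1 : ∀ t, ∀ x ∈ Y, φ t x ∈ Y) (z : Y) (O : Set Y) (hO : O ∈ 𝓝 z) :
    ∃ N ⊆ O, N ∈ 𝓝 z ∧ IsPreconnected N ∧ ∀ (b : ℝ) (τ : Y → ℝ), ContinuousOn τ N →
      (∀ x ∈ N, restr φ h1 (τ x) (restr (fun t x => g t x) D.act.maps b x) = x) →
      ∀ x ∈ N, τ x = τ z := by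
  classical
  obtain ⟨u, hu, huO⟩ := (mem_nhds_subtype _ _ _).1 hO
  obtain ⟨N, hNu, hNY, hNz, hNp, hN⟩ := rig D hX hs hR hφ z.2 hu
  refine ⟨Subtype.val ⁻¹' N, ?_, ?_, ?_, ?_⟩
  · exact (preimage_mono hNu).trans huO
  · exact preimage_coe_mem_nhds_subtype.2 hNz
  · rw [← Topology.IsInducing.subtypeVal.isPreconnected_image, Subtype.image_preimage_coe,
      inter_eq_self_of_subset_right hNY]
    exact hNp
  · intro b τ hτ hfix y hy
    have hval : ∀ w : Y, (fun v : EE m => if h : v ∈ Y then τ ⟨v, h⟩ else 0) w = τ w := by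
      intro w
      show (if h : (w : EE m) ∈ Y then τ ⟨w, h⟩ else 0) = τ w
      rw [dif_pos w.2]
    have key := hN b (fun v => if h : v ∈ Y then τ ⟨v, h⟩ else 0) ?_ ?_ y hy
    · exact (hval y).symm.trans (key.trans (hval z))
    · rw [continuousOn_iff_continuous_domRestrict] at hτ ⊢
      have hmap : Continuous (fun w : N => (⟨⟨w, hNY w.2⟩, w.2⟩ : (Subtype.val ⁻¹' N : Set Y))) :=
        Continuous.subtype_mk (Continuous.subtype_mk continuous_subtype_val _) _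
      refine (hτ.comp hmap).congr fun w => ?_
      exact (hval ⟨w, hNY w.2⟩).symm
    · intro w hw
      have h3 := hfix ⟨w, hNY hw⟩ hw
      have h4 := congrArg Subtype.val h3
      have h5 : (fun v : EE m => if h : v ∈ Y then τ ⟨v, h⟩ else 0) w = τ ⟨w, hNY hw⟩ :=
        hval ⟨w, hNY hw⟩
      show φ ((fun v : EE m => if h : v ∈ Y then τ ⟨v, h⟩ else 0) w) (g b w) = w
      rw [h5]
      exact h4

theorem asm (D : Dat Y g lam) (hX : ContDiff ℝ ∞ X) (hs : HasCompactSupport X)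
    (hR : ∀ x ∈ Y, IsReebVector Y lam x (X x)) (hφ : IsFlow X φ) (hW : ContDiff ℝ ∞ W)
    (hWs : HasCompactSupport W) (hG : ∀ x ∈ Y, IsTangent Y x (W x) ∧ (x ∈ Crt Y g lam → W x = 0) ∧
      (x ∉ Crt Y g lam → 0 < fderiv ℝ (HH g lam) x (W x))) (hψ : IsFlow W ψ) [CompactSpace Y]
    (h1 : ∀ t, ∀ x ∈ Y, φ t x ∈ Y) (h2 : ∀ t, ∀ x ∈ Y, ψ t x ∈ Y) :
    Sys (restr φ h1) (restr ψ h2) (restr (fun t x => g t x) D.act.maps) (fun x : Y => HH g lam x)
      {x : Y | (x : EE m) ∈ Crt Y g lam} where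
  ne := by
    obtain ⟨x, hx⟩ := D.mfd.connected.nonempty
    exact ⟨⟨x, hx⟩⟩
  pC := Asm_cont h1 hφ.cont
  p0 := fun x => Subtype.ext (hφ.zero x)
  pa := fun s t x => Subtype.ext (hφ.add s t x)
  sC := Asm_cont h2 hψ.cont
  s0 := fun x => Subtype.ext (hψ.zero x)
  sa := fun s t x => Subtype.ext (hψ.add s t x)
  gC := Asm_cont D.act.maps (act_cont D.act)
  g0 := fun x => Subtype.ext (act_zero D.act x)
  ga := fun s t x => Subtype.ext (D.act.add s t x)
  g1 := fun x => Subtype.ext (D.act.period x)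
  com := fun s t x => Subtype.ext (cmm D hX hs hR hφ x.2 s t)
  hC := (inv_smooth D.act D.con.1).continuous.comp continuous_subtype_val
  hp := fun t x => cmm_H D hX hs hR hφ x.2 t
  hg := fun t x => inv_Hg D.act D.inv t x
  cl := (crt_closed D hX hR).preimage continuous_subtype_val
  cp := fun t x hx => crt_phi D hX hs hR hφ hx t
  cg := fun t x hx => crt_g D hx t
  cs := fun x hx t => Subtype.ext (psi_fix hψ ((hG x x.2).2.1 hx) t)
  inc := fun x hx t ht => psi_inc D hW hWs hG hψ x.2 hx ht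
  box := by
    intro z hz ε hε
    obtain ⟨r, hr, h⟩ := box_sur D hX hs hR hφ z.2 hz hε
    refine ⟨r, hr, fun x y hx hy hxy => ?_⟩
    obtain ⟨a, b, ha, hb, hab⟩ := h x x.2 y y.2 hx hy hxy
    exact ⟨a, b, ha, hb, Subtype.ext hab⟩
  inj := by
    intro z hz
    obtain ⟨ε, hε, r, hr, h⟩ := box_inj D hX hs hR hφ z.2 hz
    exact ⟨ε, hε, r, hr, fun x hx a b ha hb hab => h x x.2 hx a b ha hb (congrArg Subtype.val hab)⟩
  per := by
    intro x hx
    obtain ⟨T, hT, h⟩ := Asm_per D hX hs hR hφ hx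
    exact ⟨T, hT, Subtype.ext h⟩
  par := fun x hx b => ⟨b * HH g lam x, Subtype.ext (crt_par D hX hs hR hφ hx b)⟩
  pre := fun C hC hO => (Asm_cpl D hX hφ h1 C hC hO).1
  den := fun C hC hO => (Asm_cpl D hX hφ h1 C hC hO).2
  rig := fun z _ O hO => Asm_rig D hX hs hR hφ h1 z O hO

end Pool.Agent.CIR
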