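import Pool.Agent.CIR.Defs

/-! Module Bas (difficulty 1): elementary consequences of `Sys`.  `φ` and `g` commute and are flows, `g n = id` for integers `n`. -/

set_option autoImplicit false

namespace Pool.Agent.CIR

open Set Filter
open scoped Topology

variable {M : Type} [MetricSpace M] [CompactSpace M] {φ ψ g : ℝ → M → M} {H : M → ℝ} {Cr : Set M}

theorem bas_gint (S : Sys φ ψ g H Cr) (n : ℤ) (x : M) : g n x = x := by
  have h1 : ∀ k : ℕ, g (k : ℝ) x = x := by
    intro k
    induction k with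
    | zero => rw [Nat.cast_zero, S.g0]
    | succ k ih => rw [Nat.cast_succ, S.ga, S.g1, ih]
  rcases n with k | k
  · have h2 := h1 k
    exact_mod_cast h2
  · have h2 := h1 (k + 1)
    have h3 : g (-((k : ℝ) + 1)) (g ((k : ℝ) + 1) x) = x := by
      rw [← S.ga, neg_add_cancel, S.g0]
    have h4 : g ((k : ℝ) + 1) x = x := by
      exact_mod_cast h2
    rw [h4] at h3
    rw [Int.cast_negSucc, Nat.cast_add, Nat.cast_one]
    exact h3

theorem bas_ginv (S : Sys φ ψ g H Cr) (b : ℝ) (x : M) : g (-b) (g b x) = x := by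
  rw [← S.ga, neg_add_cancel, S.g0]

theorem bas_pinv (S : Sys φ ψ g H Cr) (a : ℝ) (x : M) : φ (-a) (φ a x) = x := by
  rw [← S.pa, neg_add_cancel, S.p0]

/-- `φ_a g_b φ_a' g_b' = φ_(a+a') g_(b+b')` -/
theorem bas_mul (S : Sys φ ψ g H Cr) (a b a' b' : ℝ) (x : M) :
    φ a (g b (φ a' (g b' x))) = φ (a + a') (g (b + b') x) := by
  rw [← S.com a' b (g b' x), ← S.ga, ← S.pa]

/-- if two elements of `ℝ²` have the same value at `x` the difference fixes `x` -/
theorem bas_sub (S : Sys φ ψ g H Cr) {a b a' b' : ℝ} {x : M} (h : φ a (g b x) = φ a' (g b' x)) :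
    φ (a - a') (g (b - b') x) = x := by
  have h1 := bas_mul S (-a') (-b') a b x
  have h2 := bas_mul S (-a') (-b') a' b' x
  rw [h, h2, neg_add_cancel, neg_add_cancel, S.g0, S.p0] at h1
  rw [sub_eq_neg_add, sub_eq_neg_add]
  exact h1.symm

theorem bas_pow (S : Sys φ ψ g H Cr) {a b : ℝ} {x : M} (h : φ a (g b x) = x) (n : ℤ) :
    φ (n * a) (g (n * b) x) = x := by
  have h1 : ∀ k : ℕ, φ (k * a) (g (k * b) x) = x := by
    intro k
    induction k with
    | zero => rw [Nat.cast_zero, zero_mul, zero_mul, S.g0, S.p0]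
    | succ k ih =>
      have h2 := bas_mul S a b (k * a) (k * b) x
      rw [ih, h] at h2
      rw [Nat.cast_succ]
      have e1 : ((k : ℝ) + 1) * a = a + k * a := by ring
      have e2 : ((k : ℝ) + 1) * b = b + k * b := by ring
      rw [e1, e2]
      exact h2.symm
  rcases n with k | k
  · have h2 := h1 k
    exact_mod_cast h2
  · have h2 := h1 (k + 1)
    have h3 := bas_mul S (-(((k + 1 : ℕ) : ℝ) * a)) (-(((k + 1 : ℕ) : ℝ) * b)) (((k + 1 : ℕ) : ℝ) * a)
      (((k + 1 : ℕ) : ℝ) * b) x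
    rw [h2, neg_add_cancel, neg_add_cancel, S.g0, S.p0] at h3
    have e1 : ((Int.negSucc k : ℤ) : ℝ) * a = -(((k + 1 : ℕ) : ℝ) * a) := by
      rw [Int.cast_negSucc]
      ring
    have e2 : ((Int.negSucc k : ℤ) : ℝ) * b = -(((k + 1 : ℕ) : ℝ) * b) := by
      rw [Int.cast_negSucc]
      ring
    rw [e1, e2]
    exact h3

theorem bas_H (S : Sys φ ψ g H Cr) (a b : ℝ) (x : M) : H (φ a (g b x)) = H x := by
  rw [S.hp, S.hg]

theorem bas_cr (S : Sys φ ψ g H Cr) (a b : ℝ) (x : M) : φ a (g b x) ∈ Cr ↔ x ∈ Cr := by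
  constructor
  · intro h
    have h1 := S.cg (-b) _ (S.cp (-a) _ h)
    rw [bas_pinv S, bas_ginv S] at h1
    exact h1
  · intro h
    exact S.cp a _ (S.cg b _ h)

/-- `ψ` preserves the complement of `Cr` -/
theorem bas_psi (S : Sys φ ψ g H Cr) (t : ℝ) (x : M) : ψ t x ∈ Cr ↔ x ∈ Cr := by
  constructor
  · intro h
    have h1 := S.cs _ h (-t)
    rw [← S.sa, neg_add_cancel, S.s0] at h1
    rw [h1]
    exact h
  · intro h
    rw [S.cs x h t]
    exact h

theorem bas_mono (S : Sys φ ψ g H Cr) {x : M} (hx : x ∉ Cr) : StrictMono fun s => H (ψ s x) := by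
  intro s t hst
  have h1 : ψ s x ∉ Cr := fun h => hx ((bas_psi S s x).1 h)
  have h2 := S.inc _ h1 (t - s) (sub_pos.2 hst)
  rw [← S.sa, sub_add_cancel] at h2
  exact h2

/-- joint continuity of the action of `ℝ²` -/
theorem bas_cont (S : Sys φ ψ g H Cr) : Continuous fun p : ℝ × ℝ × M => φ p.1 (g p.2.1 p.2.2) := by
  have h1 : Continuous fun p : ℝ × ℝ × M => g p.2.1 p.2.2 :=
    S.gC.comp (Continuous.prodMk (continuous_fst.comp continuous_snd)
      (continuous_snd.comp continuous_snd))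
  exact S.pC.comp (Continuous.prodMk continuous_fst h1)

end Pool.Agent.CIR
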