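import Pool.Agent.CIR.Fld

/-! Module BoxA (difficulty 3): coordinates near a non-critical point `z`.

Let `U, V, χ, π` be a chart at `z`, `y₀ = π z`, `h = HH g lam ∘ χ`, `a₀ = fderiv π z (X z)`, `b₀ = fderiv π z (VV g z)` in
`ℝ³` (`X z` is the Reeb vector).  `a₀, b₀` are linearly independent: `fderiv χ y₀ a₀ = X z`, `fderiv χ y₀ b₀ = VV g z`
(`tan_eq`), and a relation `s • X z + t • VV g z = 0` gives (apply `lam z`) `s = - t HH z`, so
`t • (VV g z - HH z • X z) = 0`, `t = 0` as `z ∉ Crt`.  Choose a continuous linear `P : EE 3 → ℝ × ℝ` with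
`P a₀ = (1, 0)`, `P b₀ = (0, 1)` (extend a linear map from the span, e.g. `LinearIndependent.exists..`,
`Basis.constr` of an extended basis, or a linear left inverse of the injective `(s, t) ↦ s • a₀ + t • b₀`:
`LinearMap.exists_leftInverse_of_injective`), and `q x = P (π x)`.
Injectivity: `Θ y = (h y, P y)`, `EE 3 → ℝ × (ℝ × ℝ)`.  `fderiv Θ y₀` is injective: `fderiv h y₀ w = 0` and `P w = 0`;
`fderiv h y₀ ≠ 0` (`z ∉ Crt`, `crt_iff`, `tan_iff`), its kernel has dimension 2 and contains `a₀, b₀` (`inv_H`, Reeb), so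
`w = s a₀ + t b₀` and `P w = (s, t) = 0`.  So `fderiv Θ y₀` is a linear isomorphism (dimension 3) and `Θ` is injective
near `y₀` (`ContDiffAt.toOpenPartialHomeomorph` or `HasStrictFDerivAt.toOpenPartialHomeomorph`).  For `x, x' ∈ Y` near `z`:
`x = χ (π x)`, and `HH x = HH x'`, `q x = q x'` give `Θ (π x) = Θ (π x')`, so `π x = π x'`, `x = x'`. -/

set_option autoImplicit false

namespace Pool.Agent.CIR

open Set Filter
open scoped Topology ContDiff

variable {m : ℕ} {Y : Set (EE m)} {g : ℝ → EE m →ₗᵢ[ℝ] EE m} {lam : OneForm m} {X : EE m → EE m}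

theorem BoxA_lin (a b : EE 3) (hab : ∀ s t : ℝ, s • a + t • b = 0 → s = 0 ∧ t = 0) :
    ∃ P : EE 3 →L[ℝ] ℝ × ℝ, P a = (1, 0) ∧ P b = (0, 1) := by
  obtain ⟨L, hL⟩ : ∃ L : ℝ × ℝ →ₗ[ℝ] EE 3, ∀ p, L p = p.1 • a + p.2 • b :=
    ⟨{ toFun := fun p => p.1 • a + p.2 • b
       map_add' := fun p q => by
         simp only [Prod.fst_add, Prod.snd_add, add_smul]
         abel
       map_smul' := fun c p => by
         simp only [Prod.smul_fst, Prod.smul_snd, smul_add, smul_smul, smul_eq_mul,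
           RingHom.id_apply] }, fun p => rfl⟩
  have hker : LinearMap.ker L = ⊥ := by
    rw [LinearMap.ker_eq_bot']
    intro p hp
    rw [hL] at hp
    obtain ⟨h1, h2⟩ := hab _ _ hp
    exact Prod.ext h1 h2
  obtain ⟨P, hP⟩ := LinearMap.exists_leftInverse_of_injective L hker
  have hP' : ∀ p, P (L p) = p := fun p => by
    have := LinearMap.congr_fun hP p
    simpa using this
  refine ⟨LinearMap.toContinuousLinearMap P, ?_, ?_⟩
  · have h1 := hP' (1, 0)
    rw [hL] at h1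
    simpa using h1
  · have h1 := hP' (0, 1)
    rw [hL] at h1
    simpa using h1

theorem BoxA_equiv (l : EE 3 →L[ℝ] ℝ) (P : EE 3 →L[ℝ] ℝ × ℝ) {a b w : EE 3} (ha : P a = (1, 0))
    (hb : P b = (0, 1)) (la : l a = 0) (lb : l b = 0) (lw : l w ≠ 0) :
    ∃ e : EE 3 ≃L[ℝ] ℝ × (ℝ × ℝ), (e : EE 3 →L[ℝ] ℝ × (ℝ × ℝ)) = l.prod P := by
  have hsurj : Function.Surjective (l.prod P : EE 3 →ₗ[ℝ] ℝ × (ℝ × ℝ)) := by
    rintro ⟨c, s, t⟩
    refine ⟨(c / l w) • w + (s - c / l w * (P w).1) • a + (t - c / l w * (P w).2) • b, ?_⟩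
    have h1 : l ((c / l w) • w + (s - c / l w * (P w).1) • a + (t - c / l w * (P w).2) • b) = c := by
      rw [map_add, map_add, map_smul, map_smul, map_smul, la, lb]
      simp only [smul_eq_mul, mul_zero, add_zero]
      field_simp
    have h2 : P ((c / l w) • w + (s - c / l w * (P w).1) • a + (t - c / l w * (P w).2) • b) =
        (s, t) := by
      rw [map_add, map_add, map_smul, map_smul, map_smul, ha, hb]
      refine Prod.ext ?_ ?_
      · simp
      · simp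
    exact Prod.ext h1 h2
  have hfin : Module.finrank ℝ (EE 3) = Module.finrank ℝ (ℝ × (ℝ × ℝ)) := by
    simp
  have hinj : Function.Injective (l.prod P : EE 3 →ₗ[ℝ] ℝ × (ℝ × ℝ)) :=
    (LinearMap.injective_iff_surjective_of_finrank_eq_finrank hfin).2 hsurj
  refine ⟨(LinearEquiv.ofBijective (l.prod P : EE 3 →ₗ[ℝ] ℝ × (ℝ × ℝ))
    ⟨hinj, hsurj⟩).toContinuousLinearEquiv, ?_⟩
  ext v
  · rfl
  · rfl
  · rfl

theorem boxA (D : Dat Y g lam) (hR : ∀ x ∈ Y, IsReebVector Y lam x (X x)) {z : EE m} (hz : z ∈ Y)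
    (hc : z ∉ Crt Y g lam) :
    ∃ (q : EE m → ℝ × ℝ) (r : ℝ), 0 < r ∧ ContDiffOn ℝ ∞ q (Metric.ball z r) ∧
      fderiv ℝ q z (X z) = (1, 0) ∧ fderiv ℝ q z (VV g z) = (0, 1) ∧
      ∀ x ∈ Y, ∀ x' ∈ Y, dist x z < r → dist x' z < r → HH g lam x = HH g lam x' → q x = q x' → x = x' := by
  obtain ⟨U, V, χ, π, hzU, hC⟩ := D.mfd.chart z hz
  obtain ⟨hy0, hχ0⟩ := hC.right_inv z ⟨hz, hzU⟩
  have hXt := hR z hz
  have ta := tan_eq hC ⟨hz, hzU⟩ hXt.1
  have tb := tan_eq hC ⟨hz, hzU⟩ (tan_V D.act hz)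
  have hVn : V ∈ 𝓝 (π z) := hC.open_V.mem_nhds hy0
  have hUn : U ∈ 𝓝 z := hC.open_U.mem_nhds hzU
  have hχs : ContDiffAt ℝ ∞ χ (π z) := hC.smooth_χ.contDiffAt hVn
  have hπs : ContDiffAt ℝ ∞ π z := hC.smooth_π.contDiffAt hUn
  have hχd : DifferentiableAt ℝ χ (π z) := hχs.differentiableAt (by simp)
  have hπd : DifferentiableAt ℝ π z := hπs.differentiableAt (by simp)
  have hHs : ContDiff ℝ ∞ (HH g lam) := inv_smooth D.act D.con.1
  obtain ⟨P, hPa, hPb⟩ := BoxA_lin (fderiv ℝ π z (X z)) (fderiv ℝ π z (VV g z)) (by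
    intro s t hst
    have h1 := congrArg (fderiv ℝ χ (π z)) hst
    rw [map_add, map_smul, map_smul, ta, tb, map_zero] at h1
    have h2 := congrArg (lam z) h1
    rw [map_add, map_smul, map_smul, hXt.2.1, map_zero] at h2
    have h3 : s + t * HH g lam z = 0 := by
      have h4 : s • (1 : ℝ) + t • (lam z (VV g z)) = 0 := h2
      simpa [HH, smul_eq_mul] using h4
    have ht : t = 0 := by
      by_contra ht
      apply hc
      refine ⟨hz, X z, HH g lam z, hXt, ?_⟩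
      have h5 : s = -(t * HH g lam z) := by linarith
      rw [h5] at h1
      have h6 : t • VV g z = t • (HH g lam z • X z) := by
        rw [smul_smul]
        have h7 : t • VV g z = -(-(t * HH g lam z) • X z) := by
          rw [eq_neg_iff_add_eq_zero, add_comm]
          exact h1
        rw [h7, neg_smul, neg_neg]
      exact smul_right_injective _ ht h6
    refine ⟨?_, ht⟩
    rw [ht] at h3
    linarith)
  have hHd : HasFDerivAt (HH g lam) (fderiv ℝ (HH g lam) z) (χ (π z)) := by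
    rw [hχ0]
    exact ((hHs.differentiable (by simp)) z).hasFDerivAt
  have hhd : HasFDerivAt (fun y => HH g lam (χ y))
      ((fderiv ℝ (HH g lam) z).comp (fderiv ℝ χ (π z))) (π z) := hHd.comp (π z) hχd.hasFDerivAt
  have la : ((fderiv ℝ (HH g lam) z).comp (fderiv ℝ χ (π z))) (fderiv ℝ π z (X z)) = 0 := by
    rw [ContinuousLinearMap.comp_apply, ta, inv_H D.act D.con.1 D.inv]
    have h1 := hXt.2.2 _ (tan_V D.act hz)
    unfold dForm at h1 ⊢
    linarith
  have lb : ((fderiv ℝ (HH g lam) z).comp (fderiv ℝ χ (π z))) (fderiv ℝ π z (VV g z)) = 0 := by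
    rw [ContinuousLinearMap.comp_apply, tb, inv_H D.act D.con.1 D.inv]
    unfold dForm
    ring
  obtain ⟨w, lw⟩ : ∃ w, ((fderiv ℝ (HH g lam) z).comp (fderiv ℝ χ (π z))) w ≠ 0 := by
    by_contra hno
    push Not at hno
    apply hc
    rw [crt_iff D hz]
    intro v hv
    have h1 := tan_eq hC ⟨hz, hzU⟩ hv
    have h2 := hno (fderiv ℝ π z v)
    rw [ContinuousLinearMap.comp_apply, h1] at h2
    exact h2
  obtain ⟨e, he⟩ := BoxA_equiv _ P hPa hPb la lb lw
  have hΘs : ContDiffAt ℝ ∞ (fun y => (HH g lam (χ y), P y)) (π z) :=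
    ContDiffAt.prodMk (hHs.contDiffAt.comp (π z) hχs) P.contDiff.contDiffAt
  have hΘd : HasFDerivAt (fun y => (HH g lam (χ y), P y)) (e : EE 3 →L[ℝ] ℝ × (ℝ × ℝ)) (π z) := by
    rw [he]
    exact hhd.prodMk P.hasFDerivAt
  have hΘ : HasStrictFDerivAt (fun y => (HH g lam (χ y), P y)) (e : EE 3 →L[ℝ] ℝ × (ℝ × ℝ)) (π z) :=
    hΘs.hasStrictFDerivAt' hΘd (by simp)
  have hev := hΘ.eventually_left_inverse
  have hev' : ∀ᶠ x in 𝓝 z, x ∈ U ∧ hΘ.localInverse _ e (π z) (HH g lam (χ (π x)), P (π x)) = π x :=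
    (Filter.eventually_of_mem hUn fun x hx => hx).and (hπd.continuousAt.eventually hev)
  obtain ⟨r, hr, hball⟩ := Metric.eventually_nhds_iff_ball.1 hev'
  refine ⟨fun x => P (π x), r, hr, ?_, ?_, ?_, ?_⟩
  · exact P.contDiff.comp_contDiffOn (hC.smooth_π.mono fun x hx => (hball x hx).1)
  · have h1 : HasFDerivAt (fun x => P (π x)) (P.comp (fderiv ℝ π z)) z :=
      P.hasFDerivAt.comp z hπd.hasFDerivAt
    rw [h1.fderiv]
    exact hPa
  · have h1 : HasFDerivAt (fun x => P (π x)) (P.comp (fderiv ℝ π z)) z :=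
      P.hasFDerivAt.comp z hπd.hasFDerivAt
    rw [h1.fderiv]
    exact hPb
  · intro x hx x' hx' hd hd' hH hq
    obtain ⟨hU1, h1⟩ := hball x hd
    obtain ⟨hU2, h2⟩ := hball x' hd'
    have h3 := (hC.right_inv x ⟨hx, hU1⟩).2
    have h4 := (hC.right_inv x' ⟨hx', hU2⟩).2
    have hq' : P (π x) = P (π x') := hq
    have h5 : π x = π x' := by
      rw [← h1, ← h2, h3, h4, hH, hq']
    rw [← h3, ← h4, h5]

end Pool.Agent.CIR
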