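import Pool.Agent.CIR.Cmm

/-! Module BoxB (difficulty 3): the map `(a, b) ↦ q (φ a (g b x))` is close to a translation, uniformly in `x` near `z`.

Write `Φ a b x = φ a (g b x) = g b (φ a x)` for `x ∈ Y` (`cmm`).  By continuity of `(a, b, x) ↦ Φ a b x` (`hφ.cont`,
`act_cont`) at `(0, 0, z)` and of `w ↦ fderiv q w (X w)`, `w ↦ fderiv q w (VV g w)` at `z` (`q` is smooth on the ball,
`VV g` linear) there are `δ, r'` such that for `x ∈ Y`, `dist x z < r'`, `|a|, |b| ≤ δ` the point `w = Φ a b x` satisfies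
`dist w z < r` and `‖fderiv q w (X w) - (1, 0)‖ ≤ 1/4`, `‖fderiv q w (VV g w) - (0, 1)‖ ≤ 1/4`.
For fixed `b` the derivative of `a ↦ q (Φ a b x) - (a, 0)` is `fderiv q w (X w) - (1, 0)` (`hφ.der`), and for fixed `a` the
derivative of `b ↦ q (Φ a b x) - (0, b)` is `fderiv q w (VV g w) - (0, 1)` (write `Φ a b x = g b (φ a x)`, `act_der`), so
by the mean value inequality (`Convex.norm_image_sub_le_of_norm_hasDerivWithin_le` on `[-δ, δ]`)
`‖q (Φ a b x) - q (Φ a' b x) - (a - a', 0)‖ ≤ |a - a'| / 4` and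
`‖q (Φ a' b x) - q (Φ a' b' x) - (0, b - b')‖ ≤ |b - b'| / 4`; add (`‖(s, t)‖ = max |s| |t|`). -/

set_option autoImplicit false

namespace Pool.Agent.CIR

open Set Filter
open scoped Topology ContDiff

variable {m : ℕ} {Y : Set (EE m)} {g : ℝ → EE m →ₗᵢ[ℝ] EE m} {lam : OneForm m} {X : EE m → EE m}
  {φ : ℝ → EE m → EE m}

/-- mean value inequality in the two directions -/
theorem BoxB_mv {G : ℝ → ℝ × ℝ} {G' : ℝ → ℝ × ℝ} {e : ℝ × ℝ} {δ : ℝ}
    (hG : ∀ a, |a| ≤ δ → HasDerivAt G (G' a) a) (hb : ∀ a, |a| ≤ δ → ‖G' a - e‖ ≤ 1 / 4)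
    {a a' : ℝ} (ha : |a| ≤ δ) (ha' : |a'| ≤ δ) :
    ‖G a - G a' - (a - a') • e‖ ≤ 1 / 4 * |a - a'| := by
  have h1 : ∀ x ∈ Icc (-δ) δ, HasDerivWithinAt (fun a => G a - a • e) (G' x - e) (Icc (-δ) δ) x := by
    intro x hx
    have h2 := hG x (abs_le.2 hx)
    have h3 : HasDerivAt (fun a : ℝ => a • e) ((1 : ℝ) • e) x := (hasDerivAt_id x).smul_const e
    rw [one_smul] at h3
    exact (h2.sub h3).hasDerivWithinAt
  have h2 := Convex.norm_image_sub_le_of_norm_hasDerivWithin_le h1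
    (fun x hx => hb x (abs_le.2 hx)) (convex_Icc _ _) (abs_le.1 ha') (abs_le.1 ha)
  have h3 : G a - G a' - (a - a') • e = (G a - a • e) - (G a' - a' • e) := by
    rw [sub_smul]
    abel
  rw [h3]
  exact h2

theorem boxB (D : Dat Y g lam) (hX : ContDiff ℝ ∞ X) (hs : HasCompactSupport X)
    (hR : ∀ x ∈ Y, IsReebVector Y lam x (X x)) (hφ : IsFlow X φ) {z : EE m} (hz : z ∈ Y)
    {q : EE m → ℝ × ℝ} {r : ℝ} (hr : 0 < r) (hq : ContDiffOn ℝ ∞ q (Metric.ball z r))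
    (h1 : fderiv ℝ q z (X z) = (1, 0)) (h2 : fderiv ℝ q z (VV g z) = (0, 1)) :
    ∃ δ : ℝ, 0 < δ ∧ ∃ r' : ℝ, 0 < r' ∧ ∀ x ∈ Y, dist x z < r' → ∀ a b a' b' : ℝ, |a| ≤ δ → |b| ≤ δ → |a'| ≤ δ →
      |b'| ≤ δ → dist (φ a (g b x)) z < r ∧
        ‖q (φ a (g b x)) - q (φ a' (g b' x)) - (a - a', b - b')‖ ≤ 1 / 2 * ‖((a - a', b - b') : ℝ × ℝ)‖ := by
  obtain ⟨A, hA⟩ := act_lin D.act
  have hVV : Continuous (VV g) := by
    have : VV g = A := funext hA
    rw [this]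
    exact A.continuous
  have hqz : ContDiffAt ℝ ∞ q z := hq.contDiffAt (Metric.ball_mem_nhds z hr)
  have hfd : ContinuousAt (fderiv ℝ q) z := (hqz.fderiv_right (m := 0) (by simp)).continuousAt
  have hF1 : ContinuousAt (fun w => fderiv ℝ q w (X w)) z := hfd.clm_apply hX.continuous.continuousAt
  have hF2 : ContinuousAt (fun w => fderiv ℝ q w (VV g w)) z := hfd.clm_apply hVV.continuousAt
  have e1 : ∀ᶠ w in 𝓝 z, dist (fderiv ℝ q w (X w)) (1, 0) < 1 / 4 := by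
    have h3 := Metric.tendsto_nhds.1 hF1 (1 / 4) (by norm_num)
    beta_reduce at h3
    rw [h1] at h3
    exact h3
  have e2 : ∀ᶠ w in 𝓝 z, dist (fderiv ℝ q w (VV g w)) (0, 1) < 1 / 4 := by
    have h3 := Metric.tendsto_nhds.1 hF2 (1 / 4) (by norm_num)
    beta_reduce at h3
    rw [h2] at h3
    exact h3
  have e3 : ∀ᶠ w in 𝓝 z, dist w z < r := Metric.ball_mem_nhds z hr
  have hΦ : Continuous fun p : ℝ × ℝ × EE m => φ p.1 (g p.2.1 p.2.2) := by
    have h3 : Continuous fun p : ℝ × ℝ × EE m => (p.1, g p.2.1 p.2.2) :=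
      continuous_fst.prodMk ((act_cont D.act).comp continuous_snd)
    exact hφ.cont.comp h3
  have hΦ0 : φ 0 (g 0 z) = z := by rw [act_zero D.act, hφ.zero]
  have e4 : ∀ᶠ p : ℝ × ℝ × EE m in 𝓝 (0, 0, z),
      dist (φ p.1 (g p.2.1 p.2.2)) z < r ∧
      dist (fderiv ℝ q (φ p.1 (g p.2.1 p.2.2)) (X (φ p.1 (g p.2.1 p.2.2)))) (1, 0) < 1 / 4 ∧
      dist (fderiv ℝ q (φ p.1 (g p.2.1 p.2.2)) (VV g (φ p.1 (g p.2.1 p.2.2)))) (0, 1) < 1 / 4 := by
    have h3 : Tendsto (fun p : ℝ × ℝ × EE m => φ p.1 (g p.2.1 p.2.2)) (𝓝 (0, 0, z)) (𝓝 z) := by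
      have h4 := hΦ.tendsto ((0 : ℝ), (0 : ℝ), z)
      have h5 : φ ((0 : ℝ), (0 : ℝ), z).1 (g ((0 : ℝ), (0 : ℝ), z).2.1 ((0 : ℝ), (0 : ℝ), z).2.2) =
        z := hΦ0
      rw [h5] at h4
      exact h4
    exact h3.eventually (e3.and (e1.and e2))
  obtain ⟨ε, hε, hE⟩ := Metric.eventually_nhds_iff.1 e4
  refine ⟨ε / 2, by positivity, ε, hε, ?_⟩
  intro x hx hxz
  have key : ∀ a b : ℝ, |a| ≤ ε / 2 → |b| ≤ ε / 2 → dist (φ a (g b x)) z < r ∧
      dist (fderiv ℝ q (φ a (g b x)) (X (φ a (g b x)))) (1, 0) < 1 / 4 ∧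
      dist (fderiv ℝ q (φ a (g b x)) (VV g (φ a (g b x)))) (0, 1) < 1 / 4 := by
    intro a b ha hb
    refine hE (y := (a, b, x)) ?_
    rw [Prod.dist_eq, Prod.dist_eq]
    refine max_lt ?_ (max_lt ?_ hxz)
    · show dist a 0 < ε
      rw [Real.dist_eq, sub_zero]
      linarith
    · show dist b 0 < ε
      rw [Real.dist_eq, sub_zero]
      linarith
  have hdq : ∀ w, dist w z < r → HasFDerivAt q (fderiv ℝ q w) w := by
    intro w hw
    have h3 : ContDiffAt ℝ ∞ q w := hq.contDiffAt (Metric.isOpen_ball.mem_nhds hw)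
    exact (h3.differentiableAt (by simp)).hasFDerivAt
  intro a b a' b' ha hb ha' hb'
  refine ⟨(key a b ha hb).1, ?_⟩
  -- direction `a`
  have k1 : ‖q (φ a (g b x)) - q (φ a' (g b x)) - (a - a') • ((1, 0) : ℝ × ℝ)‖ ≤
      1 / 4 * |a - a'| := by
    refine BoxB_mv (G := fun a => q (φ a (g b x)))
      (G' := fun a => fderiv ℝ q (φ a (g b x)) (X (φ a (g b x)))) ?_ ?_ ha ha'
    · intro s hs'
      exact (hdq _ (key s b hs' hb).1).comp_hasDerivAt s (hφ.der (g b x) s)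
    · intro s hs'
      have h3 := (key s b hs' hb).2.1
      rw [dist_eq_norm] at h3
      exact h3.le
  -- direction `b`
  have hcm : ∀ s, φ a' (g s x) = g s (φ a' x) := fun s => cmm D hX hs hR hφ hx a' s
  have k2 : ‖q (φ a' (g b x)) - q (φ a' (g b' x)) - (b - b') • ((0, 1) : ℝ × ℝ)‖ ≤
      1 / 4 * |b - b'| := by
    refine BoxB_mv (G := fun s => q (φ a' (g s x)))
      (G' := fun s => fderiv ℝ q (φ a' (g s x)) (VV g (φ a' (g s x)))) ?_ ?_ hb hb'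
    · intro s hs'
      have h4 := (hdq _ (key a' s ha' hs').1)
      have h5 : HasDerivAt (fun s => φ a' (g s x)) (VV g (φ a' (g s x))) s := by
        have h6 : (fun s => φ a' (g s x)) = fun s => g s (φ a' x) := funext hcm
        rw [h6, hcm]
        exact act_der D.act s (φ a' x)
      exact h4.comp_hasDerivAt s h5
    · intro s hs'
      have h3 := (key a' s ha' hs').2.2
      rw [dist_eq_norm] at h3
      exact h3.le
  have k3 : q (φ a (g b x)) - q (φ a' (g b' x)) - (a - a', b - b') =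
      (q (φ a (g b x)) - q (φ a' (g b x)) - (a - a') • ((1, 0) : ℝ × ℝ)) +
      (q (φ a' (g b x)) - q (φ a' (g b' x)) - (b - b') • ((0, 1) : ℝ × ℝ)) := by
    have h3 : ((a - a', b - b') : ℝ × ℝ) = (a - a') • ((1, 0) : ℝ × ℝ) +
        (b - b') • ((0, 1) : ℝ × ℝ) := by
      ext <;> simp
    rw [h3]
    abel
  rw [k3]
  refine (norm_add_le _ _).trans ?_
  have k4 : ‖((a - a', b - b') : ℝ × ℝ)‖ = max |a - a'| |b - b'| := by
    rw [Prod.norm_def, Real.norm_eq_abs, Real.norm_eq_abs]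
  rw [k4]
  have k5 := le_max_left |a - a'| |b - b'|
  have k6 := le_max_right |a - a'| |b - b'|
  linarith

end Pool.Agent.CIR
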