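import Pool.Agent.CIR.BoxA
import Pool.Agent.CIR.BoxB
import Pool.Agent.CIR.Prs

/-! Module BoxC (difficulty 3): local box property and local injectivity.

Let `q, r` be given by `boxA` and `δ, r'` by `boxB`.
`box_inj`: `ε = δ`, radius `r'`: if `φ a (g b x) = x` then (with `a' = b' = 0`, `hφ.zero`, `act_zero`)
`‖(a, b)‖ ≤ 1/2 ‖(a, b)‖`, so `(a, b) = 0`.
`box_sur`: let `ε > 0`, `δ' = min δ (ε / 2)`.  For `x ∈ Y`, `dist x z < r'`, the map `F p = q (φ p.1 (g p.2 x))` on the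
closed ball `B` of radius `δ'` of `ℝ × ℝ` satisfies `‖F p - F p' - (p - p')‖ ≤ 1/2 ‖p - p'‖`, so for every `c` with
`‖c - F 0‖ ≤ δ' / 2` the map `p ↦ p - F p + c` is a contraction of `B` into itself
(`‖p - F p + c‖ ≤ ‖p - (F p - F 0)‖ + ‖c - F 0‖ ≤ δ'/2 + δ'/2`), and its fixed point satisfies `F p = c`
(`ContractingWith` on the complete set `B`, or `ApproximatesLinearOn.surjOn_closedBall_of_nonlinearRightInverse`).
Choose the radius `r'' ≤ min r r'` with `‖q x - q z‖ < δ' / 4` for `dist x z < r''`.  For `x, y` in this ball with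
`HH x = HH y`: `F 0 = q x`, `c = q y`, so there is `p` with `F p = q y`; the points `φ p.1 (g p.2 x)` and `y` are both in
`Y` (`prs`) and in `ball z r`, have the same `HH` (`cmm_H`, `inv_Hg`) and the same `q`, so they are equal (`boxA`). -/

set_option autoImplicit false

namespace Pool.Agent.CIR

open Set Filter
open scoped Topology ContDiff

variable {m : ℕ} {Y : Set (EE m)} {g : ℝ → EE m →ₗᵢ[ℝ] EE m} {lam : OneForm m} {X : EE m → EE m}
  {φ : ℝ → EE m → EE m}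

theorem box_inj (D : Dat Y g lam) (hX : ContDiff ℝ ∞ X) (hs : HasCompactSupport X)
    (hR : ∀ x ∈ Y, IsReebVector Y lam x (X x)) (hφ : IsFlow X φ) {z : EE m} (hz : z ∈ Y)
    (hc : z ∉ Crt Y g lam) : ∃ ε : ℝ, 0 < ε ∧ ∃ r : ℝ, 0 < r ∧ ∀ x ∈ Y, dist x z < r →
      ∀ a b : ℝ, |a| < ε → |b| < ε → φ a (g b x) = x → a = 0 ∧ b = 0 := by
  obtain ⟨q, r, hr, hq, h1, h2, -⟩ := boxA D hR hz hc
  obtain ⟨δ, hδ, r', hr', hB⟩ := boxB D hX hs hR hφ hz hr hq h1 h2
  refine ⟨δ, hδ, r', hr', fun x hx hd a b ha hb he => ?_⟩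
  have h := (hB x hx hd a b 0 0 ha.le hb.le (by simpa using hδ.le) (by simpa using hδ.le)).2
  rw [act_zero D.act, hφ.zero, he, sub_self, zero_sub, norm_neg, sub_zero, sub_zero] at h
  have h0 : ‖((a, b) : ℝ × ℝ)‖ = 0 := le_antisymm (by linarith) (norm_nonneg _)
  have h3 : ((a, b) : ℝ × ℝ) = 0 := norm_eq_zero.1 h0
  exact ⟨congrArg Prod.fst h3, congrArg Prod.snd h3⟩

theorem box_sur (D : Dat Y g lam) (hX : ContDiff ℝ ∞ X) (hs : HasCompactSupport X)
    (hR : ∀ x ∈ Y, IsReebVector Y lam x (X x)) (hφ : IsFlow X φ) {z : EE m} (hz : z ∈ Y)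
    (hc : z ∉ Crt Y g lam) {ε : ℝ} (hε : 0 < ε) : ∃ r : ℝ, 0 < r ∧ ∀ x ∈ Y, ∀ y ∈ Y, dist x z < r →
      dist y z < r → HH g lam x = HH g lam y → ∃ a b : ℝ, |a| < ε ∧ |b| < ε ∧ φ a (g b x) = y := by
  obtain ⟨q, r, hr, hq, h1, h2, hA⟩ := boxA D hR hz hc
  obtain ⟨δ, hδ, r', hr', hB⟩ := boxB D hX hs hR hφ hz hr hq h1 h2
  set δ' := min δ (ε / 2) with hδ'
  have hδ'0 : 0 < δ' := lt_min hδ (by linarith)
  have hqc : ContinuousAt q z :=
    (hq.contDiffAt (Metric.ball_mem_nhds z hr)).continuousAt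
  obtain ⟨r₀, hr₀, hq₀⟩ := Metric.continuousAt_iff.1 hqc (δ' / 4) (by linarith)
  refine ⟨min (min r r') r₀, lt_min (lt_min hr hr') hr₀, fun x hx y hy hxd hyd hH => ?_⟩
  have hx1 : dist x z < r' := lt_of_lt_of_le hxd ((min_le_left _ _).trans (min_le_right _ _))
  have hx2 : dist x z < r₀ := lt_of_lt_of_le hxd (min_le_right _ _)
  have hy1 : dist y z < r := lt_of_lt_of_le hyd ((min_le_left _ _).trans (min_le_left _ _))
  have hy2 : dist y z < r₀ := lt_of_lt_of_le hyd (min_le_right _ _)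
  set F : ℝ × ℝ → ℝ × ℝ := fun p => q (φ p.1 (g p.2 x)) with hF
  have hbd : ∀ p ∈ Metric.closedBall (0 : ℝ × ℝ) δ', |p.1| ≤ δ' ∧ |p.2| ≤ δ' := by
    intro p hp
    rw [mem_closedBall_zero_iff, Prod.norm_def] at hp
    exact ⟨(le_max_left _ _).trans hp, (le_max_right _ _).trans hp⟩
  have hFlip : ∀ p ∈ Metric.closedBall (0 : ℝ × ℝ) δ', ∀ p' ∈ Metric.closedBall (0 : ℝ × ℝ) δ',
      ‖F p - F p' - (p - p')‖ ≤ 1 / 2 * ‖p - p'‖ := by
    intro p hp p' hp'
    obtain ⟨b1, b2⟩ := hbd p hp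
    obtain ⟨b3, b4⟩ := hbd p' hp'
    have hle : δ' ≤ δ := min_le_left _ _
    exact (hB x hx hx1 p.1 p.2 p'.1 p'.2 (b1.trans hle) (b2.trans hle) (b3.trans hle)
      (b4.trans hle)).2
  have h0mem : (0 : ℝ × ℝ) ∈ Metric.closedBall (0 : ℝ × ℝ) δ' :=
    Metric.mem_closedBall_self hδ'0.le
  have hF0 : F 0 = q x := by
    simp only [hF, Prod.fst_zero, Prod.snd_zero]
    rw [act_zero D.act, hφ.zero]
  have hc0 : ‖q y - F 0‖ ≤ δ' / 2 := by
    rw [hF0]
    have e1 := hq₀ hx2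
    have e2 := hq₀ hy2
    rw [← dist_eq_norm]
    have := dist_triangle_right (q y) (q x) (q z)
    linarith
  set T : ℝ × ℝ → ℝ × ℝ := fun p => p - F p + q y with hT
  have hmaps : MapsTo T (Metric.closedBall (0 : ℝ × ℝ) δ') (Metric.closedBall (0 : ℝ × ℝ) δ') := by
    intro p hp
    rw [mem_closedBall_zero_iff]
    have e1 : T p = -(F p - F 0 - (p - 0)) + (q y - F 0) := by
      simp only [hT]
      abel
    rw [e1]
    refine (norm_add_le _ _).trans ?_
    rw [norm_neg]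
    have e2 := hFlip p hp 0 h0mem
    have e3 : ‖p - 0‖ ≤ δ' := by
      rw [sub_zero]
      exact mem_closedBall_zero_iff.1 hp
    linarith
  have hcontr : ContractingWith (1 / 2) (hmaps.restrict T _ _) := by
    refine ⟨by
      rw [← NNReal.coe_lt_coe]
      norm_num, LipschitzWith.of_dist_le_mul fun p p' => ?_⟩
    rw [Subtype.dist_eq, Subtype.dist_eq, dist_eq_norm, dist_eq_norm]
    have e1 : (hmaps.restrict T _ _ p : ℝ × ℝ) - (hmaps.restrict T _ _ p' : ℝ × ℝ) =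
        -(F p - F p' - ((p : ℝ × ℝ) - p')) := by
      simp only [MapsTo.val_restrict_apply, hT]
      abel
    rw [e1, norm_neg]
    have := hFlip p p.2 p' p'.2
    push_cast
    exact this
  obtain ⟨p, hp, hfix, -⟩ := hcontr.exists_fixedPoint' (Metric.isClosed_closedBall.isComplete)
    hmaps h0mem (edist_ne_top _ _)
  have hFp : F p = q y := by
    have h := hfix
    unfold Function.IsFixedPt at h
    simp only [hT] at h
    have h' : p - F p + q y - p = 0 := sub_eq_zero.2 h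
    have h'' : q y - F p = 0 := by
      rw [← h']
      abel
    exact (sub_eq_zero.1 h'').symm
  obtain ⟨b1, b2⟩ := hbd p hp
  have hle : δ' ≤ δ := min_le_left _ _
  have hle2 : δ' ≤ ε / 2 := min_le_right _ _
  refine ⟨p.1, p.2, by linarith, by linarith, ?_⟩
  have hgY : g p.2 x ∈ Y := D.act.maps p.2 x hx
  have hwY : φ p.1 (g p.2 x) ∈ Y :=
    prs D.mfd.compact hX hs (fun x hx => (hR x hx).1) hφ hgY p.1
  have hwd : dist (φ p.1 (g p.2 x)) z < r :=
    (hB x hx hx1 p.1 p.2 0 0 (b1.trans hle) (b2.trans hle) (by simpa using hδ.le)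
      (by simpa using hδ.le)).1
  refine hA _ hwY y hy hwd hy1 ?_ hFp
  rw [cmm_H D hX hs hR hφ hgY p.1, inv_Hg D.act D.inv, hH]

end Pool.Agent.CIR
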