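import Mathlib

/-!
# CIR/Defs: circle-invariant contact forms on closed 3-manifolds

`Y` is a closed connected 3-manifold embedded in `ℝ^m` (Whitney), with a circle action which is the restriction of a
linear isometric action of `ℝ/ℤ` on `ℝ^m` (Mostow-Palais), and `lam` is an invariant 1-form whose restriction to `Y`
is a contact form.
-/

open Set Filter
open scoped Topology ContDiff

namespace Pool.Agent.CIR

/-- ambient space -/
abbrev EE (m : ℕ) : Type := EuclideanSpace ℝ (Fin m)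

/-- `χ : V → Y ∩ U` is a smooth parametrisation, with the smooth left inverse `π`; `U` is an open subset of `ℝ^m`
and `V` an open subset of `ℝ³`. -/
structure IsChart {m : ℕ} (Y U : Set (EE m)) (V : Set (EE 3)) (χ : EE 3 → EE m) (π : EE m → EE 3) : Prop where
  open_U : IsOpen U
  open_V : IsOpen V
  smooth_χ : ContDiffOn ℝ ∞ χ V
  smooth_π : ContDiffOn ℝ ∞ π U
  left_inv : ∀ y ∈ V, χ y ∈ Y ∩ U ∧ π (χ y) = y
  right_inv : ∀ x ∈ Y ∩ U, π x ∈ V ∧ χ (π x) = x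

/-- `Y` is a closed (compact, without boundary) connected smooth 3-dimensional submanifold of `ℝ^m`. -/
structure IsClosedThreeManifold {m : ℕ} (Y : Set (EE m)) : Prop where
  compact : IsCompact Y
  connected : IsConnected Y
  chart : ∀ p ∈ Y, ∃ (U : Set (EE m)) (V : Set (EE 3)) (χ : EE 3 → EE m) (π : EE m → EE 3),
    p ∈ U ∧ IsChart Y U V χ π

/-- tangent vectors of `Y` at `p`: the velocities of curves in `Y` -/
def IsTangent {m : ℕ} (Y : Set (EE m)) (p v : EE m) : Prop :=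
  ∃ γ : ℝ → EE m, (∀ᶠ t in 𝓝 0, γ t ∈ Y) ∧ γ 0 = p ∧ HasDerivAt γ v 0

/-- 1-forms on `ℝ^m` -/
abbrev OneForm (m : ℕ) : Type := EE m → EE m →L[ℝ] ℝ

/-- the exterior derivative of `lam` -/
noncomputable def dForm {m : ℕ} (lam : OneForm m) (p u v : EE m) : ℝ :=
  fderiv ℝ lam p u v - fderiv ℝ lam p v u

/-- `lam ∧ d lam` -/
noncomputable def wedge {m : ℕ} (lam : OneForm m) (p u v w : EE m) : ℝ :=
  lam p u * dForm lam p v w + lam p v * dForm lam p w u + lam p w * dForm lam p u v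

/-- the restriction of `lam` to `Y` is a contact form -/
def IsContactForm {m : ℕ} (Y : Set (EE m)) (lam : OneForm m) : Prop :=
  ContDiff ℝ ∞ lam ∧ ∀ p ∈ Y, ∀ u v w : EE m, IsTangent Y p u → IsTangent Y p v → IsTangent Y p w →
    LinearIndependent ℝ ![u, v, w] → wedge lam p u v w ≠ 0

/-- `v` is the Reeb vector at `p` -/
def IsReebVector {m : ℕ} (Y : Set (EE m)) (lam : OneForm m) (p v : EE m) : Prop :=
  IsTangent Y p v ∧ lam p v = 1 ∧ ∀ w, IsTangent Y p w → dForm lam p v w = 0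

/-- `γ` is a trajectory of the Reeb flow of `lam` on `Y` -/
def IsReebTrajectory {m : ℕ} (Y : Set (EE m)) (lam : OneForm m) (γ : ℝ → EE m) : Prop :=
  ∀ t, γ t ∈ Y ∧ ∃ v, HasDerivAt γ v t ∧ IsReebVector Y lam (γ t) v

/-- `O` is (the image of) a closed Reeb orbit: a simple Reeb orbit, not parametrised -/
def IsClosedOrbit {m : ℕ} (Y : Set (EE m)) (lam : OneForm m) (O : Set (EE m)) : Prop :=
  ∃ γ : ℝ → EE m, IsReebTrajectory Y lam γ ∧ (∃ T : ℝ, 0 < T ∧ ∀ t, γ (t + T) = γ t) ∧ O = range γ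

/-- A linear isometric action `g` of `ℝ/ℤ` on `ℝ^m` which preserves `Y` and is not trivial on `Y`. -/
structure IsCircleAction {m : ℕ} (Y : Set (EE m)) (g : ℝ → EE m →ₗᵢ[ℝ] EE m) : Prop where
  add : ∀ s t x, g (s + t) x = g s (g t x)
  period : ∀ x, g 1 x = x
  smooth : ∀ x, Differentiable ℝ fun t => g t x
  maps : ∀ t, ∀ x ∈ Y, g t x ∈ Y
  nontrivial : ∃ x ∈ Y, ∃ t, g t x ≠ x

/-- `lam` is invariant under `g` -/
def IsInvariantForm {m : ℕ} (g : ℝ → EE m →ₗᵢ[ℝ] EE m) (lam : OneForm m) : Prop :=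
  ∀ t x v, lam (g t x) (g t v) = lam x v

/-! ## Internal definitions -/

/-- the standing assumptions -/
structure Dat {m : ℕ} (Y : Set (EE m)) (g : ℝ → EE m →ₗᵢ[ℝ] EE m) (lam : OneForm m) : Prop where
  mfd : IsClosedThreeManifold Y
  act : IsCircleAction Y g
  con : IsContactForm Y lam
  inv : IsInvariantForm g lam

/-- generator of the action -/
noncomputable def VV {m : ℕ} (g : ℝ → EE m →ₗᵢ[ℝ] EE m) (x : EE m) : EE m := deriv (fun t => g t x) 0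

/-- the first integral `lam (V)` -/
noncomputable def HH {m : ℕ} (g : ℝ → EE m →ₗᵢ[ℝ] EE m) (lam : OneForm m) (x : EE m) : ℝ := lam x (VV g x)

/-- critical points of `HH` on `Y` : `V` is a multiple of the Reeb vector (in particular where `V = 0`) -/
def Crt {m : ℕ} (Y : Set (EE m)) (g : ℝ → EE m →ₗᵢ[ℝ] EE m) (lam : OneForm m) : Set (EE m) :=
  {x | x ∈ Y ∧ ∃ (v : EE m) (c : ℝ), IsReebVector Y lam x v ∧ VV g x = c • v}

/-- the flow `φ` of the vector field `X` -/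
structure IsFlow {E : Type} [NormedAddCommGroup E] [NormedSpace ℝ E] (X : E → E)
    (φ : ℝ → E → E) : Prop where
  cont : Continuous (fun p : ℝ × E => φ p.1 p.2)
  zero : ∀ x, φ 0 x = x
  add : ∀ s t x, φ (s + t) x = φ s (φ t x)
  der : ∀ x t, HasDerivAt (fun u => φ u x) (X (φ t x)) t
  uniq : ∀ γ : ℝ → E, (∀ t, HasDerivAt γ (X (γ t)) t) → ∀ t, γ t = φ t (γ 0)

/-! ## Abstract dynamics on a compact space -/

/-- closed orbits of the flow `φ` -/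
def IsPO {M : Type} (φ : ℝ → M → M) (O : Set M) : Prop :=
  ∃ (x : M) (T : ℝ), 0 < T ∧ φ T x = x ∧ O = range fun t => φ t x

/-- `φ`: Reeb flow, `g`: circle action, `ψ`: gradient-like flow of `H`, `Cr`: critical points of `H`. -/
structure Sys {M : Type} [MetricSpace M] [CompactSpace M] (φ ψ g : ℝ → M → M) (H : M → ℝ) (Cr : Set M) :
    Prop where
  ne : Nonempty M
  pC : Continuous (fun p : ℝ × M => φ p.1 p.2)
  p0 : ∀ x, φ 0 x = x
  pa : ∀ s t x, φ (s + t) x = φ s (φ t x)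
  sC : Continuous (fun p : ℝ × M => ψ p.1 p.2)
  s0 : ∀ x, ψ 0 x = x
  sa : ∀ s t x, ψ (s + t) x = ψ s (ψ t x)
  gC : Continuous (fun p : ℝ × M => g p.1 p.2)
  g0 : ∀ x, g 0 x = x
  ga : ∀ s t x, g (s + t) x = g s (g t x)
  g1 : ∀ x, g 1 x = x
  com : ∀ s t x, φ s (g t x) = g t (φ s x)
  hC : Continuous H
  hp : ∀ t x, H (φ t x) = H x
  hg : ∀ t x, H (g t x) = H x
  cl : IsClosed Cr
  cp : ∀ t x, x ∈ Cr → φ t x ∈ Cr
  cg : ∀ t x, x ∈ Cr → g t x ∈ Cr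
  cs : ∀ x ∈ Cr, ∀ t, ψ t x = x
  inc : ∀ x, x ∉ Cr → ∀ t : ℝ, 0 < t → H x < H (ψ t x)
  box : ∀ z, z ∉ Cr → ∀ ε : ℝ, 0 < ε → ∃ r : ℝ, 0 < r ∧ ∀ x y, dist x z < r → dist y z < r → H x = H y →
    ∃ a b : ℝ, |a| < ε ∧ |b| < ε ∧ φ a (g b x) = y
  inj : ∀ z, z ∉ Cr → ∃ ε : ℝ, 0 < ε ∧ ∃ r : ℝ, 0 < r ∧ ∀ x, dist x z < r → ∀ a b : ℝ, |a| < ε → |b| < ε →
    φ a (g b x) = x → a = 0 ∧ b = 0
  per : ∀ x ∈ Cr, ∃ T : ℝ, 0 < T ∧ φ T x = x
  par : ∀ x ∈ Cr, ∀ b, ∃ t, g b x = φ t x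
  pre : ∀ C : Set (Set M), C.Finite → (∀ O ∈ C, IsPO φ O) → IsPreconnected ((⋃₀ C)ᶜ)
  den : ∀ C : Set (Set M), C.Finite → (∀ O ∈ C, IsPO φ O) → Dense ((⋃₀ C)ᶜ)
  rig : ∀ z, z ∉ Cr → ∀ O ∈ 𝓝 z, ∃ N ⊆ O, N ∈ 𝓝 z ∧ IsPreconnected N ∧ ∀ (b : ℝ) (τ : M → ℝ),
    ContinuousOn τ N → (∀ x ∈ N, φ (τ x) (g b x) = x) → ∀ x ∈ N, τ x = τ z

end Pool.Agent.CIR
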