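import Pool.Agent.CIR.Pof

/-! Module End (difficulty 3): the ends of a `ψ`-trajectory.

`cls_cr`: the cluster points of `ψ s x` as `s → ∞` are critical: `H (ψ s x)` is monotone and bounded, so it converges to
some `h`; if `w` is a cluster point then `H w = h` and `H (ψ 1 w) = h` (`ψ (s + 1) x = ψ 1 (ψ s x)`), so `w ∈ Cr` (`S.inc`).
The same for `s → -∞` (with `ψ (-1) w`: if `w ∉ Cr` then `ψ (-1) w ∉ Cr` and `H (ψ (-1) w) < H w`).

`ends_top`: all cluster points of `ψ s x` as `s → ∞` lie in one closed orbit `O`.  Proof: `Cr = ⋃₀ C`, `C` the finite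
set of closed orbits (`po_cr`), pairwise disjoint compact sets (two orbits which meet are equal).  Choose `δ > 0` such that
the open `δ`-neighbourhoods (`Metric.thickening`) of the orbits are pairwise disjoint (finitely many disjoint compact
sets).  There is `s₀` such that for `s ≥ s₀` the point `ψ s x` lies in the union of these neighbourhoods (otherwise there
is a cluster point outside, by compactness, contradiction to `cls_cr`).  The image of `[s₀, ∞)` is preconnected, so it
lies in the neighbourhood of one `O`, and all cluster points lie in the closure of this neighbourhood and in `Cr`, hence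
in `O` (shrink `δ`: closed `δ`-neighbourhoods disjoint).  `H` is increasing along the trajectory so `H w > H x` on `O`.
Alternatively (maybe simpler): the set of cluster points is `⋂_n closure (ψ '' [n, ∞))`, a decreasing intersection of
compact preconnected sets, hence preconnected (`IsPreconnected.iInter_of_directed..`/ `IsCompact`), and it is contained
in a finite disjoint union of closed sets. -/

set_option autoImplicit false

namespace Pool.Agent.CIR

open Set Filter
open scoped Topology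

variable {M : Type} [MetricSpace M] [CompactSpace M] {φ ψ g : ℝ → M → M} {H : M → ℝ} {Cr : Set M}

/-- time reversal -/
theorem End_rev (S : Sys φ ψ g H Cr) : Sys φ (fun t => ψ (-t)) g (fun x => - H x) Cr where
  ne := S.ne
  pC := S.pC
  p0 := S.p0
  pa := S.pa
  sC := S.sC.comp ((continuous_fst.neg).prodMk continuous_snd)
  s0 x := by rw [neg_zero, S.s0]
  sa s t x := by rw [neg_add, S.sa]
  gC := S.gC
  g0 := S.g0
  ga := S.ga
  g1 := S.g1
  com := S.com
  hC := S.hC.neg
  hp t x := by rw [S.hp]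
  hg t x := by rw [S.hg]
  cl := S.cl
  cp := S.cp
  cg := S.cg
  cs x hx t := S.cs x hx (-t)
  inc := by
    intro x hx t ht
    have h1 : ψ (-t) x ∉ Cr := fun h => hx ((bas_psi S (-t) x).1 h)
    have h2 := S.inc _ h1 t ht
    rw [← S.sa, add_neg_cancel, S.s0] at h2
    exact neg_lt_neg h2
  box := by
    intro z hz ε hε
    obtain ⟨r, hr, h⟩ := S.box z hz ε hε
    exact ⟨r, hr, fun x y hx hy hH => h x y hx hy (neg_injective hH)⟩
  inj := S.inj
  per := S.per
  par := S.par
  pre := S.pre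
  den := S.den
  rig := S.rig

theorem End_tend (S : Sys φ ψ g H Cr) {x : M} (hx : x ∉ Cr) :
    ∃ h : ℝ, Tendsto (fun s => H (ψ s x)) atTop (𝓝 h) ∧ H x < h := by
  have hb : BddAbove (range fun s => H (ψ s x)) := by
    obtain ⟨B, hB⟩ := (isCompact_range S.hC).bddAbove
    refine ⟨B, ?_⟩
    rintro _ ⟨s, rfl⟩
    exact hB ⟨ψ s x, rfl⟩
  have hm := bas_mono S hx
  refine ⟨_, tendsto_atTop_ciSup hm.monotone hb, ?_⟩
  have h1 : H (ψ 0 x) < H (ψ 1 x) := hm zero_lt_one
  rw [S.s0] at h1
  exact lt_of_lt_of_le h1 (le_ciSup hb 1)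

theorem End_clus {u : ℝ → ℝ} {h c : ℝ} (hu : Tendsto u atTop (𝓝 h)) (hc : MapClusterPt c atTop u) :
    c = h := by
  have h1 : ClusterPt c (𝓝 h) := ClusterPt.mono hc hu
  exact eq_of_nhds_neBot h1

theorem cls_top (S : Sys φ ψ g H Cr) {x : M} (hx : x ∉ Cr) {w : M}
    (hw : MapClusterPt w atTop fun s => ψ s x) : w ∈ Cr ∧ H x < H w := by
  obtain ⟨h, hh, hlt⟩ := End_tend S hx
  have h1 : H w = h := by
    apply End_clus hh
    exact hw.continuousAt_comp S.hC.continuousAt
  refine ⟨?_, by rw [h1]; exact hlt⟩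
  by_contra hwc
  have h2 : H (ψ 1 w) = h := by
    have hc : ContinuousAt (fun y => H (ψ 1 y)) w :=
      (S.hC.comp (S.sC.comp (continuous_const.prodMk continuous_id))).continuousAt
    have h3 := hw.continuousAt_comp hc
    have h4 : ((fun y => H (ψ 1 y)) ∘ fun s => ψ s x) = fun s => H (ψ (1 + s) x) := by
      funext s
      simp only [Function.comp_apply]
      rw [S.sa]
    rw [h4] at h3
    apply End_clus _ h3
    exact hh.comp (tendsto_atTop_add_const_left atTop 1 tendsto_id)
  have h5 := S.inc w hwc 1 one_pos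
  rw [h1, h2] at h5
  exact lt_irrefl _ h5

theorem End_neg {w x : M} (hw : MapClusterPt w atBot fun s => ψ s x) :
    MapClusterPt w atTop fun s => ψ (-s) x := by
  have h1 : map (fun s => ψ s x) atBot = map (fun s => ψ (-s) x) (atTop : Filter ℝ) := by
    have h2 : (fun s => ψ (-s) x) = (fun s => ψ s x) ∘ Neg.neg := rfl
    rw [h2, ← map_map, map_neg_atTop]
  unfold MapClusterPt at hw ⊢
  rwa [h1] at hw

theorem cls_bot (S : Sys φ ψ g H Cr) {x : M} (hx : x ∉ Cr) {w : M}
    (hw : MapClusterPt w atBot fun s => ψ s x) : w ∈ Cr ∧ H w < H x := by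
  have h := cls_top (End_rev S) hx (End_neg hw)
  exact ⟨h.1, neg_lt_neg_iff.1 h.2⟩

theorem End_conn {u : ℝ → M} (hu : Continuous u) {A B : Set M} (hA : IsClosed A) (hB : IsClosed B)
    (hAB : Disjoint A B) (h : ∀ w, MapClusterPt w atTop u → w ∈ A ∪ B) {w0 : M}
    (hw0 : MapClusterPt w0 atTop u) (h0 : w0 ∈ A) {w : M} (hw : MapClusterPt w atTop u) :
    w ∈ A := by
  rcases h w hw with h1 | h1
  · exact h1
  exfalso
  obtain ⟨U, V, hU, hV, hAU, hBV, hUV⟩ := normal_separation hA hB hAB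
  have h2 : ∀ᶠ s in atTop, u s ∈ U ∪ V := by
    by_contra hn
    rw [not_eventually] at hn
    obtain ⟨y, hy, hy'⟩ := (hU.union hV).isClosed_compl.isCompact.exists_mapClusterPt_of_frequently hn
    rcases h y hy' with h3 | h3
    · exact hy (Or.inl (hAU h3))
    · exact hy (Or.inr (hBV h3))
  obtain ⟨s0, hs0⟩ := eventually_atTop.1 h2
  have hp : IsPreconnected (u '' Ici s0) := isPreconnected_Ici.image _ hu.continuousOn
  have hsub : u '' Ici s0 ⊆ U ∪ V := by
    rintro _ ⟨s, hs, rfl⟩
    exact hs0 s hs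
  have e1 : ∃ s ∈ Ici s0, u s ∈ U := by
    have h3 := (hw0.frequently (hU.mem_nhds (hAU h0))).and_eventually (eventually_ge_atTop s0)
    obtain ⟨s, hs, hs'⟩ := h3.exists
    exact ⟨s, hs', hs⟩
  have e2 : ∃ s ∈ Ici s0, u s ∈ V := by
    have h3 := (hw.frequently (hV.mem_nhds (hBV h1))).and_eventually (eventually_ge_atTop s0)
    obtain ⟨s, hs, hs'⟩ := h3.exists
    exact ⟨s, hs', hs⟩
  obtain ⟨s, hs, hsU⟩ := e1
  obtain ⟨t, ht, htV⟩ := e2
  obtain ⟨y, -, hy⟩ := hp U V hU hV hsub ⟨u s, ⟨s, hs, rfl⟩, hsU⟩ ⟨u t, ⟨t, ht, rfl⟩, htV⟩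
  exact Set.disjoint_left.1 hUV hy.1 hy.2

theorem End_closed (S : Sys φ ψ g H Cr) {O : Set M} (h : IsPO φ O) : IsClosed O := by
  obtain ⟨x, T, hT, hx, rfl⟩ := h
  have hper : Function.Periodic (fun t => φ t x) T := by
    intro t
    simp only
    rw [S.pa, hx]
  rw [← hper.image_Icc hT 0]
  have hc : Continuous fun t => φ t x := S.pC.comp (continuous_id.prodMk continuous_const)
  exact (isCompact_Icc.image hc).isClosed

theorem End_range (S : Sys φ ψ g H Cr) (x : M) (s : ℝ) :
    (range fun t => φ t (φ s x)) = range fun t => φ t x := by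
  ext y
  constructor
  · rintro ⟨t, rfl⟩
    exact ⟨t + s, S.pa t s x⟩
  · rintro ⟨t, rfl⟩
    refine ⟨t - s, ?_⟩
    simp only
    rw [← S.pa, sub_add_cancel]

theorem End_mem (S : Sys φ ψ g H Cr) {O : Set M} (h : IsPO φ O) {y : M} (hy : y ∈ O) :
    O = range fun t => φ t y := by
  obtain ⟨x, T, hT, hx, rfl⟩ := h
  obtain ⟨s, rfl⟩ := hy
  exact (End_range S x s).symm

theorem ends_top (S : Sys φ ψ g H Cr) (hf : {O | IsPO φ O}.Finite) {x : M} (hx : x ∉ Cr) :
    ∃ O, IsPO φ O ∧ (∀ w, MapClusterPt w atTop (fun s => ψ s x) → w ∈ O) ∧ ∀ w ∈ O, H x < H w := by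
  have hu : Continuous fun s => ψ s x := S.sC.comp (continuous_id.prodMk continuous_const)
  have hcr := po_cr S hf
  obtain ⟨w0, hw0⟩ : ∃ w0, MapClusterPt w0 atTop fun s => ψ s x :=
    exists_clusterPt_of_compactSpace _
  have h0 := cls_top S hx hw0
  rw [← hcr] at h0
  obtain ⟨⟨O, hO, hwO⟩, hlt⟩ := h0
  have hO' : IsPO φ O := hO
  refine ⟨O, hO, fun w hw => ?_, fun w hw => ?_⟩
  · refine End_conn hu (End_closed S hO') (B := ⋃₀ ({O | IsPO φ O} \ {O})) ?_ ?_ ?_ hw0 hwO hw
    · rw [sUnion_eq_biUnion]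
      exact (hf.subset sdiff_subset).isClosed_biUnion fun O' h => End_closed S h.1
    · rw [Set.disjoint_left]
      rintro y hy ⟨O', ⟨hO1, hO2⟩, hy'⟩
      apply hO2
      rw [mem_singleton_iff, End_mem S hO1 hy', ← End_mem S hO' hy]
    · intro y hy
      have h2 := (cls_top S hx hy).1
      rw [← hcr] at h2
      obtain ⟨O', hO1, hy'⟩ := h2
      by_cases h3 : O' = O
      · left
        rw [← h3]
        exact hy'
      · right
        exact ⟨O', ⟨hO1, h3⟩, hy'⟩
  · rw [End_mem S hO' hwO] at hw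
    obtain ⟨t, rfl⟩ := hw
    rw [S.hp]
    exact hlt

theorem ends_bot (S : Sys φ ψ g H Cr) (hf : {O | IsPO φ O}.Finite) {x : M} (hx : x ∉ Cr) :
    ∃ O, IsPO φ O ∧ (∀ w, MapClusterPt w atBot (fun s => ψ s x) → w ∈ O) ∧ ∀ w ∈ O, H w < H x := by
  obtain ⟨O, h1, h2, h3⟩ := ends_top (End_rev S) hf hx
  exact ⟨O, h1, fun w hw => h2 w (End_neg hw), fun w hw => neg_lt_neg_iff.1 (h3 w hw)⟩

end Pool.Agent.CIR
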