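import Pool.Agent.CIR.Defs

set_option autoImplicit false

/-! Module Flow: a `C^1` vector field with compact support has a complete continuous flow.
`X` is Lipschitz (`ContDiff.lipschitzWith_of_hasCompactSupport`, constant `K`) and bounded by `L` (`HasCompactSupport` + continuity: `Continuous.bounded_above_of_compact_support`).
For `x : E` and `N : ℕ` there is a solution on `[-N, N]` (Picard-Lindelof with the ball of radius `a = L N`: `IsPicardLindelof.of_time_independent`,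
`IsPicardLindelof.exists_eq_forall_mem_Icc_hasDerivWithinAt₀`); by uniqueness (`ODE_solution_unique_of_mem_Icc` or `ODE_solution_unique_univ`; the Lipschitz condition is global) the solutions
for different `N` agree on the smaller interval, so they glue to a solution `γ_x : ℝ → E` with `γ_x 0 = x` (alternatively `exists_isMIntegralCurve_of_isMIntegralCurveOn` from
`Mathlib/Geometry/Manifold/IntegralCurve/UniformTime.lean`).  `φ t x = γ_x t`.  `uniq`: `ODE_solution_unique_univ`.  `add`: both sides are solutions in `s`.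
Continuity: `dist (φ t x) (φ t y) ≤ exp(K |t|) dist x y` (`dist_le_of_trajectories_ODE`, forward and backward in time) and `dist (φ t x) (φ s x) ≤ L |t - s|`. -/

namespace Pool.Agent.CIR

open Set Filter Topology

variable {E : Type} [NormedAddCommGroup E] [NormedSpace ℝ E]

/-- solutions on long intervals -/
theorem Flow_local [CompleteSpace E] (X : E → E) (K L : NNReal) (hK : LipschitzWith K X)
    (hL : ∀ x, ‖X x‖ ≤ L) (x : E) (n : ℕ) : ∃ α : ℝ → E, α 0 = x ∧
      ∀ t ∈ Ioo (-((n : ℝ) + 1)) ((n : ℝ) + 1), HasDerivAt α (X (α t)) t := by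
  have hn : (0 : ℝ) ≤ (n : ℝ) + 1 := by positivity
  have h0 : (0 : ℝ) ∈ Icc (-((n : ℝ) + 1)) ((n : ℝ) + 1) := ⟨by linarith, hn⟩
  have hP : IsPicardLindelof (fun _ => X) (tmin := -((n : ℝ) + 1)) (tmax := (n : ℝ) + 1) ⟨0, h0⟩ x
      (L * ((n : NNReal) + 1)) 0 L K := by
    apply IsPicardLindelof.of_time_independent
    · intro y _
      exact hL y
    · exact hK.lipschitzOnWith
    · show (L : ℝ) * max ((n : ℝ) + 1 - 0) (0 - -((n : ℝ) + 1)) ≤ _
      rw [sub_zero, zero_sub, neg_neg, max_self]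
      push_cast
      simp
  obtain ⟨α, h1, h2⟩ := hP.exists_eq_forall_mem_Icc_hasDerivWithinAt₀
  refine ⟨α, h1, fun t ht => ?_⟩
  exact (h2 t (Ioo_subset_Icc_self ht)).hasDerivAt (Icc_mem_nhds ht.1 ht.2)

/-- global solutions -/
theorem Flow_global [CompleteSpace E] (X : E → E) (K L : NNReal) (hK : LipschitzWith K X)
    (hL : ∀ x, ‖X x‖ ≤ L) (x : E) : ∃ γ : ℝ → E, γ 0 = x ∧ ∀ t, HasDerivAt γ (X (γ t)) t := by
  choose α hα0 hα using Flow_local X K L hK hL x
  have hcons : ∀ n m : ℕ, n ≤ m → ∀ t ∈ Ioo (-((n : ℝ) + 1)) ((n : ℝ) + 1), α n t = α m t := by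
    intro n m hnm
    have hnm' : (n : ℝ) ≤ m := by exact_mod_cast hnm
    have h0 : (0 : ℝ) ∈ Ioo (-((n : ℝ) + 1)) ((n : ℝ) + 1) := by
      have : (0 : ℝ) < (n : ℝ) + 1 := by positivity
      exact ⟨by linarith, this⟩
    exact ODE_solution_unique_of_mem_Ioo (v := fun _ => X) (s := fun _ => univ) (K := K)
      (fun t _ => hK.lipschitzOnWith) h0 (fun t ht => ⟨hα n t ht, mem_univ _⟩)
      (fun t ht => ⟨hα m t ⟨by linarith [ht.1], by linarith [ht.2]⟩, mem_univ _⟩)
      (by rw [hα0, hα0])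
  set γ : ℝ → E := fun t => α ⌈|t|⌉₊ t with hγ
  have hγn : ∀ n : ℕ, ∀ t ∈ Ioo (-((n : ℝ) + 1)) ((n : ℝ) + 1), γ t = α n t := by
    intro n t ht
    have habs : |t| < (n : ℝ) + 1 := abs_lt.2 ht
    have hceil : ⌈|t|⌉₊ ≤ n + 1 := by
      rw [Nat.ceil_le]
      push_cast
      exact habs.le
    rcases Nat.lt_or_ge n ⌈|t|⌉₊ with h | h
    · have h1 : ⌈|t|⌉₊ = n + 1 := by omega
      show α ⌈|t|⌉₊ t = α n t
      rw [h1]
      exact (hcons n (n + 1) (by omega) t ht).symm
    · have h2 : t ∈ Ioo (-(((⌈|t|⌉₊ : ℕ) : ℝ) + 1)) (((⌈|t|⌉₊ : ℕ) : ℝ) + 1) := by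
        have := Nat.le_ceil (|t|)
        exact abs_lt.1 (by linarith)
      exact hcons _ n h t h2
  refine ⟨γ, ?_, fun t => ?_⟩
  · have h0 : (0 : ℝ) ∈ Ioo (-(((0 : ℕ) : ℝ) + 1)) (((0 : ℕ) : ℝ) + 1) := by
      constructor <;> norm_num
    rw [hγn 0 0 h0, hα0]
  · obtain ⟨n, hn⟩ := exists_nat_gt |t|
    have ht : t ∈ Ioo (-((n : ℝ) + 1)) ((n : ℝ) + 1) := by
      exact abs_lt.1 (by linarith)
    have hev : γ =ᶠ[𝓝 t] α n := by
      filter_upwards [Ioo_mem_nhds ht.1 ht.2] with u hu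
      exact hγn n u hu
    rw [hγn n t ht]
    exact (hα n t ht).congr_of_eventuallyEq hev

theorem Flow_fwd (X : E → E) (K : NNReal) (hK : LipschitzWith K X) (γ δ : ℝ → E)
    (hγ : ∀ t, HasDerivAt γ (X (γ t)) t) (hδ : ∀ t, HasDerivAt δ (X (δ t)) t) (t : ℝ) (ht : 0 ≤ t) :
    dist (γ t) (δ t) ≤ dist (γ 0) (δ 0) * Real.exp (K * t) := by
  have h := dist_le_of_trajectories_ODE (v := fun _ => X) (f := γ) (g := δ) (a := 0) (b := t)
    (δ := dist (γ 0) (δ 0)) (fun _ => hK) (fun u _ => (hγ u).continuousAt.continuousWithinAt)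
    (fun u _ => (hγ u).hasDerivWithinAt) (fun u _ => (hδ u).continuousAt.continuousWithinAt)
    (fun u _ => (hδ u).hasDerivWithinAt) le_rfl t ⟨ht, le_rfl⟩
  rwa [sub_zero] at h

theorem Flow_dist (X : E → E) (K : NNReal) (hK : LipschitzWith K X) (γ δ : ℝ → E)
    (hγ : ∀ t, HasDerivAt γ (X (γ t)) t) (hδ : ∀ t, HasDerivAt δ (X (δ t)) t) (t : ℝ) :
    dist (γ t) (δ t) ≤ dist (γ 0) (δ 0) * Real.exp (K * |t|) := by
  rcases le_total 0 t with ht | ht
  · rw [abs_of_nonneg ht]
    exact Flow_fwd X K hK γ δ hγ hδ t ht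
  · rw [abs_of_nonpos ht]
    have hK' : LipschitzWith K (fun x => - X x) := hK.neg
    have hrev : ∀ γ : ℝ → E, (∀ t, HasDerivAt γ (X (γ t)) t) →
        ∀ t, HasDerivAt (fun u => γ (-u)) (- X (γ (-t))) t := by
      intro γ hγ t
      have h1 : HasDerivAt (γ ∘ Neg.neg) ((-1 : ℝ) • X (γ (-t))) t :=
        (hγ (-t)).scomp t (hasDerivAt_neg t)
      rw [neg_one_smul] at h1
      exact h1
    have h := Flow_fwd (fun x => - X x) K hK' (fun u => γ (-u)) (fun u => δ (-u))
      (hrev γ hγ) (hrev δ hδ) (-t) (by linarith)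
    simpa using h

theorem exists_flow {E : Type} [NormedAddCommGroup E] [NormedSpace ℝ E] [CompleteSpace E]
    (X : E → E) (hX : ContDiff ℝ 1 X) (hc : HasCompactSupport X) :
    ∃ φ : ℝ → E → E, IsFlow X φ := by
  obtain ⟨K, hK⟩ := hX.lipschitzWith_of_hasCompactSupport hc one_ne_zero
  obtain ⟨L0, hL0⟩ := hc.exists_bound_of_continuous hX.continuous
  have hL : ∀ x, ‖X x‖ ≤ ((L0.toNNReal : NNReal) : ℝ) :=
    fun x => (hL0 x).trans (Real.le_coe_toNNReal L0)
  choose γ hγ0 hγ using Flow_global X K L0.toNNReal hK hL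
  have huniq : ∀ δ : ℝ → E, (∀ t, HasDerivAt δ (X (δ t)) t) → ∀ t, δ t = γ (δ 0) t := by
    intro δ hδ t
    have h := ODE_solution_unique_univ (v := fun _ => X) (s := fun _ => univ) (K := K)
      (f := δ) (g := γ (δ 0)) (t₀ := 0) (fun _ => hK.lipschitzOnWith)
      (fun t => ⟨hδ t, mem_univ _⟩) (fun t => ⟨hγ _ t, mem_univ _⟩) (by rw [hγ0])
    rw [← h]
  refine ⟨fun t x => γ x t, ?_, fun x => hγ0 x, ?_, fun x t => hγ x t, fun δ hδ t => huniq δ hδ t⟩
  · rw [continuous_iff_continuousAt]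
    rintro ⟨t0, x0⟩
    rw [ContinuousAt, tendsto_iff_dist_tendsto_zero]
    have hcont : Continuous (fun p : ℝ × E => dist p.2 x0 * Real.exp (K * |p.1|)
        + dist (γ x0 p.1) (γ x0 t0)) := by
      have h1 : Continuous (γ x0) := by
        rw [continuous_iff_continuousAt]
        exact fun t => (hγ x0 t).continuousAt
      fun_prop
    have hlim : Tendsto (fun p : ℝ × E => dist p.2 x0 * Real.exp (K * |p.1|)
        + dist (γ x0 p.1) (γ x0 t0)) (𝓝 (t0, x0)) (𝓝 0) := by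
      have := hcont.tendsto (t0, x0)
      simpa using this
    refine squeeze_zero (fun _ => dist_nonneg) (fun p => ?_) hlim
    have h1 := Flow_dist X K hK (γ p.2) (γ x0) (hγ p.2) (hγ x0) p.1
    rw [hγ0, hγ0] at h1
    exact (dist_triangle _ (γ x0 p.1) _).trans (by linarith)
  · intro s t x
    have h1 := huniq (fun u => γ x (u + t)) (fun u => by
      have h2 := (hγ x (u + t)).comp_add_const u t
      exact h2) s
    simp only [zero_add] at h1
    exact h1

end Pool.Agent.CIR
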