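import Pool.Agent.CIR.Pof

/-! Module Lev (difficulty 2): if there are finitely many closed orbits there is a point on a level without critical points.

Proof.  `H` is constant on every closed orbit (`S.hp`), and `Cr ⊆ ⋃₀ {O | IsPO φ O}` (`S.per`: the orbit of `x ∈ Cr` is
closed), so `H '' Cr` is finite.  By `S.den` (with `C = {O | IsPO φ O}`) and `S.ne` there is `x ∉ ⋃₀ C`, so `x ∉ Cr`.
The function `s ↦ H (ψ s x)` is continuous and `H x < H (ψ 1 x)`, so it takes all values of `[H x, H (ψ 1 x)]`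
(`intermediate_value_Icc`), an infinite set; choose `s` with `H (ψ s x) ∉ H '' Cr`.  `z = ψ s x`. -/

set_option autoImplicit false

namespace Pool.Agent.CIR

open Set Filter
open scoped Topology

variable {M : Type} [MetricSpace M] [CompactSpace M] {φ ψ g : ℝ → M → M} {H : M → ℝ} {Cr : Set M}

theorem lev (S : Sys φ ψ g H Cr) (hf : {O | IsPO φ O}.Finite) : ∃ z, ∀ x ∈ Cr, H x ≠ H z := by
  have hcr := po_cr S hf
  have hne := S.ne
  have h1 : (H '' Cr).Finite := by
    rw [← hcr]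
    have h2 : (⋃ O ∈ {O | IsPO φ O}, H '' O).Finite := by
      refine hf.biUnion fun O hO => ?_
      obtain ⟨y, T, hT, hy, rfl⟩ := hO
      refine Set.Subsingleton.finite ?_
      rintro _ ⟨_, ⟨t, rfl⟩, rfl⟩ _ ⟨_, ⟨t', rfl⟩, rfl⟩
      show H (φ t y) = H (φ t' y)
      rw [S.hp, S.hp]
    refine h2.subset ?_
    rintro _ ⟨x, ⟨O, hO, hx⟩, rfl⟩
    exact mem_biUnion hO ⟨x, hx, rfl⟩
  obtain ⟨x, hx⟩ := (S.den {O | IsPO φ O} hf fun O hO => hO).nonempty
  rw [hcr] at hx
  have hc : Continuous fun s => H (ψ s x) :=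
    S.hC.comp (S.sC.comp (continuous_id.prodMk continuous_const))
  have hlt : H (ψ 0 x) < H (ψ 1 x) := by
    rw [S.s0]
    exact S.inc x hx 1 one_pos
  by_contra hcon
  push Not at hcon
  have h3 : Icc (H (ψ 0 x)) (H (ψ 1 x)) ⊆ H '' Cr := by
    intro v hv
    obtain ⟨s, -, rfl⟩ := intermediate_value_Icc zero_le_one hc.continuousOn hv
    obtain ⟨y, hy, hy'⟩ := hcon (ψ s x)
    exact ⟨y, hy, hy'⟩
  exact (Icc_infinite hlt) (h1.subset h3)

end Pool.Agent.CIR
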