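import Pool.Agent.CIR.Bas

/-! Module Ret (difficulty 2): on a level without critical points every point has a return `φ_a g_b z = z`, `a ≥ 1/2`.

Proof.  `K = {x | H x = H z}` is compact and disjoint from `Cr` (`h`), and `φ n z ∈ K` for all natural `n`.  By
compactness the sequence `φ n z` has a cluster point `w ∈ K`, `w ∉ Cr`.  `S.box w (1/8)` gives `r`; there are
`n > n'` with `φ n z, φ n' z ∈ B(w, r)` (frequently), so `φ a' (g b' (φ n z)) = φ n' z` with `|a'| < 1/8`; hence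
(`bas_mul`, `bas_sub`) `φ (n - n' + a') (g b' z) = z`, and `n - n' + a' ≥ 1 - 1/8`. -/

set_option autoImplicit false

namespace Pool.Agent.CIR

open Set Filter
open scoped Topology

variable {M : Type} [MetricSpace M] [CompactSpace M] {φ ψ g : ℝ → M → M} {H : M → ℝ} {Cr : Set M}

theorem ret (S : Sys φ ψ g H Cr) {z : M} (h : ∀ x ∈ Cr, H x ≠ H z) :
    ∃ a b : ℝ, 1 / 2 ≤ a ∧ φ a (g b z) = z := by
  have hK : IsCompact {x : M | H x = H z} :=
    (isClosed_eq S.hC continuous_const).isCompact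
  obtain ⟨w, hw, θ, hθ, hlim⟩ := hK.tendsto_subseq (x := fun n : ℕ => φ n z) (fun n => S.hp _ _)
  have hwC : w ∉ Cr := fun hc => h w hc hw
  obtain ⟨r, hr, hbox⟩ := S.box w hwC (1 / 8) (by norm_num)
  have hev : ∀ᶠ n in atTop, dist (φ (θ n : ℕ) z) w < r := by
    have h1 := Metric.tendsto_atTop.1 hlim r hr
    obtain ⟨N, hN⟩ := h1
    exact eventually_atTop.2 ⟨N, hN⟩
  obtain ⟨N, hN⟩ := eventually_atTop.1 hev
  have h1 := hN (N + 1) (by omega)
  have h2 := hN N le_rfl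
  have hlt : θ N < θ (N + 1) := hθ (by omega)
  obtain ⟨a, b, ha, hb, hab⟩ := hbox _ _ h1 h2 (by rw [S.hp, S.hp])
  have h3 : φ (a + (θ (N + 1) : ℕ)) (g (b + 0) z) = φ (θ N : ℕ) (g 0 z) := by
    rw [← bas_mul S, S.g0, hab]
  have h4 := bas_sub S h3
  have h5 : ((θ N : ℕ) : ℝ) + 1 ≤ ((θ (N + 1) : ℕ) : ℝ) := by exact_mod_cast hlt
  have h6 := abs_lt.1 ha
  exact ⟨_, _, by linarith, h4⟩

end Pool.Agent.CIR
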