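import Pool.Agent.CIR.Lc
import Pool.Agent.CIR.Lev
import Pool.Agent.CIR.Ret

/-! Module Glo (difficulty 2): if there are finitely many closed orbits then some `φ_a g_b` (`a > 0`, `b` irrational) is the
identity.

Proof.  `lev` gives `z`, `ret` gives `a ≥ 1/2`, `b` with `φ a (g b z) = z`; `z ∉ Cr` (`h z : H z ≠ H z`).  `b` is
irrational by `irr`.  `Z = {x | φ a (g b x) = x}` is closed.  With `C = {O | IsPO φ O}` and `po_cr`: `(⋃₀ C)ᶜ = Crᶜ` is
preconnected (`S.pre`) and dense (`S.den`) and open (`S.cl`).  `Z ∩ Crᶜ` is relatively closed in `Crᶜ` and open (`lc`)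
and contains `z`, so `Crᶜ ⊆ Z` (`IsPreconnected.subset_of_closure_inter_subset` or `isPreconnected_iff_subset_of_...`:
apply the definition to the open sets `interior Z` and `Zᶜ`).  As `Z` is closed and `Crᶜ` dense, `Z = univ`. -/

set_option autoImplicit false

namespace Pool.Agent.CIR

open Set Filter
open scoped Topology

variable {M : Type} [MetricSpace M] [CompactSpace M] {φ ψ g : ℝ → M → M} {H : M → ℝ} {Cr : Set M}

theorem glo (S : Sys φ ψ g H Cr) (hf : {O | IsPO φ O}.Finite) :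
    ∃ a b : ℝ, 0 < a ∧ Irrational b ∧ ∀ x, φ a (g b x) = x := by
  obtain ⟨z, hz⟩ := lev S hf
  obtain ⟨a, b, ha, hab⟩ := ret S hz
  have hzC : z ∉ Cr := fun h => hz z h rfl
  have ha0 : 0 < a := by linarith
  have hirr := irr S hf hzC ha0.ne' hab
  have hcr := po_cr S hf
  have hpre : IsPreconnected Crᶜ := by
    rw [← hcr]
    exact S.pre _ hf (fun O hO => hO)
  have hden : Dense Crᶜ := by
    rw [← hcr]
    exact S.den _ hf (fun O hO => hO)
  have hcont : Continuous fun x => φ a (g b x) :=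
    (bas_cont S).comp (by fun_prop : Continuous fun x : M => ((a, b, x) : ℝ × ℝ × M))
  have hZc : IsClosed {x | φ a (g b x) = x} := isClosed_eq hcont continuous_id
  have hsub : Crᶜ ⊆ {x | φ a (g b x) = x} := by
    intro x hx
    by_contra hxZ
    have hu1 : Crᶜ ⊆ interior {x | φ a (g b x) = x} ∪ {x | φ a (g b x) = x}ᶜ := by
      intro y hy
      by_cases hyZ : φ a (g b y) = y
      · exact Or.inl (mem_interior_iff_mem_nhds.2 (lc S hf hy ha0.ne' hyZ))
      · exact Or.inr hyZ
    have hu2 : z ∈ interior {x | φ a (g b x) = x} :=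
      mem_interior_iff_mem_nhds.2 (lc S hf hzC ha0.ne' hab)
    obtain ⟨y, hy, hy1, hy2⟩ := hpre _ _ isOpen_interior hZc.isOpen_compl hu1 ⟨z, hzC, hu2⟩
      ⟨x, hx, hxZ⟩
    exact hy2 (interior_subset hy1)
  have h1 : closure Crᶜ ⊆ {x | φ a (g b x) = x} := hZc.closure_subset_iff.2 hsub
  rw [hden.closure_eq] at h1
  exact ⟨a, b, ha0, hirr, fun x => h1 (mem_univ x)⟩

end Pool.Agent.CIR
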