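import Pool.Agent.CIR.Orb
import Pool.Agent.CIR.End

/-! Module Two (difficulty 3): the abstract theorem.

Proof.  Suppose there are finitely many closed orbits.  `glo` gives `a, b`.  Choose `x ∉ Cr` (`S.den`, `S.ne`, `po_cr`).
Let `O₁` (top), `O₂` (bottom) be given by `ends_top`, `ends_bot`; `O₁ ≠ O₂` (a point of `O₁` has `H > H x`, of `O₂` has
`H < H x`; closed orbits are non-empty).
Every closed orbit `O` is `O₁` or `O₂`: let `w ∈ O`; `w ∈ Cr` (`po_cr`).  As `Crᶜ` is dense there are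
`y_n ∉ Cr`, `y_n → w`; by `orb`: `y_n = φ c_n (g d_n (ψ s_n x))`, `c_n ∈ [0, a]`, `d_n ∈ [0, 1]`.  If `s_n` has a bounded
subsequence then in the limit `w = φ c (g d (ψ s x)) ∉ Cr` (`bas_cr`, `bas_psi`), contradiction.  So along a
subsequence `s_n → ∞` or `s_n → -∞`, `c_n → c`, `d_n → d`, `ψ s_n x → w'`: `w = φ c (g d w')`, `w'` a cluster point, say
`w' ∈ O₁`.  `w' ∈ Cr`, so `g d w' = φ t w'` (`S.par`), and `w = φ (c + t) w' ∈ O₁`.  Two closed orbits with a common
point are equal, so `O = O₁`.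
Hence `{O | IsPO φ O} = {O₁, O₂}` and `encard = 2` (`Set.encard_pair`). -/

set_option autoImplicit false

namespace Pool.Agent.CIR

open Set Filter
open scoped Topology

variable {M : Type} [MetricSpace M] [CompactSpace M] {φ ψ g : ℝ → M → M} {H : M → ℝ} {Cr : Set M}

theorem Two_eq (S : Sys φ ψ g H Cr) {O : Set M} (hO : IsPO φ O) {w : M} (hw : w ∈ O) :
    O = range fun t => φ t w := by
  obtain ⟨y, T, hT, hy, rfl⟩ := hO
  obtain ⟨s, rfl⟩ := hw
  ext v
  constructor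
  · rintro ⟨t, rfl⟩
    refine ⟨t - s, ?_⟩
    show φ (t - s) (φ s y) = φ t y
    rw [← S.pa, sub_add_cancel]
  · rintro ⟨t, rfl⟩
    refine ⟨t + s, ?_⟩
    show φ (t + s) y = φ t (φ s y)
    rw [S.pa]

theorem Two_lim {F : Ultrafilter ℕ} (s : ℕ → ℝ) :
    Tendsto s F atTop ∨ Tendsto s F atBot ∨ ∃ v, Tendsto s F (𝓝 v) := by
  by_cases h : ∃ R, ∀ᶠ n in F, |s n| ≤ R
  · obtain ⟨R, hR⟩ := h
    right
    right
    have h1 : ((F.map s : Ultrafilter ℝ) : Filter ℝ) ≤ 𝓟 (Icc (-R) R) := by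
      rw [Ultrafilter.coe_map, le_principal_iff, mem_map]
      filter_upwards [hR] with n hn
      exact ⟨(abs_le.1 hn).1, (abs_le.1 hn).2⟩
    obtain ⟨v, -, hv⟩ := isCompact_Icc.ultrafilter_le_nhds _ h1
    exact ⟨v, hv⟩
  · push Not at h
    have h' : ∀ R, ∀ᶠ n in F, R < |s n| := fun R => h R
    rcases Ultrafilter.em F (fun n => 0 ≤ s n) with h0 | h0
    · left
      rw [tendsto_atTop]
      intro R
      filter_upwards [h0, h' R] with n hn hn'
      rw [abs_of_nonneg hn] at hn'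
      exact hn'.le
    · right
      left
      rw [tendsto_atBot]
      intro R
      filter_upwards [h0, h' (-R)] with n hn hn'
      rw [abs_of_neg (not_le.1 hn)] at hn'
      linarith

theorem two (S : Sys φ ψ g H Cr) (hf : {O | IsPO φ O}.Finite) : {O | IsPO φ O}.encard = 2 := by
  have hne := S.ne
  have hcr := po_cr S hf
  obtain ⟨a, b, ha, -, hab⟩ := glo S hf
  have hden := S.den {O | IsPO φ O} hf fun O hO => hO
  obtain ⟨x, hx⟩ := hden.nonempty
  rw [hcr] at hx hden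
  obtain ⟨O₁, hO₁, hc₁, hH₁⟩ := ends_top S hf hx
  obtain ⟨O₂, hO₂, hc₂, hH₂⟩ := ends_bot S hf hx
  have hne12 : O₁ ≠ O₂ := by
    intro h
    obtain ⟨y, T, hT, hy, hy'⟩ := hO₁
    have hw : y ∈ O₁ := by
      rw [hy']
      exact ⟨0, S.p0 y⟩
    have h1 := hH₁ y hw
    have h2 := hH₂ y (h ▸ hw)
    linarith
  have key : ∀ O, IsPO φ O → O = O₁ ∨ O = O₂ := by
    intro O hO
    obtain ⟨w, hw⟩ : ∃ w, w ∈ O := by
      obtain ⟨y, T, hT, hy, hy'⟩ := hO
      exact ⟨y, by rw [hy']; exact ⟨0, S.p0 y⟩⟩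
    have hwc : w ∈ Cr := by
      rw [← hcr]
      exact ⟨O, hO, hw⟩
    obtain ⟨y, hy, hyw⟩ := mem_closure_iff_seq_limit.1 (hden w)
    have horb := fun n => orb S hf ha hab hx (hy n)
    choose s c hc d hd hyn using horb
    obtain ⟨F, hF⟩ : ∃ F : Ultrafilter ℕ, F = hyperfilter ℕ := ⟨_, rfl⟩
    have hFt : (F : Filter ℕ) ≤ atTop := hF ▸ Nat.hyperfilter_le_atTop
    have hyF : Tendsto y F (𝓝 w) := hyw.mono_left hFt
    have h1 : ((F.map c : Ultrafilter ℝ) : Filter ℝ) ≤ 𝓟 (Icc 0 a) := by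
      rw [Ultrafilter.coe_map, le_principal_iff, mem_map]
      exact Eventually.of_forall hc
    have h2 : ((F.map d : Ultrafilter ℝ) : Filter ℝ) ≤ 𝓟 (Icc 0 1) := by
      rw [Ultrafilter.coe_map, le_principal_iff, mem_map]
      exact Eventually.of_forall hd
    obtain ⟨c₀, -, hc₀⟩ := isCompact_Icc.ultrafilter_le_nhds _ h1
    obtain ⟨d₀, -, hd₀⟩ := isCompact_Icc.ultrafilter_le_nhds _ h2
    have hc₀' : Tendsto c F (𝓝 c₀) := hc₀
    have hd₀' : Tendsto d F (𝓝 d₀) := hd₀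
    obtain ⟨w', -, hw'⟩ := isCompact_univ.ultrafilter_le_nhds (F.map fun n => ψ (s n) x)
      (by simp)
    have hw'' : Tendsto (fun n => ψ (s n) x) F (𝓝 w') := hw'
    have h3 : Tendsto (fun n => φ (c n) (g (d n) (ψ (s n) x))) F (𝓝 (φ c₀ (g d₀ w'))) :=
      ((bas_cont S).tendsto (c₀, d₀, w')).comp
        (hc₀'.prodMk_nhds (hd₀'.prodMk_nhds hw''))
    have h4 : Tendsto (fun n => φ (c n) (g (d n) (ψ (s n) x))) F (𝓝 w) :=
      hyF.congr hyn
    have h5 : w = φ c₀ (g d₀ w') := tendsto_nhds_unique h4 h3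
    have fin : ∀ O', IsPO φ O' → w' ∈ O' → O = O' := by
      intro O' hO' hw'O
      have hw'c : w' ∈ Cr := by
        rw [← hcr]
        exact ⟨O', hO', hw'O⟩
      obtain ⟨t, ht⟩ := S.par w' hw'c d₀
      have h6 : w ∈ O' := by
        rw [Two_eq S hO' hw'O]
        refine ⟨c₀ + t, ?_⟩
        show φ (c₀ + t) w' = w
        rw [h5, ht, S.pa]
      rw [Two_eq S hO hw, Two_eq S hO' h6]
    rcases Two_lim (F := F) s with hs | hs | ⟨v, hv⟩
    · left
      refine fin O₁ hO₁ (hc₁ w' ?_)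
      exact MapClusterPt.of_comp hs (hw''.mapClusterPt)
    · right
      refine fin O₂ hO₂ (hc₂ w' ?_)
      exact MapClusterPt.of_comp hs (hw''.mapClusterPt)
    · exfalso
      have h6 : Tendsto (fun n => ψ (s n) x) F (𝓝 (ψ v x)) :=
        (S.sC.tendsto (v, x)).comp (hv.prodMk_nhds tendsto_const_nhds)
      have h7 : w' = ψ v x := tendsto_nhds_unique hw'' h6
      rw [h5, h7, bas_cr S, bas_psi S] at hwc
      exact hx hwc
  have hset : {O | IsPO φ O} = {O₁, O₂} := by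
    ext O
    constructor
    · intro hO
      exact key O hO
    · rintro (rfl | rfl)
      · exact hO₁
      · exact hO₂
  rw [hset]
  exact encard_pair hne12

end Pool.Agent.CIR
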