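import Pool.Agent.CIR.Asm
import Pool.Agent.CIR.Two
import Pool.Agent.CIR.Glo
import Pool.Agent.CIR.Flow

/-! Module Fin (difficulty 2): the final theorem.

`fld_reeb`, `fld_grad`, `exists_flow` (module Flow), `prs`, `asm` give a `Sys` on the subtype `Y`
(`isCompact_iff_compactSpace`).  By `traj_iff` the closed Reeb orbits are the images under `Subtype.val` of the closed
orbits of `restr φ`: `O` closed Reeb orbit with `γ`, `T`: `γ t = φ t (γ 0)`, `φ T (γ 0) = γ 0`; conversely `γ t = φ t x`,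
`φ T x = x` gives `γ (t + T) = γ t`.  So `{O | IsClosedOrbit Y lam O} = (image Subtype.val) '' {O | IsPO (restr φ h1) O}`, an
injective image: `Set.encard` and finiteness agree (`Function.Injective.encard_image`, `Set.Finite.of_finite_image`).
If it is finite: `two` gives `encard = 2`; `glo` gives `a > 0`, `b` irrational with `φ a (g b x) = x` on `Y`; so for a Reeb
trajectory `γ (t + a) = φ a (φ t (γ 0))`.. put `y = γ t ∈ Y`: `φ a (g b (g (-b) y)) = g (-b) y`, i.e. `φ a y = g (-b) y`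
(`D.act.add`, `act_zero`), so `γ (t + a) = g (-b) (γ t)`. -/

set_option autoImplicit false

namespace Pool.Agent.CIR

open Set Filter
open scoped Topology ContDiff

theorem fin {m : ℕ} {Y : Set (EE m)} {g : ℝ → EE m →ₗᵢ[ℝ] EE m} {lam : OneForm m} (D : Dat Y g lam) :
    {O | IsClosedOrbit Y lam O}.Infinite ∨
      ({O | IsClosedOrbit Y lam O}.encard = 2 ∧ ∃ T b : ℝ, 0 < T ∧ Irrational b ∧
        ∀ γ, IsReebTrajectory Y lam γ → ∀ t, γ (t + T) = g b (γ t)) := by
  obtain ⟨X, hX, hXs, hR⟩ := fld_reeb D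
  obtain ⟨W, hW, hWs, hG⟩ := fld_grad D
  obtain ⟨φ, hφ⟩ := exists_flow X (hX.of_le (by exact_mod_cast le_top)) hXs
  obtain ⟨ψ, hψ⟩ := exists_flow W (hW.of_le (by exact_mod_cast le_top)) hWs
  have hYc : IsCompact Y := D.mfd.compact
  have hcs : CompactSpace Y := isCompact_iff_compactSpace.1 hYc
  have h1 : ∀ t, ∀ x ∈ Y, φ t x ∈ Y :=
    fun t x hx => prs hYc hX hXs (fun x hx => (hR x hx).1) hφ hx t
  have h2 : ∀ t, ∀ x ∈ Y, ψ t x ∈ Y :=
    fun t x hx => prs hYc hW hWs (fun x hx => (hG x hx).1) hψ hx t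
  have S := asm D hX hXs hR hφ hW hWs hG hψ h1 h2
  have key : {O | IsClosedOrbit Y lam O} =
      (image (Subtype.val : Y → EE m)) '' {O : Set Y | IsPO (restr φ h1) O} := by
    ext O
    constructor
    · rintro ⟨γ, hγ, ⟨T, hT, hper⟩, rfl⟩
      obtain ⟨h0, hγt⟩ := (traj_iff D hX hXs hR hφ γ).1 hγ
      refine ⟨range fun t => restr φ h1 t ⟨γ 0, h0⟩, ⟨⟨γ 0, h0⟩, T, hT, ?_, rfl⟩, ?_⟩
      · apply Subtype.ext
        show φ T (γ 0) = γ 0
        have h3 := hper 0
        rw [zero_add] at h3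
        rw [← hγt, h3]
      · rw [← range_comp]
        congr 1
        funext t
        exact (hγt t).symm
    · rintro ⟨O', ⟨x, T, hT, hx, rfl⟩, rfl⟩
      refine ⟨fun t => φ t x, ?_, ⟨T, hT, ?_⟩, ?_⟩
      · rw [traj_iff D hX hXs hR hφ]
        refine ⟨h1 0 x x.2, fun t => ?_⟩
        show φ t x = φ t (φ 0 x)
        rw [hφ.zero]
      · intro t
        have h3 : φ T x = x := congrArg Subtype.val hx
        show φ (t + T) x = φ t x
        rw [hφ.add, h3]
      · rw [← range_comp]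
        rfl
  have hinj : Function.Injective (image (Subtype.val : Y → EE m)) :=
    Subtype.val_injective.image_injective
  by_cases hf : {O : Set Y | IsPO (restr φ h1) O}.Finite
  · right
    refine ⟨?_, ?_⟩
    · rw [key, hinj.encard_image]
      exact two S hf
    · obtain ⟨a, b, ha, hb, hab⟩ := glo S hf
      refine ⟨a, -b, ha, hb.neg, ?_⟩
      intro γ hγ t
      obtain ⟨h0, hγt⟩ := (traj_iff D hX hXs hR hφ γ).1 hγ
      have hy : φ t (γ 0) ∈ Y := h1 t _ h0
      have hy' : g (-b) (φ t (γ 0)) ∈ Y := D.act.maps (-b) _ hy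
      have h3 : φ a (g b (g (-b) (φ t (γ 0)))) = g (-b) (φ t (γ 0)) :=
        congrArg Subtype.val (hab ⟨_, hy'⟩)
      rw [← D.act.add, add_neg_cancel, act_zero D.act] at h3
      rw [hγt (t + a), hγt t, add_comm t a, hφ.add, h3]
  · left
    rw [key]
    intro hfin
    exact hf (hfin.of_finite_image hinj.injOn)

end Pool.Agent.CIR
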