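import Pool.Agent.CIR.Imm
import Pool.Agent.CIR.Act

/-! Module FixA (difficulty 3): fixed points of the circle action whose linearisation is trivial.

`fixa`: let `z ∈ Y`, `VV g z = 0`, and `VV g v = 0` for all tangent vectors `v` at `z`.  Then all `x ∈ Y` near `z` are
fixed.  Proof: let `T` be the subspace of tangent vectors at `z` (`tan_add`, `tan_smul`), `P` the orthogonal projection
onto `T` (finite dimension; as a continuous linear map `EE m → EE m` with `P v = v` on `T` and `P w = 0` for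
`w ⟂ T`: `Submodule.starProjection` or `orthogonalProjection`).  For `x ∈ Y` and all `t`:
`P (g t x) = P x`: the derivative in `t` is `P (VV g (g t x)) = 0` since `⟪VV g y, v⟫ = - ⟪y, VV g v⟫ = 0` for `v ∈ T`
(`act_skew`), i.e. `VV g y ⟂ T`.  `imm` with `L = P` (`P v = 0`, `v ∈ T` gives `v = 0`) gives `r`.  For `x ∈ Y` with
`dist x z < r`: `dist (g t x) z = dist (g t x) (g t z) = dist x z < r` (`act_fix`: `g t z = z`), so `g t x = x`; `act_fix`.
`fixb`: if some `z` as above exists then `VV g = 0` on `Y`.  Proof: `S = {x ∈ Y | ∀ᶠ y in 𝓝[Y] x, VV g y = 0}` is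
relatively open in `Y`, non-empty.  It is closed in `Y`: let `x ∈ Y` be in the closure of `S`.  Then `VV g x = 0` by
continuity.  Let `U, V, χ, π` be a chart at `x` and `w ∈ EE 3`.  For `y ∈ V` with `χ y ∈ S`: `VV g (fderiv χ y w) = 0`
(the curve `t ↦ χ (y + t w)` is in `{VV g = 0}` for small `t`, `VV g` is continuous linear).  By continuity (points of `S`
near `x` are `χ y` with `y = π (..)` near `π x`) `VV g (fderiv χ (π x) w) = 0`, so `VV g v = 0` for all
tangent `v` at `x` and `fixa` shows `x ∈ S`.  `Y` is preconnected. -/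

set_option autoImplicit false

namespace Pool.Agent.CIR

open Set Filter
open scoped Topology ContDiff

variable {m : ℕ} {Y : Set (EE m)} {g : ℝ → EE m →ₗᵢ[ℝ] EE m}

theorem fixa (hY : IsClosedThreeManifold Y) (h : IsCircleAction Y g) {z : EE m} (hz : z ∈ Y) (h0 : VV g z = 0)
    (hv : ∀ v, IsTangent Y z v → VV g v = 0) : ∀ᶠ x in 𝓝[Y] z, VV g x = 0 := by
  let T : Submodule ℝ (EE m) :=
    { carrier := {v | IsTangent Y z v}
      add_mem' := fun ha hb => tan_add hY hz ha hb
      zero_mem' := tan_zero hz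
      smul_mem' := fun c _ ha => tan_smul hY hz c ha }
  have hT : ∀ v, v ∈ T ↔ IsTangent Y z v := fun v => Iff.rfl
  let P : EE m →L[ℝ] EE m := T.starProjection
  have hPT : ∀ v ∈ T, P v = v := fun v hv => T.starProjection_eq_self_iff.2 hv
  have hPV : ∀ y, P (VV g y) = 0 := by
    intro y
    apply T.starProjection_apply_eq_zero_iff.2
    rw [Submodule.mem_orthogonal]
    intro v hvT
    have h1 := act_skew h v y
    rw [hv v ((hT v).1 hvT), inner_zero_left] at h1
    linarith
  have hPg : ∀ x t, P (g t x) = P x := by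
    intro x t
    have h1 : ∀ s, HasDerivAt (fun s => P (g s x)) 0 s := by
      intro s
      have h2 := (P.hasFDerivAt (x := g s x)).comp_hasDerivAt s (act_der h s x)
      rw [hPV] at h2
      exact h2
    have h2 := is_const_of_deriv_eq_zero (fun s => (h1 s).differentiableAt) (fun s => (h1 s).deriv)
      t 0
    have h3 : P (g t x) = P (g 0 x) := h2
    rw [h3, act_zero h]
  obtain ⟨r, hr, himm⟩ := imm hY hz P (by
    intro v hv1 hv2
    rw [hPT v ((hT v).2 hv1)] at hv2
    exact hv2)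
  have h1 : ∀ᶠ x in 𝓝[Y] z, x ∈ Metric.ball z r :=
    mem_nhdsWithin_of_mem_nhds (Metric.ball_mem_nhds z hr)
  filter_upwards [h1, self_mem_nhdsWithin] with x hx hxY
  rw [act_fix h]
  intro t
  apply himm _ (h.maps t x hxY) _ hxY _ hx (hPg x t)
  have h2 : g t z = z := (act_fix h z).1 h0 t
  calc dist (g t x) z = dist (g t x) (g t z) := by rw [h2]
    _ = dist x z := (g t).dist_map x z
    _ < r := hx

theorem FixA_tan (h : IsCircleAction Y g) {p v : EE m} (hp : ∀ᶠ y in 𝓝[Y] p, VV g y = 0)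
    (hv : IsTangent Y p v) : VV g v = 0 := by
  obtain ⟨A, hA⟩ := act_lin h
  obtain ⟨γ, h1, h2, h3⟩ := hv
  have h4 : Tendsto γ (𝓝 0) (𝓝[Y] p) := by
    rw [tendsto_nhdsWithin_iff]
    refine ⟨?_, h1⟩
    rw [← h2]
    exact h3.continuousAt
  have h5 : (fun t => A (γ t)) =ᶠ[𝓝 0] fun _ => (0 : EE m) := by
    filter_upwards [h4.eventually hp] with t ht
    rw [← hA]
    exact ht
  have h6 := (A.hasFDerivAt (x := γ 0)).comp_hasDerivAt (0 : ℝ) h3
  have h7 : HasDerivAt (fun t => A (γ t)) (0 : EE m) 0 :=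
    (hasDerivAt_const (0 : ℝ) (0 : EE m)).congr_of_eventuallyEq h5
  rw [hA]
  exact HasDerivAt.unique h6 h7

/-- at every fixed point there is a tangent vector which is moved -/
theorem fixb (hY : IsClosedThreeManifold Y) (h : IsCircleAction Y g) {z : EE m} (hz : z ∈ Y)
    (h0 : VV g z = 0) : ∃ v, IsTangent Y z v ∧ VV g v ≠ 0 := by
  by_contra hcon
  push Not at hcon
  obtain ⟨A, hA⟩ := act_lin h
  have hpre : PreconnectedSpace Y := isPreconnected_iff_preconnectedSpace.1 hY.connected.isPreconnected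
  let S : Set Y := {x | ∀ᶠ y : Y in 𝓝 x, VV g y = 0}
  have hS : ∀ x : Y, x ∈ S ↔ ∀ᶠ y in 𝓝[Y] (x : EE m), VV g y = 0 := by
    intro x
    show (∀ᶠ y : Y in 𝓝 x, VV g y = 0) ↔ _
    rw [← map_nhds_subtype_val, eventually_map]
  have hopen : IsOpen S := by
    rw [isOpen_iff_mem_nhds]
    intro x hx
    exact eventually_eventually_nhds.2 hx
  have hclosed : IsClosed S := by
    rw [← closure_subset_iff_isClosed]
    intro x hx
    have hfr : ∃ᶠ p in 𝓝 x, p ∈ S := mem_closure_iff_frequently.1 hx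
    rw [hS]
    obtain ⟨U, V, χ, π, hxU, hch⟩ := hY.chart x x.2
    have hxV := hch.right_inv x ⟨x.2, hxU⟩
    have hcl : IsClosed {y : Y | A y = 0} :=
      isClosed_eq (A.continuous.comp continuous_subtype_val) continuous_const
    have hx0 : VV g x = 0 := by
      rw [hA]
      apply hcl.closure_subset_iff.2 _ hx
      intro y hy
      have hy' : ∀ᶠ p : Y in 𝓝 y, VV g p = 0 := hy
      have h1 := hy'.self_of_nhds
      rw [hA] at h1
      exact h1
    apply fixa hY h x.2 hx0
    intro v hv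
    have hv' : IsTangent Y (χ (π x)) v := by
      rw [hxV.2]
      exact hv
    obtain ⟨w, rfl⟩ := (tan_iff hch hxV.1 v).1 hv'
    rw [hA]
    by_contra hne
    have hπ : ContinuousAt (fun p : Y => π p) x := by
      have h1 : ContinuousAt π x := (hch.smooth_π.continuousOn).continuousAt
        (hch.open_U.mem_nhds hxU)
      exact h1.comp continuous_subtype_val.continuousAt
    have hf : ContinuousAt (fun p : Y => A (fderiv ℝ χ (π p) w)) x := by
      have h1 : ContinuousAt (fun y => fderiv ℝ χ y) (π x) :=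
        (hch.smooth_χ.continuousOn_fderiv_of_isOpen hch.open_V (by simp)).continuousAt
          (hch.open_V.mem_nhds hxV.1)
      have h2 : ContinuousAt (fun p : Y => fderiv ℝ χ (π p)) x :=
        ContinuousAt.comp (f := fun p : Y => π p) (g := fun y => fderiv ℝ χ y) h1 hπ
      exact A.continuous.continuousAt.comp (h2.clm_apply continuousAt_const)
    have hev : ∀ᶠ p : Y in 𝓝 x, A (fderiv ℝ χ (π p) w) ≠ 0 := hf.eventually_ne hne
    have hU : ∀ᶠ p : Y in 𝓝 x, (p : EE m) ∈ U :=
      continuous_subtype_val.continuousAt (hch.open_U.mem_nhds hxU)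
    obtain ⟨p, hpS, hp1, hpU⟩ := (hfr.and_eventually (hev.and hU)).exists
    apply hp1
    have hpV := hch.right_inv p ⟨p.2, hpU⟩
    have ht : IsTangent Y (χ (π p)) (fderiv ℝ χ (π p) w) := (tan_iff hch hpV.1 _).2 ⟨w, rfl⟩
    rw [hpV.2] at ht
    rw [← hA]
    exact FixA_tan h ((hS p).1 hpS) ht
  have huniv : S = univ := by
    apply IsClopen.eq_univ ⟨hclosed, hopen⟩
    exact ⟨⟨z, hz⟩, (hS _).2 (fixa hY h hz h0 hcon)⟩
  obtain ⟨x, hx, t, ht⟩ := h.nontrivial
  have h1 : (⟨x, hx⟩ : Y) ∈ S := by rw [huniv]; trivial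
  have h1' : ∀ᶠ p : Y in 𝓝 (⟨x, hx⟩ : Y), VV g p = 0 := h1
  have h2 : VV g x = 0 := h1'.self_of_nhds
  exact ht ((act_fix h x).1 h2 t)

end Pool.Agent.CIR
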