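import Mathlib

/-! Module Glu (difficulty 2, Mathlib only): gluing vector fields with a partition of unity.

Proof.  Apply `exists_contMDiffMap_forall_mem_convex_of_local` (`Mathlib/Geometry/Manifold/PartitionOfUnity.lean`) with
`I = 𝓘(ℝ, EuclideanSpace ℝ (Fin m))`, `n = ∞` and the family `t' x = t x` for `x ∈ Y`, `univ` for `x ∉ Y` (convex; near
`x ∉ Y` take the function `0` on the open set `Yᶜ`; near `x ∈ Y` the given `f`), then multiply by a smooth function with
compact support which is `1` on `Y` (`exists_contDiff_tsupport_subset`/`exists_contMDiff_support_eq..`, or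
`ContDiffBump` centred at `0` with radii `R, R + 1`, `Y ⊆ ball 0 R`). -/

set_option autoImplicit false

namespace Pool.Agent.CIR

open Set Filter
open scoped Topology ContDiff Manifold

theorem glue {m : ℕ} {Y : Set (EuclideanSpace ℝ (Fin m))} (hY : IsCompact Y)
    (t : EuclideanSpace ℝ (Fin m) → Set (EuclideanSpace ℝ (Fin m))) (ht : ∀ x ∈ Y, Convex ℝ (t x))
    (hl : ∀ p ∈ Y, ∃ (U : Set (EuclideanSpace ℝ (Fin m)))
      (f : EuclideanSpace ℝ (Fin m) → EuclideanSpace ℝ (Fin m)), IsOpen U ∧ p ∈ U ∧ ContDiffOn ℝ ∞ f U ∧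
        ∀ x ∈ U, x ∈ Y → f x ∈ t x) :
    ∃ F : EuclideanSpace ℝ (Fin m) → EuclideanSpace ℝ (Fin m), ContDiff ℝ ∞ F ∧ HasCompactSupport F ∧
      ∀ x ∈ Y, F x ∈ t x := by
  classical
  let t' : EuclideanSpace ℝ (Fin m) → Set (EuclideanSpace ℝ (Fin m)) :=
    fun x => if x ∈ Y then t x else univ
  have e1 : ∀ x ∈ Y, t' x = t x := fun x hx => if_pos hx
  have e2 : ∀ x, x ∉ Y → t' x = univ := fun x hx => if_neg hx
  have ht' : ∀ x, Convex ℝ (t' x) := by
    intro x
    by_cases hx : x ∈ Y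
    · rw [e1 x hx]
      exact ht x hx
    · rw [e2 x hx]
      exact convex_univ
  have hloc : ∀ x, ∃ U ∈ 𝓝 x, ∃ g : EuclideanSpace ℝ (Fin m) → EuclideanSpace ℝ (Fin m),
      ContMDiffOn 𝓘(ℝ, EuclideanSpace ℝ (Fin m)) 𝓘(ℝ, EuclideanSpace ℝ (Fin m)) ∞ g U ∧
        ∀ y ∈ U, g y ∈ t' y := by
    intro x
    by_cases hx : x ∈ Y
    · obtain ⟨U, f, hU, hxU, hf, hft⟩ := hl x hx
      refine ⟨U, hU.mem_nhds hxU, f, hf.contMDiffOn, fun y hy => ?_⟩
      by_cases hyY : y ∈ Y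
      · rw [e1 y hyY]
        exact hft y hy hyY
      · rw [e2 y hyY]
        exact mem_univ _
    · refine ⟨Yᶜ, hY.isClosed.isOpen_compl.mem_nhds hx, fun _ => 0, contMDiffOn_const,
        fun y hy => ?_⟩
      rw [e2 y hy]
      exact mem_univ _
  obtain ⟨g, hg⟩ := exists_contMDiffMap_forall_mem_convex_of_local
    𝓘(ℝ, EuclideanSpace ℝ (Fin m)) (n := ⊤) ht' hloc
  obtain ⟨R, hR⟩ := hY.isBounded.subset_ball 0
  have hR1 : (0 : ℝ) < max R 1 := lt_max_of_lt_right one_pos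
  let φ : ContDiffBump (0 : EuclideanSpace ℝ (Fin m)) := ⟨max R 1, max R 1 + 1, hR1, by linarith⟩
  refine ⟨fun x => φ x • g x, φ.contDiff.smul g.contMDiff.contDiff,
    φ.hasCompactSupport.smul_right, fun x hx => ?_⟩
  have h1 : φ x = 1 := by
    apply φ.one_of_mem_closedBall
    have h2 := hR hx
    rw [Metric.mem_ball] at h2
    rw [Metric.mem_closedBall]
    exact h2.le.trans (le_max_left R 1)
  have h3 := hg x
  rw [e1 x hx] at h3
  change φ x • g x ∈ t x
  rw [h1, one_smul]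
  exact h3

end Pool.Agent.CIR
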