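import Pool.Agent.CIR.Act

/-! Module Inv (difficulty 2): consequences of the invariance of `lam`.

`inv_d`: differentiate `lam (g t x) (g t v) = lam x v` in `x` in the direction `u`: `fderiv lam (g t x) (g t u) (g t v)
= fderiv lam x u v`.  `inv_L`: differentiate `lam (g t x) (g t v) = lam x v` in `t` at `t = 0` (`act_der`, `act_zero`).
`inv_smooth`: `HH g lam x = lam x (A x)` with `A` from `act_lin`.  `inv_H`: the derivative of `x ↦ lam x (A x)` in the
direction `w` is `fderiv lam x w (A x) + lam x (A w)`, and `lam x (A w) = - fderiv lam x (A x) w` by `inv_L`.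
`inv_Hg`: `act_comm` and invariance. -/

set_option autoImplicit false

namespace Pool.Agent.CIR

open Set Filter
open scoped Topology ContDiff

variable {m : ℕ} {Y : Set (EE m)} {g : ℝ → EE m →ₗᵢ[ℝ] EE m} {lam : OneForm m}

theorem inv_has (hl : ContDiff ℝ ∞ lam) (x : EE m) : HasFDerivAt lam (fderiv ℝ lam x) x :=
  ((hl.differentiable (by simp)) x).hasFDerivAt

theorem inv_ap (hl : ContDiff ℝ ∞ lam) (x v : EE m) :
    HasFDerivAt (fun y => lam y v) ((fderiv ℝ lam x).flip v) x := by
  have h1 := inv_has hl x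
  have h2 := h1.clm_apply (hasFDerivAt_const v x)
  refine h2.congr_fderiv ?_
  ext u
  simp

theorem inv_fd (hl : ContDiff ℝ ∞ lam) (hi : IsInvariantForm g lam) (t : ℝ) (x u v : EE m) :
    fderiv ℝ lam (g t x) (g t u) (g t v) = fderiv ℝ lam x u v := by
  have h1 := inv_ap hl x v
  have h2 := inv_ap hl (g t x) (g t v)
  have h3 : HasFDerivAt (fun y => g t y) ((g t).toContinuousLinearMap) x :=
    (g t).toContinuousLinearMap.hasFDerivAt
  have h4 := h2.comp x h3
  have h5 : ((fun y => lam y (g t v)) ∘ fun y => g t y) = fun y => lam y v := by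
    funext y
    exact hi t y v
  rw [h5] at h4
  have h6 := h4.unique h1
  have h7 := DFunLike.congr_fun h6 u
  simpa using h7

theorem inv_d (hl : ContDiff ℝ ∞ lam) (hi : IsInvariantForm g lam) (t : ℝ) (x u v : EE m) :
    dForm lam (g t x) (g t u) (g t v) = dForm lam x u v := by
  unfold dForm
  rw [inv_fd hl hi, inv_fd hl hi]

theorem inv_L (h : IsCircleAction Y g) (hl : ContDiff ℝ ∞ lam) (hi : IsInvariantForm g lam) (x v : EE m) :
    fderiv ℝ lam x (VV g x) v + lam x (VV g v) = 0 := by
  have h1 := act_der h 0 x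
  have h2 := act_der h 0 v
  rw [act_zero h] at h1 h2
  have h3 : HasDerivAt (fun s => lam (g s x)) (fderiv ℝ lam x (VV g x)) 0 := by
    have h4 : HasFDerivAt lam (fderiv ℝ lam x) (g 0 x) := by
      rw [act_zero h]
      exact inv_has hl x
    exact h4.comp_hasDerivAt (0 : ℝ) h1
  have h5 := h3.clm_apply h2
  have h6 : (fun s => (lam (g s x)) (g s v)) = fun _ => lam x v := by
    funext s
    exact hi s x v
  rw [h6, act_zero h, act_zero h] at h5
  exact h5.unique (hasDerivAt_const _ _)

theorem inv_smooth (h : IsCircleAction Y g) (hl : ContDiff ℝ ∞ lam) : ContDiff ℝ ∞ (HH g lam) := by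
  obtain ⟨A, hA⟩ := act_lin h
  have h1 : HH g lam = fun x => lam x (A x) := by
    funext x
    unfold HH
    rw [hA]
  rw [h1]
  exact hl.clm_apply A.contDiff

theorem inv_H (h : IsCircleAction Y g) (hl : ContDiff ℝ ∞ lam) (hi : IsInvariantForm g lam) (x w : EE m) :
    fderiv ℝ (HH g lam) x w = - dForm lam x (VV g x) w := by
  obtain ⟨A, hA⟩ := act_lin h
  have h1 : HH g lam = fun x => lam x (A x) := by
    funext x
    unfold HH
    rw [hA]
  have h2 := (inv_has hl x).clm_apply A.hasFDerivAt
  rw [h1, h2.fderiv]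
  have h3 := inv_L h hl hi x w
  unfold dForm
  rw [hA] at h3 ⊢
  rw [hA] at h3
  simp only [add_apply, ContinuousLinearMap.comp_apply,
    ContinuousLinearMap.flip_apply]
  linarith

theorem inv_Hg (h : IsCircleAction Y g) (hi : IsInvariantForm g lam) (t : ℝ) (x : EE m) :
    HH g lam (g t x) = HH g lam x := by
  unfold HH
  rw [act_comm h, hi]

end Pool.Agent.CIR
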