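import Pool.Agent.CIR.Ree
import Pool.Agent.CIR.Glu
import Pool.Agent.CIR.Inv

/-! Module Fld (difficulty 3): the two vector fields.

`crt_iff`: `inv_H`: `fderiv (HH g lam) x w = - dForm lam x (VV g x) w`.  (⇒) `VV g x = c • r`, `r` the Reeb vector:
`dForm lam x (c • r) w = c * dForm lam x r w = 0`.  (⇐) `reeb_ker` with `v = VV g x` (`tan_V`), `c = lam x (VV g x)`.
`fld_reeb`: `glue` with `t x = {v | IsReebVector Y lam x v}` (a subsingleton by `reeb_unique`, so convex); near `p ∈ Y`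
with chart `U, V, χ, π`: the set `U ∩ π ⁻¹' V` is open (`ContDiffOn.continuousOn`, `ContinuousOn.isOpen_inter_preimage`), `f = r ∘ π`, `r` from `reeb_local`.
`fld_grad`: `glue` with `t x = {v | IsTangent Y x v ∧ (x ∈ Crt → v = 0) ∧ (x ∉ Crt → 0 < fderiv (HH g lam) x v)}` (convex:
`tan_add`, `tan_smul`); near `p`: `f = w ∘ π` with `w y = ∑ i, (fderiv ℝ (HH g lam ∘ χ) y e_i) • fderiv ℝ χ y e_i`
(smooth on `V`); for `x = χ y ∈ Y`: `w y` is tangent, `fderiv (HH g lam) x (w y) = ∑ i, (fderiv (HH ∘ χ) y e_i)^2`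
(chain rule); it is `0` iff `fderiv (HH ∘ χ) y = 0` iff `fderiv HH x` vanishes on all tangent vectors (`tan_iff`)
iff `x ∈ Crt` (`crt_iff`), and then `w y = 0`. -/

set_option autoImplicit false

namespace Pool.Agent.CIR

open Set Filter
open scoped Topology ContDiff

variable {m : ℕ} {Y : Set (EE m)} {g : ℝ → EE m →ₗᵢ[ℝ] EE m} {lam : OneForm m}

theorem crt_iff (D : Dat Y g lam) {x : EE m} (hx : x ∈ Y) :
    x ∈ Crt Y g lam ↔ ∀ w, IsTangent Y x w → fderiv ℝ (HH g lam) x w = 0 := by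
  constructor
  · rintro ⟨-, v, c, hv, he⟩ w hw
    rw [inv_H D.act D.con.1 D.inv, he]
    have h1 : dForm lam x (c • v) w = c * dForm lam x v w := by
      unfold dForm
      simp only [map_smul, ContinuousLinearMap.smul_apply, smul_eq_mul]
      ring
    rw [h1, hv.2.2 w hw, mul_zero, neg_zero]
  · intro h
    obtain ⟨r, hr⟩ := reeb_exists D.mfd D.con hx
    refine ⟨hx, r, lam x (VV g x), hr, reeb_ker D.mfd D.con hx hr (tan_V D.act hx) fun w hw => ?_⟩
    have h1 := h w hw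
    rw [inv_H D.act D.con.1 D.inv] at h1
    exact neg_eq_zero.1 h1

theorem fld_reeb (D : Dat Y g lam) : ∃ X : EE m → EE m, ContDiff ℝ ∞ X ∧ HasCompactSupport X ∧
    ∀ x ∈ Y, IsReebVector Y lam x (X x) := by
  refine glue D.mfd.compact (fun x => {v | IsReebVector Y lam x v}) (fun x hx => ?_) (fun p hp => ?_)
  · have hs : Set.Subsingleton {v | IsReebVector Y lam x v} :=
      fun v hv v' hv' => reeb_unique D.mfd D.con hx hv hv'
    exact hs.convex
  · obtain ⟨U, V, χ, π, hpU, hch⟩ := D.mfd.chart p hp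
    obtain ⟨r, hr, hrR⟩ := reeb_local D.con hch
    refine ⟨U ∩ π ⁻¹' V, r ∘ π, hch.smooth_π.continuousOn.isOpen_inter_preimage hch.open_U hch.open_V,
      ⟨hpU, (hch.right_inv p ⟨hp, hpU⟩).1⟩, hr.comp (hch.smooth_π.mono inter_subset_left)
        (fun x hx => hx.2), fun x hx hxY => ?_⟩
    have h1 := hrR (π x) hx.2
    rw [(hch.right_inv x ⟨hxY, hx.1⟩).2] at h1
    exact h1

/-- the standard basis of `ℝ³` -/
noncomputable def Fld_e (i : Fin 3) : EE 3 := EuclideanSpace.basisFun (Fin 3) ℝ i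

theorem Fld_ext (L : EE 3 →L[ℝ] ℝ) (h : ∀ i, L (Fld_e i) = 0) (v : EE 3) : L v = 0 := by
  rw [← (EuclideanSpace.basisFun (Fin 3) ℝ).sum_repr v, map_sum]
  refine Finset.sum_eq_zero fun i _ => ?_
  rw [map_smul]
  have h1 := h i
  unfold Fld_e at h1
  rw [h1, smul_zero]

/-- the local gradient -/
noncomputable def Fld_w (F : EE m → ℝ) (χ : EE 3 → EE m) (y : EE 3) : EE m :=
  ∑ i, (fderiv ℝ (F ∘ χ) y (Fld_e i)) • fderiv ℝ χ y (Fld_e i)

theorem Fld_smooth {U : Set (EE m)} {V : Set (EE 3)} {χ : EE 3 → EE m} {π : EE m → EE 3}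
    (h : IsChart Y U V χ π) {F : EE m → ℝ} (hF : ContDiff ℝ ∞ F) : ContDiffOn ℝ ∞ (Fld_w F χ) V := by
  have h1 : ContDiffOn ℝ ∞ (fderiv ℝ χ) V := h.smooth_χ.fderiv_of_isOpen h.open_V (by exact le_rfl)
  have h2 : ContDiffOn ℝ ∞ (F ∘ χ) V := hF.comp_contDiffOn h.smooth_χ
  have h3 : ContDiffOn ℝ ∞ (fderiv ℝ (F ∘ χ)) V := h2.fderiv_of_isOpen h.open_V (by exact le_rfl)
  unfold Fld_w
  refine ContDiffOn.sum fun i _ => ?_
  exact (h3.clm_apply contDiffOn_const).smul (h1.clm_apply contDiffOn_const)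

theorem Fld_chain {U : Set (EE m)} {V : Set (EE 3)} {χ : EE 3 → EE m} {π : EE m → EE 3}
    (h : IsChart Y U V χ π) {F : EE m → ℝ} (hF : ContDiff ℝ ∞ F) {y : EE 3} (hy : y ∈ V) (v : EE 3) :
    fderiv ℝ (F ∘ χ) y v = fderiv ℝ F (χ y) (fderiv ℝ χ y v) := by
  have h1 : DifferentiableAt ℝ χ y :=
    ((h.smooth_χ.contDiffAt (h.open_V.mem_nhds hy)).differentiableAt (by simp))
  have h2 : DifferentiableAt ℝ F (χ y) := (hF.differentiable (by simp)).differentiableAt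
  rw [fderiv_comp y h2 h1]
  rfl

theorem Fld_val {U : Set (EE m)} {V : Set (EE 3)} {χ : EE 3 → EE m} {π : EE m → EE 3}
    (h : IsChart Y U V χ π) {F : EE m → ℝ} (hF : ContDiff ℝ ∞ F) {y : EE 3} (hy : y ∈ V) :
    fderiv ℝ F (χ y) (Fld_w F χ y) = ∑ i, (fderiv ℝ (F ∘ χ) y (Fld_e i)) ^ 2 := by
  unfold Fld_w
  rw [map_sum]
  refine Finset.sum_congr rfl fun i _ => ?_
  rw [map_smul, ← Fld_chain h hF hy, smul_eq_mul, sq]

theorem fld_grad (D : Dat Y g lam) : ∃ W : EE m → EE m, ContDiff ℝ ∞ W ∧ HasCompactSupport W ∧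
    ∀ x ∈ Y, IsTangent Y x (W x) ∧ (x ∈ Crt Y g lam → W x = 0) ∧
      (x ∉ Crt Y g lam → 0 < fderiv ℝ (HH g lam) x (W x)) := by
  have hF : ContDiff ℝ ∞ (HH g lam) := inv_smooth D.act D.con.1
  refine glue D.mfd.compact (fun x => {v | IsTangent Y x v ∧ (x ∈ Crt Y g lam → v = 0) ∧
      (x ∉ Crt Y g lam → 0 < fderiv ℝ (HH g lam) x v)}) (fun x hx => ?_) (fun p hp => ?_)
  · rintro u ⟨hu1, hu2, hu3⟩ v ⟨hv1, hv2, hv3⟩ a b ha hb hab
    refine ⟨tan_add D.mfd hx (tan_smul D.mfd hx a hu1) (tan_smul D.mfd hx b hv1), fun hc => ?_, fun hc => ?_⟩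
    · rw [hu2 hc, hv2 hc, smul_zero, smul_zero, add_zero]
    · have h1 := hu3 hc
      have h2 := hv3 hc
      rw [map_add, map_smul, map_smul, smul_eq_mul, smul_eq_mul]
      rcases ha.lt_or_eq with h3 | h3
      · have := mul_pos h3 h1
        have := mul_nonneg hb h2.le
        linarith
      · have hb1 : b = 1 := by linarith
        rw [← h3, hb1]
        linarith
  · obtain ⟨U, V, χ, π, hpU, hch⟩ := D.mfd.chart p hp
    refine ⟨U ∩ π ⁻¹' V, Fld_w (HH g lam) χ ∘ π,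
      hch.smooth_π.continuousOn.isOpen_inter_preimage hch.open_U hch.open_V,
      ⟨hpU, (hch.right_inv p ⟨hp, hpU⟩).1⟩, (Fld_smooth hch hF).comp (hch.smooth_π.mono inter_subset_left)
        (fun x hx => hx.2), fun x hx hxY => ?_⟩
    obtain ⟨hy, hxe⟩ := hch.right_inv x ⟨hxY, hx.1⟩
    obtain ⟨y, hyd⟩ : ∃ y, y = π x := ⟨_, rfl⟩
    show IsTangent Y x (Fld_w (HH g lam) χ (π x)) ∧ (x ∈ Crt Y g lam → Fld_w (HH g lam) χ (π x) = 0) ∧
      (x ∉ Crt Y g lam → 0 < fderiv ℝ (HH g lam) x (Fld_w (HH g lam) χ (π x)))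
    rw [← hyd] at hy hxe ⊢
    subst hxe
    have htan : ∀ v, IsTangent Y (χ y) (fderiv ℝ χ y v) := fun v => (tan_iff hch hy _).2 ⟨v, rfl⟩
    refine ⟨?_, fun hc => ?_, fun hc => ?_⟩
    · refine (tan_iff hch hy _).2 ⟨∑ i, (fderiv ℝ (HH g lam ∘ χ) y (Fld_e i)) • Fld_e i, ?_⟩
      unfold Fld_w
      rw [map_sum]
      refine Finset.sum_congr rfl fun i _ => ?_
      rw [map_smul]
    · unfold Fld_w
      refine Finset.sum_eq_zero fun i _ => ?_
      rw [Fld_chain hch hF hy, (crt_iff D hxY).1 hc _ (htan _), zero_smul]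
    · rw [Fld_val hch hF hy]
      by_contra hn
      apply hc
      have hz : ∀ i, fderiv ℝ (HH g lam ∘ χ) y (Fld_e i) = 0 := by
        have h1 : ∑ i, (fderiv ℝ (HH g lam ∘ χ) y (Fld_e i)) ^ 2 = 0 :=
          le_antisymm (not_lt.1 hn) (Finset.sum_nonneg fun i _ => sq_nonneg _)
        intro i
        have h2 := (Finset.sum_eq_zero_iff_of_nonneg fun i _ => sq_nonneg _).1 h1 i (Finset.mem_univ i)
        exact pow_eq_zero_iff (two_ne_zero) |>.1 h2
      refine (crt_iff D hxY).2 fun w hw => ?_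
      obtain ⟨v, rfl⟩ := (tan_iff hch hy _).1 hw
      rw [← Fld_chain hch hF hy]
      exact Fld_ext _ hz v

end Pool.Agent.CIR
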