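import Pool.Agent.CIR.Tan

/-! Module Imm (difficulty 2): a linear map which is injective on the tangent space at `z` is injective on `Y` near `z`.

Proof.  Chart `U, V, χ, π` at `z`, `y₀ = π z`.  `L ∘ χ` is `C^∞` near `y₀` with derivative `L ∘ fderiv χ y₀` at `y₀`,
which is injective: `L (fderiv χ y₀ w) = 0`, `fderiv χ y₀ w` is tangent (`tan_iff`), so it is `0`, so `w = 0`
(`tan_comp`).  A map which is strictly differentiable at `y₀` with injective derivative (finite dimension, so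
antilipschitz: `LinearMap.exists_antilipschitzWith`, `ContinuousLinearMap`) is injective near `y₀`
(`HasStrictFDerivAt.approximates_deriv_on_nhds` with a small constant and
`ApproximatesLinearOn.injOn`-type estimate: `‖f x - f x'‖ ≥ ‖f' (x - x')‖ - c ‖x - x'‖`).  For `x, x' ∈ Y` near `z`:
`x = χ (π x)`; `L x = L x'` gives `π x = π x'`. -/

set_option autoImplicit false

namespace Pool.Agent.CIR

open Set Filter
open scoped Topology ContDiff

variable {m : ℕ} {Y : Set (EE m)}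

theorem imm (hY : IsClosedThreeManifold Y) {z : EE m} (hz : z ∈ Y) {F : Type} [NormedAddCommGroup F]
    [NormedSpace ℝ F] (L : EE m →L[ℝ] F) (hL : ∀ v, IsTangent Y z v → L v = 0 → v = 0) :
    ∃ r : ℝ, 0 < r ∧ ∀ x ∈ Y, ∀ x' ∈ Y, dist x z < r → dist x' z < r → L x = L x' → x = x' := by
  obtain ⟨U, V, χ, π, hzU, h⟩ := hY.chart z hz
  obtain ⟨hyV, hχ⟩ := h.right_inv z ⟨hz, hzU⟩
  set y₀ := π z with hy₀
  have hcd : ContDiffAt ℝ ∞ χ y₀ := h.smooth_χ.contDiffAt (h.open_V.mem_nhds hyV)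
  have hsd : HasStrictFDerivAt χ (fderiv ℝ χ y₀) y₀ := hcd.hasStrictFDerivAt (by simp)
  have hLsd : HasStrictFDerivAt (fun y => L (χ y)) (L.comp (fderiv ℝ χ y₀)) y₀ :=
    L.hasStrictFDerivAt.comp y₀ hsd
  have hinj : LinearMap.ker ((L.comp (fderiv ℝ χ y₀)) : EE 3 →ₗ[ℝ] F) = ⊥ := by
    rw [LinearMap.ker_eq_bot']
    intro w hw
    have hw' : L (fderiv ℝ χ y₀ w) = 0 := hw
    have ht : IsTangent Y z (fderiv ℝ χ y₀ w) := by
      have := (tan_iff h hyV (fderiv ℝ χ y₀ w)).2 ⟨w, rfl⟩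
      rwa [hχ] at this
    have h0 := hL _ ht hw'
    have := tan_comp h hyV w
    rw [h0, map_zero] at this
    exact this.symm
  obtain ⟨K, hK, hanti⟩ := LinearMap.exists_antilipschitzWith _ hinj
  obtain ⟨s, hs, happ⟩ := hLsd.approximates_deriv_on_nhds (c := (2 * K)⁻¹)
    (Or.inr (by positivity))
  have hπc : ContinuousAt π z := (h.smooth_π.contDiffAt (h.open_U.mem_nhds hzU)).continuousAt
  have hN : U ∩ π ⁻¹' s ∈ 𝓝 z := Filter.inter_mem (h.open_U.mem_nhds hzU) (hπc hs)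
  obtain ⟨r, hr, hball⟩ := Metric.mem_nhds_iff.1 hN
  refine ⟨r, hr, fun x hx x' hx' hd hd' he => ?_⟩
  obtain ⟨hxU, hxs⟩ := hball hd
  obtain ⟨hxU', hxs'⟩ := hball hd'
  obtain ⟨-, e1⟩ := h.right_inv x ⟨hx, hxU⟩
  obtain ⟨-, e2⟩ := h.right_inv x' ⟨hx', hxU'⟩
  have h1 := happ (π x) hxs (π x') hxs'
  beta_reduce at h1
  rw [e1, e2, he, sub_self, zero_sub, norm_neg] at h1
  have h2 : ‖π x - π x'‖ ≤ K * ‖(L.comp (fderiv ℝ χ y₀)) (π x - π x')‖ := by
    have := hanti.le_mul_dist (π x - π x') 0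
    rw [map_zero, dist_zero_right, dist_zero_right] at this
    exact this
  have hKp : (0 : ℝ) < K := by exact_mod_cast hK
  have h3 : ((2 * K)⁻¹ : NNReal) = ((2 * (K : ℝ))⁻¹ : ℝ) := by push_cast; rfl
  rw [h3] at h1
  have h4 : ‖π x - π x'‖ ≤ K * ((2 * (K : ℝ))⁻¹ * ‖π x - π x'‖) :=
    h2.trans (mul_le_mul_of_nonneg_left h1 hKp.le)
  have h5 : (K : ℝ) * ((2 * (K : ℝ))⁻¹ * ‖π x - π x'‖) = ‖π x - π x'‖ / 2 := by
    field_simp
  rw [h5] at h4
  have h6 : ‖π x - π x'‖ = 0 := le_antisymm (by linarith) (norm_nonneg _)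
  have h7 : π x = π x' := sub_eq_zero.1 (norm_eq_zero.1 h6)
  rw [← e1, ← e2, h7]

end Pool.Agent.CIR
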