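import Pool.Agent.CIR.Pof

/-! Module Irr (difficulty 1): returns have irrational rotation.

Proof.  If `b = p / q`, `q` a positive integer, then `bas_pow` with `n = q` gives `φ (q a) (g p z) = z`, so `φ (q a) z = z`
(`bas_gint`); `q a ≠ 0`; with the inverse if necessary there is `T > 0` with `φ T z = z`, and `po_inf` contradicts `hf`. -/

set_option autoImplicit false

namespace Pool.Agent.CIR

open Set Filter
open scoped Topology

variable {M : Type} [MetricSpace M] [CompactSpace M] {φ ψ g : ℝ → M → M} {H : M → ℝ} {Cr : Set M}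

theorem irr (S : Sys φ ψ g H Cr) (hf : {O | IsPO φ O}.Finite) {z : M} (hz : z ∉ Cr) {a b : ℝ}
    (ha : a ≠ 0) (h : φ a (g b z) = z) : Irrational b := by
  rintro ⟨r, hr⟩
  have hq : (0 : ℝ) < (r.den : ℝ) := by exact_mod_cast r.den_pos
  have hqb : ((r.den : ℤ) : ℝ) * b = ((r.num : ℤ) : ℝ) := by
    rw [← hr, Int.cast_natCast]
    have h1 : (r : ℝ) = (r.num : ℝ) / (r.den : ℝ) := Rat.cast_def r
    rw [h1]
    field_simp
  have h2 := bas_pow S h (r.den : ℤ)
  rw [hqb, bas_gint S] at h2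
  have h3 : ((r.den : ℤ) : ℝ) * a ≠ 0 := by
    rw [Int.cast_natCast]
    exact mul_ne_zero hq.ne' ha
  obtain ⟨T, hT, hTz⟩ : ∃ T : ℝ, 0 < T ∧ φ T z = z := by
    rcases lt_or_gt_of_ne h3 with h4 | h4
    · refine ⟨-(((r.den : ℤ) : ℝ) * a), neg_pos.2 h4, ?_⟩
      have h5 := bas_pinv S (((r.den : ℤ) : ℝ) * a) z
      rw [h2] at h5
      exact h5
    · exact ⟨_, h4, h2⟩
  exact (po_inf S hz hT hTz) hf

end Pool.Agent.CIR
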