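import Pool.Agent.CIR.Var
import Pool.Agent.CIR.Cmm

/-! Module LamI (difficulty 2): the Reeb flow preserves `lam` (along curves in `Y`).

Let `J` be given by `var`, `x t = φ t (c u₀)`.  The curve `u ↦ φ t (c u)` is in `Y` near `u₀` (`prs`), so `J t` is tangent
at `x t` (`tan_curve`).  The derivative of `t ↦ lam (x t) (J t)` is
`fderiv lam (x t) (X (x t)) (J t) + lam (x t) (fderiv X (x t) (J t))`.  It is `0`: `dForm lam (x t) (X (x t)) (J t) = 0`
(Reeb vector), i.e. `fderiv lam x (X x) (J) = fderiv lam x J (X x)`; and `u ↦ lam (φ t (c u)) (X (φ t (c u)))` is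
constantly `1` near `u₀`, so its derivative `fderiv lam x J (X x) + lam x (fderiv X x J)` is `0`.  So
`lam (x t) (J t) = lam (x 0) (J 0)`. -/

set_option autoImplicit false

namespace Pool.Agent.CIR

open Set Filter
open scoped Topology ContDiff

variable {m : ℕ} {Y : Set (EE m)} {g : ℝ → EE m →ₗᵢ[ℝ] EE m} {lam : OneForm m} {X : EE m → EE m}
  {φ : ℝ → EE m → EE m}

theorem lam_inv (D : Dat Y g lam) (hX : ContDiff ℝ ∞ X) (hs : HasCompactSupport X)
    (hR : ∀ x ∈ Y, IsReebVector Y lam x (X x)) (hφ : IsFlow X φ) {c : ℝ → EE m} {u₀ : ℝ} {v : EE m}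
    (hcY : ∀ᶠ u in 𝓝 u₀, c u ∈ Y) (hc : HasDerivAt c v u₀) (t : ℝ) :
    ∃ J, HasDerivAt (fun u => φ t (c u)) J u₀ ∧ lam (φ t (c u₀)) J = lam (c u₀) v := by
  obtain ⟨J, hJ0, hJ1, hJ2⟩ := var hX hs hφ hc
  refine ⟨J t, hJ1 t, ?_⟩
  have hlam : Differentiable ℝ lam := D.con.1.differentiable (by simp)
  have hXd : Differentiable ℝ X := hX.differentiable (by simp)
  have hY : ∀ s, ∀ᶠ u in 𝓝 u₀, φ s (c u) ∈ Y := by
    intro s
    filter_upwards [hcY] with u hu
    exact prs D.mfd.compact hX hs (fun x hx => (hR x hx).1) hφ hu s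
  have hder : ∀ s, HasDerivAt (fun s => lam (φ s (c u₀)) (J s)) 0 s := by
    intro s
    have hxs : φ s (c u₀) ∈ Y := (hY s).self_of_nhds
    have h1 : HasDerivAt (fun s => φ s (c u₀)) (X (φ s (c u₀))) s := hφ.der _ s
    have h2 : HasDerivAt (fun s => lam (φ s (c u₀)))
        (fderiv ℝ lam (φ s (c u₀)) (X (φ s (c u₀)))) s :=
      (hlam (φ s (c u₀))).hasFDerivAt.comp_hasDerivAt s h1
    have h3 := h2.clm_apply (hJ2 s)
    have ht : IsTangent Y (φ s (c u₀)) (J s) := tan_curve (γ := fun u => φ s (c u)) (hY s) (hJ1 s)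
    have h4 := (hR _ hxs).2.2 (J s) ht
    unfold dForm at h4
    have h5 : HasDerivAt (fun u => lam (φ s (c u)))
        (fderiv ℝ lam (φ s (c u₀)) (J s)) u₀ :=
      (hlam (φ s (c u₀))).hasFDerivAt.comp_hasDerivAt u₀ (hJ1 s)
    have h6 : HasDerivAt (fun u => X (φ s (c u)))
        (fderiv ℝ X (φ s (c u₀)) (J s)) u₀ :=
      (hXd (φ s (c u₀))).hasFDerivAt.comp_hasDerivAt u₀ (hJ1 s)
    have h7 := h5.clm_apply h6
    have h8 : HasDerivAt (fun u => lam (φ s (c u)) (X (φ s (c u)))) 0 u₀ := by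
      apply (hasDerivAt_const u₀ (1 : ℝ)).congr_of_eventuallyEq
      filter_upwards [hY s] with u hu
      exact (hR _ hu).2.1
    have h9 := h7.unique h8
    have h10 : ((fderiv ℝ lam (φ s (c u₀))) (X (φ s (c u₀)))) (J s) +
        (lam (φ s (c u₀))) ((fderiv ℝ X (φ s (c u₀))) (J s)) = 0 := by
      rw [sub_eq_zero.1 h4]
      exact h9
    rw [h10] at h3
    exact h3
  have hconst := is_const_of_deriv_eq_zero (f := fun s => lam (φ s (c u₀)) (J s))
    (fun s => (hder s).differentiableAt) (fun s => (hder s).deriv) t 0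
  have h0 : lam (φ 0 (c u₀)) (J 0) = lam (c u₀) v := by rw [hφ.zero, hJ0]
  exact hconst.trans h0

end Pool.Agent.CIR
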