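import Pool.Agent.CIR.Uni
import Pool.Agent.CIR.Irr

/-! Module Lc (difficulty 2): if there are finitely many closed orbits, a return `φ_a g_b z = z` (`a ≠ 0`, `z` not critical) is
locally constant: `φ_a g_b x = x` for all `x` near `z`.

Proof.  `uni` with `δ = |a|`, gives `r, α, β`.  The set `O = ball z r ∩ Crᶜ` is a neighbourhood of `z`; `S.rig z O` gives
a preconnected `N ⊆ O`.  For `x ∈ N`: `a + α x ≠ 0`, so `b + β x` is irrational (`irr`).  The image of `N` under
`x ↦ b + β x` is preconnected (`ContinuousOn`) and consists of irrational numbers, so it is a subsingleton (between two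
different reals there is a rational: `IsPreconnected` sets in `ℝ` are `OrdConnected`, `exists_rat_btwn`); since
`β z = 0` we get `β = 0` on `N`.  Now the last property of `N` with `b` and `τ = a + α` gives `α x = α z = 0` on `N`. -/

set_option autoImplicit false

namespace Pool.Agent.CIR

open Set Filter
open scoped Topology

variable {M : Type} [MetricSpace M] [CompactSpace M] {φ ψ g : ℝ → M → M} {H : M → ℝ} {Cr : Set M}

theorem lc (S : Sys φ ψ g H Cr) (hf : {O | IsPO φ O}.Finite) {z : M} (hz : z ∉ Cr) {a b : ℝ}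
    (ha : a ≠ 0) (h : φ a (g b z) = z) : ∀ᶠ x in 𝓝 z, φ a (g b x) = x := by
  obtain ⟨r, α, β, hr, ha0, hb0, hca, hcb, hu⟩ := uni S hz h (abs_pos.2 ha)
  have hO : Metric.ball z r ∩ Crᶜ ∈ 𝓝 z :=
    Filter.inter_mem (Metric.ball_mem_nhds z hr) (S.cl.isOpen_compl.mem_nhds hz)
  obtain ⟨N, hNO, hN, hNp, hNr⟩ := S.rig z hz _ hO
  have hzN : z ∈ N := mem_of_mem_nhds hN
  have hsub : N ⊆ Metric.ball z r := fun y hy => (hNO hy).1
  have hirr : ∀ x ∈ N, Irrational (b + β x) := by
    intro x hx
    obtain ⟨hx1, hx2⟩ := hNO hx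
    obtain ⟨h1, -, h3⟩ := hu x hx1
    refine irr S hf hx2 ?_ h3
    intro h0
    have h4 : α x = -a := by linarith
    rw [h4, abs_neg] at h1
    exact lt_irrefl _ h1
  have hβ : ∀ x ∈ N, β x = 0 := by
    intro x hx
    by_contra hne
    have himg : IsPreconnected ((fun x => b + β x) '' N) :=
      hNp.image _ (continuousOn_const.add (hcb.mono hsub))
    have hoc := himg.ordConnected
    have m1 : b + β x ∈ (fun x => b + β x) '' N := ⟨x, hx, rfl⟩
    have m2 : b + β z ∈ (fun x => b + β x) '' N := ⟨z, hzN, rfl⟩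
    have hne' : b + β x ≠ b + β z := by
      rw [hb0]
      intro h5
      exact hne (by linarith)
    rcases lt_or_gt_of_ne hne' with hlt | hlt
    · obtain ⟨q, hq1, hq2⟩ := exists_rat_btwn hlt
      obtain ⟨y, hy, hye⟩ := hoc.out m1 m2 ⟨hq1.le, hq2.le⟩
      exact hirr y hy ⟨q, hye.symm⟩
    · obtain ⟨q, hq1, hq2⟩ := exists_rat_btwn hlt
      obtain ⟨y, hy, hye⟩ := hoc.out m2 m1 ⟨hq1.le, hq2.le⟩
      exact hirr y hy ⟨q, hye.symm⟩
  have hα := hNr b (fun x => a + α x) (continuousOn_const.add (hca.mono hsub)) (fun x hx => by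
    have h3 := (hu x (hsub hx)).2.2
    rw [hβ x hx, add_zero] at h3
    exact h3)
  filter_upwards [hN] with x hx
  have h1 : a + α x = a + α z := hα x hx
  have h3 := (hu x (hsub hx)).2.2
  rw [hβ x hx, add_zero, h1, ha0, add_zero] at h3
  exact h3

end Pool.Agent.CIR
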