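import Mathlib

/-! Module Lin (difficulty 1, Mathlib only): linear algebra in dimension 3.  `l` is a linear form, `ω` an alternating bilinear map
(given as `ω u v = B u v - B v u`), `e 0, e 1, e 2` three vectors, `D = (l ∧ ω) (e 0, e 1, e 2)`.
All statements are polynomial identities in the numbers `l (e i)`, `B (e i) (e j)`, `c i` (expand with `map_add`,
`map_smul`, then `field_simp; ring` or `linear_combination`).  `lin_ker`: `ω (v, e j) = 0` for `j = 0, 1, 2` says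
`c 1 ω₀₁ = - c 2 ω₀₂ ..`, so `c i D = l v * (i-th coefficient)`: e.g. for `i = 0`:
`c 0 * D = c 0 l₀ ω₁₂ + c 0 l₁ ω₂₀ + c 0 l₂ ω₀₁ = l₀ c 0 ω₁₂ + l₁ c 1 ω₁₂ + l₂ c 2 ω₁₂`. -/

set_option autoImplicit false

namespace Pool.Agent.CIR

variable {E : Type} [NormedAddCommGroup E] [NormedSpace ℝ E]

/-- `u ∧ v ↦ B u v - B v u` -/
noncomputable def alt (B : E →L[ℝ] E →L[ℝ] ℝ) (u v : E) : ℝ := B u v - B v u

/-- `(l ∧ ω) (e 0, e 1, e 2)` -/
noncomputable def linD (l : E →L[ℝ] ℝ) (B : E →L[ℝ] E →L[ℝ] ℝ) (e : Fin 3 → E) : ℝ :=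
  l (e 0) * alt B (e 1) (e 2) + l (e 1) * alt B (e 2) (e 0) + l (e 2) * alt B (e 0) (e 1)

/-- the Reeb vector -/
noncomputable def linR (l : E →L[ℝ] ℝ) (B : E →L[ℝ] E →L[ℝ] ℝ) (e : Fin 3 → E) : E :=
  (linD l B e)⁻¹ • (alt B (e 1) (e 2) • e 0 + alt B (e 2) (e 0) • e 1 + alt B (e 0) (e 1) • e 2)

theorem lin_one (l : E →L[ℝ] ℝ) (B : E →L[ℝ] E →L[ℝ] ℝ) (e : Fin 3 → E) (h : linD l B e ≠ 0) :
    l (linR l B e) = 1 := by
  have h1 : l (linR l B e) = (linD l B e)⁻¹ * linD l B e := by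
    simp only [linR, linD, map_add, map_smul, smul_eq_mul]
    ring
  rw [h1, inv_mul_cancel₀ h]

theorem lin_zero (l : E →L[ℝ] ℝ) (B : E →L[ℝ] E →L[ℝ] ℝ) (e : Fin 3 → E) (c : Fin 3 → ℝ) :
    alt B (linR l B e) (c 0 • e 0 + c 1 • e 1 + c 2 • e 2) = 0 := by
  simp only [linR, alt, map_add, map_smul, add_apply,
    smul_apply, smul_eq_mul]
  ring

theorem lin_ker (l : E →L[ℝ] ℝ) (B : E →L[ℝ] E →L[ℝ] ℝ) (e : Fin 3 → E) (h : linD l B e ≠ 0)
    (c : Fin 3 → ℝ) (hc : ∀ i, alt B (c 0 • e 0 + c 1 • e 1 + c 2 • e 2) (e i) = 0) :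
    c 0 • e 0 + c 1 • e 1 + c 2 • e 2 = l (c 0 • e 0 + c 1 • e 1 + c 2 • e 2) • linR l B e := by
  have h0 := hc 0
  have h1 := hc 1
  have h2 := hc 2
  simp only [alt, map_add, map_smul, add_apply,
    smul_apply, smul_eq_mul] at h0 h1 h2
  have key : linD l B e • (c 0 • e 0 + c 1 • e 1 + c 2 • e 2) =
      l (c 0 • e 0 + c 1 • e 1 + c 2 • e 2) • (alt B (e 1) (e 2) • e 0 + alt B (e 2) (e 0) • e 1 +
        alt B (e 0) (e 1) • e 2) := by
    have k0 : linD l B e * c 0 = l (c 0 • e 0 + c 1 • e 1 + c 2 • e 2) * alt B (e 1) (e 2) := by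
      simp only [linD, alt, map_add, map_smul, smul_eq_mul]
      linear_combination (l (e 2)) * h1 - l (e 1) * h2
    have k1 : linD l B e * c 1 = l (c 0 • e 0 + c 1 • e 1 + c 2 • e 2) * alt B (e 2) (e 0) := by
      simp only [linD, alt, map_add, map_smul, smul_eq_mul]
      linear_combination (l (e 0)) * h2 - l (e 2) * h0
    have k2 : linD l B e * c 2 = l (c 0 • e 0 + c 1 • e 1 + c 2 • e 2) * alt B (e 0) (e 1) := by
      simp only [linD, alt, map_add, map_smul, smul_eq_mul]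
      linear_combination (l (e 1)) * h0 - l (e 0) * h1
    simp only [smul_add, smul_smul, k0, k1, k2]
  rw [linR, smul_comm, ← key, smul_smul, inv_mul_cancel₀ h, one_smul]

end Pool.Agent.CIR
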