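import Pool.Agent.CIR.Glo

/-! Module Orb (difficulty 3): all non-critical points are of the form `φ_c g_d ψ_s x`, `x` a fixed non-critical point.

`red` (reduction): given `φ a (g b y) = y` for all `y` (`a > 0`), every `φ_s g_t` is equal to some `φ_c g_d` with
`c ∈ [0, a]`, `d ∈ [0, 1]` : `n = ⌊s / a⌋`, `φ (n a) (g (n b)) = id` (`bas_pow`), so `φ_s g_t = φ_(s - n a) g_(t - n b)`,
and `t - n b` may be replaced by its fractional part (`bas_gint`).

`orb`: `D = {y ∉ Cr | ∃ s c d, y = φ c (g d (ψ s x))}`.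
* `D` is open in `Crᶜ`: let `y = φ c (g d (ψ s x)) ∉ Cr`; `S.box y 1` gives `r`.  The map
  `s' ↦ φ c (g d (ψ s' x))` is continuous, so it stays in `B(y, r)` for `|s' - s| < η`; `s' ↦ H (ψ s' x)` is continuous
  and strictly increasing (`bas_mono`), so its image of `(s - η, s + η)` contains a neighbourhood of `H y = H (ψ s x)`.
  For `y'` near `y` choose `s'` with `H (ψ s' x) = H y'`; `S.box` connects `φ c (g d (ψ s' x))` and `y'`, so `y' ∈ D`.
* `D` is closed in `Crᶜ`: let `y_n = φ c_n (g d_n (ψ s_n x)) → y ∉ Cr`, `c_n, d_n` reduced.  If `s_n` has a bounded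
  subsequence pass to the limit: `y = φ c (g d (ψ s x)) ∈ D`.  If `s_n → ∞` (along a subsequence) pass to a
  subsequence with `ψ s_n x → w` (compactness), `c_n → c`, `d_n → d`: `y = φ c (g d w)`; `w` is critical: `H (ψ s x)` is
  increasing in `s` and bounded (compact), with supremum `h`; `H w = h` and `H (ψ 1 w) = lim H (ψ (s_n + 1) x) = h`, so
  `w ∈ Cr` by `S.inc`; but then `y ∈ Cr` (`bas_cr`), contradiction.  If `s_n → -∞`: the same with the infimum and
  `ψ (-1) w`.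
* `Crᶜ` is preconnected (`S.pre` with `po_cr`) and `x ∈ D`, so `D = Crᶜ`. -/

set_option autoImplicit false

namespace Pool.Agent.CIR

open Set Filter
open scoped Topology

variable {M : Type} [MetricSpace M] [CompactSpace M] {φ ψ g : ℝ → M → M} {H : M → ℝ} {Cr : Set M}

theorem red (S : Sys φ ψ g H Cr) {a b : ℝ} (ha : 0 < a) (hab : ∀ y, φ a (g b y) = y) (s t : ℝ) :
    ∃ c ∈ Icc (0 : ℝ) a, ∃ d ∈ Icc (0 : ℝ) 1, ∀ y, φ s (g t y) = φ c (g d y) := by
  set n : ℤ := ⌊s / a⌋ with hn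
  have h1 : (n : ℝ) * a ≤ s := by
    have := Int.floor_le (s / a)
    rwa [le_div_iff₀ ha] at this
  have h2 : s < ((n : ℝ) + 1) * a := by
    have := Int.lt_floor_add_one (s / a)
    rwa [div_lt_iff₀ ha] at this
  refine ⟨s - n * a, ⟨by linarith, by linarith⟩, Int.fract (t - n * b),
    ⟨Int.fract_nonneg _, (Int.fract_lt_one _).le⟩, fun y => ?_⟩
  have h3 := bas_mul S (s - n * a) (t - n * b) (n * a) (n * b) y
  rw [bas_pow S (hab y) n, sub_add_cancel, sub_add_cancel] at h3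
  rw [← h3]
  have h4 : g (t - n * b) y = g (Int.fract (t - n * b)) y := by
    have h5 := S.ga (Int.fract (t - n * b)) (⌊t - n * b⌋ : ℤ) y
    rw [bas_gint S, Int.fract_add_floor] at h5
    exact h5
  rw [h4]

/-- the points reached from `x` -/
def Orb_D (φ ψ g : ℝ → M → M) (a : ℝ) (x : M) : Set M :=
  {y | ∃ s, ∃ c ∈ Icc (0 : ℝ) a, ∃ d ∈ Icc (0 : ℝ) 1, y = φ c (g d (ψ s x))}

theorem Orb_psi (S : Sys φ ψ g H Cr) (x : M) : Continuous fun s => ψ s x :=
  S.sC.comp (continuous_id.prodMk continuous_const)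

theorem Orb_open (S : Sys φ ψ g H Cr) {a b : ℝ} (ha : 0 < a)
    (hab : ∀ y, φ a (g b y) = y) {x : M} (hx : x ∉ Cr) : IsOpen (Orb_D φ ψ g a x) := by
  rw [isOpen_iff_mem_nhds]
  rintro y ⟨s, c, hc, d, hd, hy⟩
  have hyC : y ∉ Cr := by
    rw [hy, bas_cr S, bas_psi S]
    exact hx
  obtain ⟨r, hr, hbox⟩ := S.box y hyC 1 one_pos
  set G : ℝ → M := fun s' => φ c (g d (ψ s' x)) with hG
  have hGc : Continuous G :=
    (bas_cont S).comp (continuous_const.prodMk (continuous_const.prodMk (Orb_psi S x)))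
  have hGs : G s = y := hy.symm
  have hGH : ∀ s', H (G s') = H (ψ s' x) := fun s' => bas_H S c d _
  have hmono : StrictMono fun s' => H (G s') := by
    intro u v huv
    show H (G u) < H (G v)
    rw [hGH, hGH]
    exact bas_mono S hx huv
  obtain ⟨η, hη, hη2⟩ := Metric.continuousAt_iff.1 (hGc.continuousAt (x := s)) r hr
  have hlt1 : H (G (s - η / 2)) < H y := by
    rw [← hGs]; exact hmono (by linarith)
  have hlt2 : H y < H (G (s + η / 2)) := by
    rw [← hGs]; exact hmono (by linarith)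
  filter_upwards [Metric.ball_mem_nhds y hr, (S.hC.tendsto y).eventually (lt_mem_nhds hlt1),
    (S.hC.tendsto y).eventually (gt_mem_nhds hlt2)] with y' h1 h2 h3
  have hcont : ContinuousOn (fun s' => H (G s')) (Icc (s - η / 2) (s + η / 2)) :=
    (S.hC.comp hGc).continuousOn
  obtain ⟨s', hs', hs'e⟩ := intermediate_value_Icc (by linarith) hcont ⟨h2.le, h3.le⟩
  have hd1 : dist (G s') y < r := by
    rw [← hGs]
    apply hη2
    rw [Real.dist_eq, abs_lt]
    constructor <;> linarith [hs'.1, hs'.2]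
  obtain ⟨α, β, -, -, he⟩ := hbox (G s') y' hd1 h1 hs'e
  obtain ⟨c', hc', d', hd', hcd⟩ := red S ha hab (α + c) (β + d)
  refine ⟨s', c', hc', d', hd', ?_⟩
  rw [← hcd, ← bas_mul S]
  exact he.symm

theorem Orb_lim (S : Sys φ ψ g H Cr) {x : M} {L : ℝ} {l : Filter ℝ}
    (hl : Tendsto (fun s => s + 1) l l) (hL : Tendsto (fun s => H (ψ s x)) l (𝓝 L)) {u : Filter M}
    [u.NeBot] {σ : M → ℝ} (hσ : Tendsto σ u l) {w : M} (hw : Tendsto (fun y => ψ (σ y) x) u (𝓝 w)) :
    w ∈ Cr := by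
  by_contra hwC
  have h1 : H w = L := tendsto_nhds_unique ((S.hC.tendsto w).comp hw) (hL.comp hσ)
  have h2 : Continuous fun z => H (ψ 1 z) :=
    S.hC.comp (S.sC.comp (continuous_const.prodMk continuous_id))
  have h3 : Tendsto (fun y => H (ψ 1 (ψ (σ y) x))) u (𝓝 (H (ψ 1 w))) := (h2.tendsto w).comp hw
  have h4 : Tendsto (fun y => H (ψ (σ y + 1) x)) u (𝓝 L) := (hL.comp hl).comp hσ
  have h5 : (fun y => H (ψ (σ y + 1) x)) = fun y => H (ψ 1 (ψ (σ y) x)) := by
    funext y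
    rw [add_comm, S.sa]
  rw [h5] at h4
  have h6 : H (ψ 1 w) = L := tendsto_nhds_unique h3 h4
  have h7 := S.inc w hwC 1 one_pos
  rw [h1, h6] at h7
  exact lt_irrefl _ h7

theorem Orb_closed (S : Sys φ ψ g H Cr) {a : ℝ} {x : M} (hx : x ∉ Cr) {y : M} (hy : y ∉ Cr)
    (hcl : y ∈ closure (Orb_D φ ψ g a x)) : y ∈ Orb_D φ ψ g a x := by
  classical
  obtain ⟨u, hu, huy⟩ := mem_closure_iff_ultrafilter.1 hcl
  have hch : ∀ y' : M, ∃ p : ℝ × ℝ × ℝ, y' ∈ Orb_D φ ψ g a x →
      p.2.1 ∈ Icc (0 : ℝ) a ∧ p.2.2 ∈ Icc (0 : ℝ) 1 ∧ y' = φ p.2.1 (g p.2.2 (ψ p.1 x)) := by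
    intro y'
    by_cases h : y' ∈ Orb_D φ ψ g a x
    · obtain ⟨s, c, hc, d, hd, he⟩ := h
      exact ⟨(s, c, d), fun _ => ⟨hc, hd, he⟩⟩
    · exact ⟨(0, 0, 0), fun h' => absurd h' h⟩
  choose p hp using hch
  -- limits of `c`, `d`
  have hc1 : ∀ᶠ y' in (u : Filter M), (p y').2.1 ∈ Icc (0 : ℝ) a := by
    filter_upwards [hu] with y' hy'
    exact (hp y' hy').1
  have hd1 : ∀ᶠ y' in (u : Filter M), (p y').2.2 ∈ Icc (0 : ℝ) 1 := by
    filter_upwards [hu] with y' hy'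
    exact (hp y' hy').2.1
  obtain ⟨c0, hc0, hc0l⟩ := (isCompact_Icc (a := (0 : ℝ)) (b := a)).ultrafilter_le_nhds
    (u.map fun y' => (p y').2.1) (le_principal_iff.2 hc1)
  obtain ⟨d0, hd0, hd0l⟩ := (isCompact_Icc (a := (0 : ℝ)) (b := 1)).ultrafilter_le_nhds
    (u.map fun y' => (p y').2.2) (le_principal_iff.2 hd1)
  obtain ⟨w, -, hwl⟩ := (isCompact_univ (X := M)).ultrafilter_le_nhds
    (u.map fun y' => ψ (p y').1 x) (le_principal_iff.2 univ_mem)
  have hct : Tendsto (fun y' => (p y').2.1) u (𝓝 c0) := hc0l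
  have hdt : Tendsto (fun y' => (p y').2.2) u (𝓝 d0) := hd0l
  have hwt : Tendsto (fun y' => ψ (p y').1 x) u (𝓝 w) := hwl
  have hyt : Tendsto (fun y' => φ (p y').2.1 (g (p y').2.2 (ψ (p y').1 x))) u
      (𝓝 (φ c0 (g d0 w))) :=
    ((bas_cont S).tendsto (c0, d0, w)).comp (hct.prodMk_nhds (hdt.prodMk_nhds hwt))
  have hyt2 : Tendsto (fun y' : M => y') u (𝓝 (φ c0 (g d0 w))) := by
    refine hyt.congr' ?_
    filter_upwards [hu] with y' hy'
    exact (hp y' hy').2.2.symm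
  have hyw : y = φ c0 (g d0 w) := tendsto_nhds_unique (show Tendsto (fun y' : M => y') u (𝓝 y) from huy) hyt2
  have hwC : w ∉ Cr := by
    intro h
    apply hy
    rw [hyw, bas_cr S]
    exact h
  -- the parameter `s`
  by_cases hb : ∃ R : ℝ, ∀ᶠ y' in (u : Filter M), (p y').1 ∈ Icc (-R) R
  · obtain ⟨R, hR⟩ := hb
    obtain ⟨s0, -, hs0l⟩ := (isCompact_Icc (a := -R) (b := R)).ultrafilter_le_nhds
      (u.map fun y' => (p y').1) (le_principal_iff.2 hR)
    have hst : Tendsto (fun y' => (p y').1) u (𝓝 s0) := hs0l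
    have h1 : Tendsto (fun y' => ψ (p y').1 x) u (𝓝 (ψ s0 x)) := ((Orb_psi S x).tendsto s0).comp hst
    have h2 : w = ψ s0 x := tendsto_nhds_unique hwt h1
    exact ⟨s0, c0, hc0, d0, hd0, by rw [← h2]; exact hyw⟩
  · exfalso
    push Not at hb
    have hbdA : BddAbove (range fun s => H (ψ s x)) := by
      obtain ⟨C, hC⟩ := (isCompact_range S.hC).bddAbove
      exact ⟨C, by rintro _ ⟨s, rfl⟩; exact hC ⟨_, rfl⟩⟩
    have hbdB : BddBelow (range fun s => H (ψ s x)) := by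
      obtain ⟨C, hC⟩ := (isCompact_range S.hC).bddBelow
      exact ⟨C, by rintro _ ⟨s, rfl⟩; exact hC ⟨_, rfl⟩⟩
    have hm := (bas_mono S hx).monotone
    have hout : ∀ R : ℝ, ∀ᶠ y' in (u : Filter M), (p y').1 < -R ∨ R < (p y').1 := by
      intro R
      have h2 : ∀ᶠ y' in (u : Filter M), ¬ (p y').1 ∈ Icc (-R) R := hb R
      filter_upwards [h2] with y' hy'
      by_contra hc
      push Not at hc
      exact hy' ⟨hc.1, hc.2⟩
    by_cases hpos : ∀ᶠ y' in (u : Filter M), 0 < (p y').1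
    · have hst : Tendsto (fun y' => (p y').1) u atTop := by
        rw [tendsto_atTop]
        intro R
        filter_upwards [hout |R|, hpos] with y' h1 h2
        rcases h1 with h1 | h1
        · have := abs_nonneg R
          linarith
        · exact (le_abs_self R).trans h1.le
      exact hwC (Orb_lim S (tendsto_atTop_add_const_right _ 1 tendsto_id)
        (tendsto_atTop_ciSup hm hbdA) hst hwt)
    · have hneg : ∀ᶠ y' in (u : Filter M), ¬ 0 < (p y').1 := Ultrafilter.eventually_not.2 hpos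
      have hst : Tendsto (fun y' => (p y').1) u atBot := by
        rw [tendsto_atBot]
        intro R
        filter_upwards [hout |R|, hneg] with y' h1 h2
        rcases h1 with h1 | h1
        · have := neg_abs_le R
          linarith
        · have := abs_nonneg R
          exact absurd (lt_of_le_of_lt this h1) h2
      exact hwC (Orb_lim S (tendsto_atBot_add_const_right _ 1 tendsto_id)
        (tendsto_atBot_ciInf hm hbdB) hst hwt)

theorem orb (S : Sys φ ψ g H Cr) (hf : {O | IsPO φ O}.Finite) {a b : ℝ} (ha : 0 < a)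
    (hab : ∀ y, φ a (g b y) = y) {x : M} (hx : x ∉ Cr) {y : M} (hy : y ∉ Cr) :
    ∃ s, ∃ c ∈ Icc (0 : ℝ) a, ∃ d ∈ Icc (0 : ℝ) 1, y = φ c (g d (ψ s x)) := by
  have hpre : IsPreconnected (Crᶜ : Set M) := by
    have h := S.pre {O | IsPO φ O} hf (fun O hO => hO)
    rwa [po_cr S hf] at h
  have hxD : x ∈ Orb_D φ ψ g a x :=
    ⟨0, 0, ⟨le_rfl, ha.le⟩, 0, ⟨le_rfl, zero_le_one⟩, by rw [S.s0, S.g0, S.p0]⟩
  have hsub : (Crᶜ : Set M) ⊆ Orb_D φ ψ g a x := by
    refine hpre.subset_of_closure_inter_subset (Orb_open S ha hab hx) ⟨x, hx, hxD⟩ ?_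
    rintro z ⟨hz, hzC⟩
    exact Orb_closed S hx hzC hz
  exact hsub hy

end Pool.Agent.CIR
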