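import Pool.Agent.CIR.Bas

/-! Module Pof (difficulty 2): a closed `φ`-orbit through a non-critical point gives infinitely many closed orbits.

Proof.  Let `φ T z = z`, `T > 0`, `z ∉ Cr`, `ε, r` from `S.inj z`.  For every `b` the point `g b z` has the closed orbit
`O b = range (t ↦ φ t (g b z))` (`φ T (g b z) = g b (φ T z) = g b z`).  Suppose there are finitely many closed orbits.
For `b ∈ [0, 1]` we have `O b = O (b₀)` for infinitely many `b` (pigeonhole), hence `g b z = φ (t b) (g b₀ z)`, where one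
may take `t b ∈ [0, T)` (reduce modulo `T`: `φ (k T)` fixes `g b₀ z`).  Map these `b` to `(⌊t b / ε⌋, ⌊b / ε⌋)`, a
finite set: there are `b ≠ b'` with `|t b - t b'| < ε`, `|b - b'| < ε`.  From `z = φ (t b) (g (b₀ - b) z)` and
`z = φ (t b') (g (b₀ - b') z)` we get (`bas_sub`) `φ (t b - t b') (g (b' - b) z) = z`, so `b = b'` by `S.inj`
(with `x = z`): contradiction.  Useful: `Set.Infinite.exists_ne_map_eq_of_mapsTo`. -/

set_option autoImplicit false

namespace Pool.Agent.CIR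

open Set Filter
open scoped Topology

variable {M : Type} [MetricSpace M] [CompactSpace M] {φ ψ g : ℝ → M → M} {H : M → ℝ} {Cr : Set M}

theorem Pof_mod (S : Sys φ ψ g H Cr) {y : M} {T : ℝ} (hT : 0 < T) (h : φ T y = y) (t : ℝ) :
    ∃ t', 0 ≤ t' ∧ t' < T ∧ φ t y = φ t' y := by
  refine ⟨t - ⌊t / T⌋ * T, ?_, ?_, ?_⟩
  · have h1 := Int.floor_le (t / T)
    rw [le_div_iff₀ hT] at h1
    linarith
  · have h1 := Int.lt_floor_add_one (t / T)
    rw [div_lt_iff₀ hT] at h1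
    linarith
  · have h0 : φ T (g 0 y) = y := by rw [S.g0, h]
    have h1 := bas_pow S h0 ⌊t / T⌋
    rw [mul_zero, S.g0] at h1
    conv_lhs => rw [show t = (t - ⌊t / T⌋ * T) + ⌊t / T⌋ * T by ring]
    rw [S.pa, h1]

theorem po_inf (S : Sys φ ψ g H Cr) {z : M} (hz : z ∉ Cr) {T : ℝ} (hT : 0 < T) (h : φ T z = z) :
    {O | IsPO φ O}.Infinite := by
  intro hfin
  obtain ⟨ε, hε, r, hr, hinj⟩ := S.inj z hz
  have hper : ∀ b, φ T (g b z) = g b z := fun b => by rw [S.com, h]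
  have hO : ∀ b, IsPO φ (range fun t => φ t (g b z)) := fun b => ⟨g b z, T, hT, hper b, rfl⟩
  obtain ⟨O, -, hOinf⟩ : ∃ O ∈ {O | IsPO φ O},
      {b ∈ Icc (0 : ℝ) 1 | (range fun t => φ t (g b z)) = O}.Infinite := by
    by_contra hcon
    push Not at hcon
    have h1 : (⋃ O ∈ {O | IsPO φ O},
        {b ∈ Icc (0 : ℝ) 1 | (range fun t => φ t (g b z)) = O}).Finite :=
      hfin.biUnion fun O hO => by
        have := hcon O hO
        simpa [Set.not_infinite] using this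
    have h2 : Icc (0 : ℝ) 1 ⊆ ⋃ O ∈ {O | IsPO φ O},
        {b ∈ Icc (0 : ℝ) 1 | (range fun t => φ t (g b z)) = O} := by
      intro b hb
      exact mem_biUnion (hO b) ⟨hb, rfl⟩
    exact (Icc_infinite (zero_lt_one' ℝ)) (h1.subset h2)
  obtain ⟨b₀, hb₀⟩ := hOinf.nonempty
  have key : ∀ b ∈ {b ∈ Icc (0 : ℝ) 1 | (range fun t => φ t (g b z)) = O},
      ∃ t, 0 ≤ t ∧ t < T ∧ g b z = φ t (g b₀ z) := by
    intro b hb
    have h1 : g b z ∈ range fun t => φ t (g b₀ z) := by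
      rw [hb₀.2, ← hb.2]
      exact ⟨0, S.p0 _⟩
    obtain ⟨t, ht⟩ := h1
    obtain ⟨t', h2, h3, h4⟩ := Pof_mod S hT (hper b₀) t
    exact ⟨t', h2, h3, by rw [← h4]; exact ht.symm⟩
  choose! τ hτ0 hτT hτ using key
  have hmaps : MapsTo (fun b => (⌊τ b / ε⌋, ⌊b / ε⌋))
      {b ∈ Icc (0 : ℝ) 1 | (range fun t => φ t (g b z)) = O}
      (Icc (0 : ℤ) ⌊T / ε⌋ ×ˢ Icc (0 : ℤ) ⌊1 / ε⌋) := by
    intro b hb
    refine ⟨⟨?_, ?_⟩, ?_, ?_⟩
    · exact Int.floor_nonneg.2 (div_nonneg (hτ0 b hb) hε.le)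
    · exact Int.floor_le_floor (div_le_div_of_nonneg_right (hτT b hb).le hε.le)
    · exact Int.floor_nonneg.2 (div_nonneg hb.1.1 hε.le)
    · exact Int.floor_le_floor (div_le_div_of_nonneg_right hb.1.2 hε.le)
  obtain ⟨b, hb, b', hb', hbb, heq⟩ :=
    hOinf.exists_ne_map_eq_of_mapsTo hmaps ((finite_Icc _ _).prod (finite_Icc _ _))
  have e1 : ⌊τ b / ε⌋ = ⌊τ b' / ε⌋ := congrArg Prod.fst heq
  have e2 : ⌊b / ε⌋ = ⌊b' / ε⌋ := congrArg Prod.snd heq
  have close : ∀ x y : ℝ, ⌊x / ε⌋ = ⌊y / ε⌋ → |x - y| < ε := by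
    intro x y hxy
    have h1 := Int.abs_sub_lt_one_of_floor_eq_floor hxy
    rw [← sub_div, abs_div, abs_of_pos hε, div_lt_one hε] at h1
    exact h1
  have h1 := hτ b hb
  have h2 := hτ b' hb'
  have h3 : φ (-τ b) (g b z) = φ (-τ b') (g b' z) := by
    rw [h1, h2, bas_pinv S, bas_pinv S]
  have h4 := bas_sub S h3
  have h5 := hinj z (by rw [dist_self]; exact hr) _ _ (by
    rw [show -τ b - -τ b' = -(τ b - τ b') by ring, abs_neg]
    exact close _ _ e1) (close _ _ e2) h4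
  exact hbb (sub_eq_zero.1 h5.2)

/-- hence, when there are finitely many closed orbits, `Cr` is their union -/
theorem po_cr (S : Sys φ ψ g H Cr) (hf : {O | IsPO φ O}.Finite) : ⋃₀ {O | IsPO φ O} = Cr := by
  ext x
  constructor
  · rintro ⟨O, ⟨y, T, hT, hy, rfl⟩, t, rfl⟩
    by_contra hx
    refine po_inf S hx hT ?_ hf
    show φ T (φ t y) = φ t y
    rw [← S.pa, add_comm, S.pa, hy]
  · intro hx
    obtain ⟨T, hT, h⟩ := S.per x hx
    exact ⟨range fun t => φ t x, ⟨x, T, hT, h, rfl⟩, 0, S.p0 x⟩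

end Pool.Agent.CIR
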