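import Pool.Agent.CIR.Tan
import Pool.Agent.CIR.Lin

/-! Module Ree (difficulty 3): the Reeb vector.

Let `h : IsChart Y U V χ π`, `y ∈ V`, `x = χ y`, `e i = fderiv χ y (e_i)` (`e_i = EuclideanSpace.single i 1`), `l = lam x`,
`B = fderiv ℝ lam x`, so `dForm lam x u v = alt B u v`.  The `e i` are linearly independent (`tan_comp`) tangent vectors
(`tan_iff`), so `linD l B e ≠ 0` (`IsContactForm`, `wedge` is `linD`: `Matrix` vector `![e 0, e 1, e 2]`).  Every
tangent vector at `x` is `c 0 • e 0 + c 1 • e 1 + c 2 • e 2` (`tan_iff`; `w = ∑ w i • e_i`).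
`r y = linR (lam (χ y)) (fderiv ℝ lam (χ y)) (fun i => fderiv ℝ χ y e_i)`: smooth on `V` (`ContDiffOn.fderiv_of_isOpen`,
`ContDiffOn.inv` ..), Reeb vector by `lin_one`, `lin_zero`.
`reeb_ker`: `lin_ker`.  `reeb_unique`: `v` Reeb: `v = lam x v • r = r` by `reeb_ker`. -/

set_option autoImplicit false

namespace Pool.Agent.CIR

open Set Filter
open scoped Topology ContDiff

variable {m : ℕ} {Y : Set (EE m)} {lam : OneForm m}
  {U : Set (EE m)} {V : Set (EE 3)} {χ : EE 3 → EE m} {π : EE m → EE 3}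

/-- the frame -/
noncomputable def ReeFr (χ : EE 3 → EE m) (y : EE 3) (i : Fin 3) : EE m :=
  fderiv ℝ χ y (EuclideanSpace.single i 1)

theorem Ree_exp (y w : EE 3) :
    fderiv ℝ χ y w = w 0 • ReeFr χ y 0 + w 1 • ReeFr χ y 1 + w 2 • ReeFr χ y 2 := by
  have h1 : w = w 0 • EuclideanSpace.single 0 (1 : ℝ) + w 1 • EuclideanSpace.single 1 (1 : ℝ) +
      w 2 • EuclideanSpace.single 2 (1 : ℝ) := by
    ext i
    fin_cases i <;> simp
  conv_lhs => rw [h1]
  simp only [map_add, map_smul, ReeFr]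

theorem Ree_D (hc : IsContactForm Y lam) (h : IsChart Y U V χ π) {y : EE 3} (hy : y ∈ V) :
    linD (lam (χ y)) (fderiv ℝ lam (χ y)) (ReeFr χ y) ≠ 0 := by
  have ht : ∀ i, IsTangent Y (χ y) (ReeFr χ y i) := fun i => (tan_iff h hy _).2 ⟨_, rfl⟩
  have hli : LinearIndependent ℝ ![ReeFr χ y 0, ReeFr χ y 1, ReeFr χ y 2] := by
    have h1 : LinearIndependent ℝ (fun i : Fin 3 => (EuclideanSpace.single i (1 : ℝ) : EE 3)) := by
      have h2 := (EuclideanSpace.basisFun (Fin 3) ℝ).toBasis.linearIndependent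
      have h3 : (⇑(EuclideanSpace.basisFun (Fin 3) ℝ).toBasis : Fin 3 → EE 3) =
          fun i : Fin 3 => (EuclideanSpace.single i (1 : ℝ) : EE 3) := by
        funext i
        simp
      rw [h3] at h2
      exact h2
    have h2 := h1.map' (fderiv ℝ χ y).toLinearMap (by
      rw [LinearMap.ker_eq_bot]
      intro a b hab
      have h3 := congrArg (fderiv ℝ π (χ y)) hab
      simp only [ContinuousLinearMap.coe_coe] at h3
      rwa [tan_comp h hy, tan_comp h hy] at h3)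
    have h3 : (⇑(fderiv ℝ χ y).toLinearMap ∘ fun i : Fin 3 => (EuclideanSpace.single i (1 : ℝ) : EE 3)) =
        ![ReeFr χ y 0, ReeFr χ y 1, ReeFr χ y 2] := by
      funext i
      fin_cases i <;> rfl
    rw [h3] at h2
    exact h2
  exact hc.2 (χ y) (h.left_inv y hy).1.1 _ _ _ (ht 0) (ht 1) (ht 2) hli

theorem Ree_alt (x u v : EE m) : dForm lam x u v = alt (fderiv ℝ lam x) u v := rfl

theorem reeb_local (hc : IsContactForm Y lam) (h : IsChart Y U V χ π) :
    ∃ r : EE 3 → EE m, ContDiffOn ℝ ∞ r V ∧ ∀ y ∈ V, IsReebVector Y lam (χ y) (r y) := by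
  refine ⟨fun y => linR (lam (χ y)) (fderiv ℝ lam (χ y)) (ReeFr χ y), ?_, ?_⟩
  · have s1 : ∀ i, ContDiffOn ℝ ∞ (fun y => ReeFr χ y i) V := by
      intro i
      have h1 : ContDiffOn ℝ ∞ (fderiv ℝ χ) V := h.smooth_χ.fderiv_of_isOpen h.open_V le_rfl
      exact h1.clm_apply contDiffOn_const
    have s2 : ContDiffOn ℝ ∞ (fun y => lam (χ y)) V := hc.1.comp_contDiffOn h.smooth_χ
    have s3 : ContDiffOn ℝ ∞ (fun y => fderiv ℝ lam (χ y)) V := by
      have h1 : ContDiff ℝ ∞ (fderiv ℝ lam) := hc.1.fderiv_right le_rfl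
      exact h1.comp_contDiffOn h.smooth_χ
    have s4 : ∀ i j, ContDiffOn ℝ ∞
        (fun y => alt (fderiv ℝ lam (χ y)) (ReeFr χ y i) (ReeFr χ y j)) V := by
      intro i j
      unfold alt
      exact ((s3.clm_apply (s1 i)).clm_apply (s1 j)).sub ((s3.clm_apply (s1 j)).clm_apply (s1 i))
    have s5 : ∀ i, ContDiffOn ℝ ∞ (fun y => lam (χ y) (ReeFr χ y i)) V := fun i =>
      s2.clm_apply (s1 i)
    have s6 : ContDiffOn ℝ ∞
        (fun y => linD (lam (χ y)) (fderiv ℝ lam (χ y)) (ReeFr χ y)) V := by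
      unfold linD
      exact (((s5 0).mul (s4 1 2)).add ((s5 1).mul (s4 2 0))).add ((s5 2).mul (s4 0 1))
    unfold linR
    exact (s6.inv fun y hy => Ree_D hc h hy).smul
      ((((s4 1 2).smul (s1 0)).add ((s4 2 0).smul (s1 1))).add ((s4 0 1).smul (s1 2)))
  · intro y hy
    refine ⟨?_, lin_one _ _ _ (Ree_D hc h hy), ?_⟩
    · rw [tan_iff h hy]
      have hlin : ∀ d a0 a1 a2 : ℝ,
          d • (a0 • ReeFr χ y 0 + a1 • ReeFr χ y 1 + a2 • ReeFr χ y 2) =
          fderiv ℝ χ y (d • (a0 • EuclideanSpace.single 0 (1 : ℝ) +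
            a1 • EuclideanSpace.single 1 (1 : ℝ) + a2 • EuclideanSpace.single 2 (1 : ℝ))) := by
        intro d a0 a1 a2
        simp only [map_add, map_smul, ReeFr]
      exact ⟨_, hlin _ _ _ _⟩
    · intro w hw
      obtain ⟨w', rfl⟩ := (tan_iff h hy w).1 hw
      rw [Ree_exp, Ree_alt]
      exact lin_zero _ _ _ fun i => w' i

theorem reeb_exists (hY : IsClosedThreeManifold Y) (hc : IsContactForm Y lam) {x : EE m} (hx : x ∈ Y) :
    ∃ v, IsReebVector Y lam x v := by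
  obtain ⟨U, V, χ, π, hU, h⟩ := hY.chart x hx
  obtain ⟨r, -, hr⟩ := reeb_local hc h
  obtain ⟨h1, h2⟩ := h.right_inv x ⟨hx, hU⟩
  have h3 := hr _ h1
  rw [h2] at h3
  exact ⟨_, h3⟩

theorem reeb_ker (hY : IsClosedThreeManifold Y) (hc : IsContactForm Y lam) {x r v : EE m} (hx : x ∈ Y)
    (hr : IsReebVector Y lam x r) (hv : IsTangent Y x v) (h : ∀ w, IsTangent Y x w → dForm lam x v w = 0) :
    v = lam x v • r := by
  obtain ⟨U, V, χ, π, hU, hch⟩ := hY.chart x hx
  obtain ⟨h1, h2⟩ := hch.right_inv x ⟨hx, hU⟩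
  have key : ∀ v, IsTangent Y x v → (∀ w, IsTangent Y x w → dForm lam x v w = 0) →
      v = lam x v • linR (lam x) (fderiv ℝ lam x) (ReeFr χ (π x)) := by
    intro v hv h
    have hv' := hv
    rw [← h2, tan_iff hch h1] at hv'
    obtain ⟨c, hc'⟩ := hv'
    rw [Ree_exp] at hc'
    have h3 := lin_ker (lam x) (fderiv ℝ lam x) (ReeFr χ (π x)) (by
      have h4 := Ree_D hc hch h1
      rwa [h2] at h4) (fun i => c i) (by
      intro i
      rw [← hc', ← Ree_alt]
      apply h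
      have h5 := (tan_iff hch h1 (ReeFr χ (π x) i)).2 ⟨_, rfl⟩
      rwa [h2] at h5)
    simp only at h3
    rw [← hc'] at h3
    exact h3
  have h3 := key r hr.1 hr.2.2
  rw [hr.2.1, one_smul] at h3
  rw [h3]
  exact key v hv h

theorem reeb_unique (hY : IsClosedThreeManifold Y) (hc : IsContactForm Y lam) {x v v' : EE m} (hx : x ∈ Y)
    (hv : IsReebVector Y lam x v) (hv' : IsReebVector Y lam x v') : v = v' := by
  have h := reeb_ker hY hc hx hv hv'.1 hv'.2.2
  rw [hv'.2.1, one_smul] at h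
  exact h.symm

end Pool.Agent.CIR
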