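import Pool.Agent.CIR.Act

/-! Module Tan (difficulty 2): tangent vectors of `Y`.

`tan_iff`: (⇐) `γ t = χ (y + t w)` is in `Y` for small `t` (`V` open), velocity `fderiv χ y w`.  (⇒) a curve `γ` in `Y`
through `χ y` is, for small `t`, in `U` (open, `γ` continuous at `0`), so `γ t = χ (π (γ t))`; chain rule:
`v = fderiv χ y (fderiv π (χ y) v)`.
`tan_inj`: `π ∘ χ = id` near `y`, so `fderiv π (χ y) ∘ fderiv χ y = id`.
`tan_add`, `tan_smul`, `tan_zero`: by `tan_iff` (linearity of `fderiv χ y`), with the chart at `x`.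
`tan_curve`: translate the parameter.  `tan_g`: `g t` is continuous linear and preserves `Y`.  `tan_V`: the curve `t ↦ g t x`
(`act_der`, `act_zero`). -/

set_option autoImplicit false

namespace Pool.Agent.CIR

open Set Filter
open scoped Topology ContDiff

variable {m : ℕ} {Y : Set (EE m)} {g : ℝ → EE m →ₗᵢ[ℝ] EE m} {lam : OneForm m}
  {U : Set (EE m)} {V : Set (EE 3)} {χ : EE 3 → EE m} {π : EE m → EE 3}

theorem tan_chi (h : IsChart Y U V χ π) {y : EE 3} (hy : y ∈ V) : HasFDerivAt χ (fderiv ℝ χ y) y :=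
  ((h.smooth_χ.contDiffAt (h.open_V.mem_nhds hy)).differentiableAt (by simp)).hasFDerivAt

theorem tan_pi (h : IsChart Y U V χ π) {x : EE m} (hx : x ∈ U) : HasFDerivAt π (fderiv ℝ π x) x :=
  ((h.smooth_π.contDiffAt (h.open_U.mem_nhds hx)).differentiableAt (by simp)).hasFDerivAt

theorem tan_comp (h : IsChart Y U V χ π) {y : EE 3} (hy : y ∈ V) (w : EE 3) :
    fderiv ℝ π (χ y) (fderiv ℝ χ y w) = w := by
  have h1 := tan_chi h hy
  have h2 := tan_pi h (h.left_inv y hy).1.2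
  have h3 := h2.comp y h1
  have h4 : (π ∘ χ) =ᶠ[𝓝 y] id := by
    filter_upwards [h.open_V.mem_nhds hy] with z hz
    exact (h.left_inv z hz).2
  have h5 := (h3.congr_of_eventuallyEq h4.symm).unique (hasFDerivAt_id y)
  have h6 := DFunLike.congr_fun h5 w
  simpa using h6

theorem tan_iff (h : IsChart Y U V χ π) {y : EE 3} (hy : y ∈ V) (v : EE m) :
    IsTangent Y (χ y) v ↔ ∃ w, v = fderiv ℝ χ y w := by
  constructor
  · rintro ⟨γ, h1, h2, h3⟩
    refine ⟨fderiv ℝ π (χ y) v, ?_⟩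
    have hU : χ y ∈ U := (h.left_inv y hy).1.2
    have h4 : ∀ᶠ t in 𝓝 (0 : ℝ), γ t ∈ U := by
      apply h3.continuousAt
      rw [h2]
      exact h.open_U.mem_nhds hU
    have h5 : HasFDerivAt π (fderiv ℝ π (χ y)) (γ 0) := by
      rw [h2]
      exact tan_pi h hU
    have h6 := h5.comp_hasDerivAt (0 : ℝ) h3
    have h7 : HasFDerivAt χ (fderiv ℝ χ y) ((π ∘ γ) 0) := by
      change HasFDerivAt χ (fderiv ℝ χ y) (π (γ 0))
      rw [h2, (h.left_inv y hy).2]
      exact tan_chi h hy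
    have h8 := h7.comp_hasDerivAt (0 : ℝ) h6
    have h9 : γ =ᶠ[𝓝 (0 : ℝ)] (χ ∘ (π ∘ γ)) := by
      filter_upwards [h1, h4] with t ht ht'
      exact ((h.right_inv (γ t) ⟨ht, ht'⟩).2).symm
    exact h3.unique (h8.congr_of_eventuallyEq h9)
  · rintro ⟨w, rfl⟩
    refine ⟨fun t => χ (y + t • w), ?_, by simp, ?_⟩
    · have h1 : ContinuousAt (fun t : ℝ => y + t • w) 0 := by fun_prop
      have h2 : ∀ᶠ t in 𝓝 (0 : ℝ), y + t • w ∈ V := by
        apply h1
        simp only [zero_smul, add_zero]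
        exact h.open_V.mem_nhds hy
      filter_upwards [h2] with t ht
      exact (h.left_inv _ ht).1.1
    · have h1 : HasDerivAt (fun t : ℝ => y + t • w) w 0 := by
        have := ((hasDerivAt_id (0 : ℝ)).smul_const w).const_add y
        simpa using this
      have h2 : HasFDerivAt χ (fderiv ℝ χ y) (y + (0 : ℝ) • w) := by
        rw [zero_smul, add_zero]
        exact tan_chi h hy
      exact h2.comp_hasDerivAt (0 : ℝ) h1

/-- for a tangent vector `v` at `x ∈ Y ∩ U` -/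
theorem tan_eq (h : IsChart Y U V χ π) {x : EE m} (hx : x ∈ Y ∩ U) {v : EE m} (hv : IsTangent Y x v) :
    fderiv ℝ χ (π x) (fderiv ℝ π x v) = v := by
  obtain ⟨hy, hc⟩ := h.right_inv x hx
  have h1 : IsTangent Y (χ (π x)) v := by
    rw [hc]
    exact hv
  obtain ⟨w, hw⟩ := (tan_iff h hy v).1 h1
  have h2 := tan_comp h hy w
  rw [hc, ← hw] at h2
  rw [h2, ← hw]

theorem tan_zero {x : EE m} (hx : x ∈ Y) : IsTangent Y x 0 := by
  refine ⟨fun _ => x, Filter.Eventually.of_forall fun _ => hx, rfl, hasDerivAt_const _ _⟩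

theorem tan_add (hY : IsClosedThreeManifold Y) {x : EE m} (hx : x ∈ Y) {u v : EE m} (hu : IsTangent Y x u)
    (hv : IsTangent Y x v) : IsTangent Y x (u + v) := by
  obtain ⟨U, V, χ, π, hU, h⟩ := hY.chart x hx
  obtain ⟨hy, hc⟩ := h.right_inv x ⟨hx, hU⟩
  rw [← hc] at hu hv ⊢
  obtain ⟨w, hw⟩ := (tan_iff h hy u).1 hu
  obtain ⟨w', hw'⟩ := (tan_iff h hy v).1 hv
  refine (tan_iff h hy _).2 ⟨w + w', ?_⟩
  rw [map_add, ← hw, ← hw']

theorem tan_smul (hY : IsClosedThreeManifold Y) {x : EE m} (hx : x ∈ Y) (c : ℝ) {u : EE m}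
    (hu : IsTangent Y x u) : IsTangent Y x (c • u) := by
  obtain ⟨U, V, χ, π, hU, h⟩ := hY.chart x hx
  obtain ⟨hy, hc⟩ := h.right_inv x ⟨hx, hU⟩
  rw [← hc] at hu ⊢
  obtain ⟨w, hw⟩ := (tan_iff h hy u).1 hu
  refine (tan_iff h hy _).2 ⟨c • w, ?_⟩
  rw [map_smul, ← hw]

theorem tan_curve {γ : ℝ → EE m} {t₀ : ℝ} {v : EE m} (h : ∀ᶠ t in 𝓝 t₀, γ t ∈ Y) (hd : HasDerivAt γ v t₀) :
    IsTangent Y (γ t₀) v := by
  refine ⟨fun t => γ (t₀ + t), ?_, by simp, ?_⟩
  · have h1 : Tendsto (fun t : ℝ => t₀ + t) (𝓝 0) (𝓝 t₀) := by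
      have : ContinuousAt (fun t : ℝ => t₀ + t) 0 := by fun_prop
      simpa [ContinuousAt] using this
    exact h1.eventually h
  · have h1 : HasDerivAt (fun t : ℝ => t₀ + t) 1 0 := (hasDerivAt_id (0 : ℝ)).const_add t₀
    have h2 : HasDerivAt γ v (t₀ + 0) := by rwa [add_zero]
    have h3 := h2.scomp (0 : ℝ) h1
    rw [one_smul] at h3
    exact h3

theorem tan_g (h : IsCircleAction Y g) {x v : EE m} (hv : IsTangent Y x v) (t : ℝ) :
    IsTangent Y (g t x) (g t v) := by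
  obtain ⟨γ, h1, h2, h3⟩ := hv
  refine ⟨fun s => g t (γ s), ?_, congrArg (g t) h2, ?_⟩
  · filter_upwards [h1] with s hs
    exact h.maps t _ hs
  · have h4 : HasFDerivAt (fun y => g t y) ((g t).toContinuousLinearMap) (γ 0) :=
      (g t).toContinuousLinearMap.hasFDerivAt
    exact h4.comp_hasDerivAt (0 : ℝ) h3

theorem tan_V (h : IsCircleAction Y g) {x : EE m} (hx : x ∈ Y) : IsTangent Y x (VV g x) := by
  have h1 := act_der h 0 x
  rw [act_zero h] at h1
  exact ⟨fun s => g s x, Filter.Eventually.of_forall fun s => h.maps s x hx, act_zero h x, h1⟩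

end Pool.Agent.CIR
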