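import Pool.Agent.CIR.Bas

/-! Module Uni (difficulty 3): nearby points return, with continuous return data.

Proof.  Let `ε₀, r₀` be given by `S.inj z` and `ε = min (ε₀ / 2) δ / 2`.  Let `r₁` be given by `S.box z ε`.  Put
`r₂ = min r₀ r₁ / 2` and let `r ≤ r₂` be such that `dist x z < r` implies `dist (φ a (g b x)) z < r₂`
(continuity at `z` of `x ↦ φ a (g b x)`, which maps `z` to `z`).  For `x` with `dist x z < r`, `y = φ a (g b x)` has
`H y = H x`, so `S.box` gives `α, β`, `|α|, |β| < ε`, with `φ α (g β y) = x`, i.e. `φ (a + α) (g (b + β) x) = x`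
(`bas_mul`).  Choose such `α x, β x` for every `x` in the ball (0 elsewhere).
Uniqueness: if `|α|, |β|, |α'|, |β'| < ε₀ / 2` and `φ α (g β y) = φ α' (g β' y)` with `dist y z < r₀`, then
`φ (α - α') (g (β - β') y) = y` so `α = α'`, `β = β'` (`S.inj`).  In particular `α z = β z = 0`.
Continuity on the ball: let `x₀` be a point of the ball and suppose `α x` does not tend to `α x₀` as `x → x₀` in the
ball: then there is a sequence (or ultrafilter) with `(α x, β x) → (α', β') ≠ (α x₀, β x₀)`,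
`(α', β') ∈ [-ε, ε]²` by compactness; passing to the limit in `φ (α x) (g (β x) (φ a (g b x))) = x` gives
`φ α' (g β' y₀) = x₀ = φ (α x₀) (g (β x₀) y₀)`, contradiction to uniqueness.  (In Lean:
`IsCompact.tendsto_nhds_of_unique_mapClusterPt` or `le_nhds_of_unique_clusterPt` in the compact `[-ε, ε]²`.) -/

set_option autoImplicit false

namespace Pool.Agent.CIR

open Set Filter
open scoped Topology

variable {M : Type} [MetricSpace M] [CompactSpace M] {φ ψ g : ℝ → M → M} {H : M → ℝ} {Cr : Set M}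

theorem Uni_unique (S : Sys φ ψ g H Cr) {z : M} {ε₀ r₀ : ℝ}
    (hinj : ∀ x, dist x z < r₀ → ∀ a b : ℝ, |a| < ε₀ → |b| < ε₀ → φ a (g b x) = x → a = 0 ∧ b = 0)
    {y : M} (hy : dist y z < r₀) {α β α' β' : ℝ} (h1 : |α| < ε₀ / 2) (h2 : |β| < ε₀ / 2)
    (h3 : |α'| < ε₀ / 2) (h4 : |β'| < ε₀ / 2) (he : φ α (g β y) = φ α' (g β' y)) :
    α = α' ∧ β = β' := by
  have h5 := bas_sub S he
  have h6 : |α - α'| < ε₀ := by
    calc |α - α'| ≤ |α| + |α'| := abs_sub _ _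
      _ < ε₀ := by linarith
  have h7 : |β - β'| < ε₀ := by
    calc |β - β'| ≤ |β| + |β'| := abs_sub _ _
      _ < ε₀ := by linarith
  obtain ⟨e1, e2⟩ := hinj y hy _ _ h6 h7 h5
  exact ⟨sub_eq_zero.1 e1, sub_eq_zero.1 e2⟩

theorem Uni_pair (S : Sys φ ψ g H Cr) {z : M} {ε₀ r₀ ε r : ℝ} (Y : M → M) (hY : Continuous Y) (α β : M → ℝ)
    (hinj : ∀ x, dist x z < r₀ → ∀ a b : ℝ, |a| < ε₀ → |b| < ε₀ → φ a (g b x) = x → a = 0 ∧ b = 0)
    (hε : ε < ε₀ / 2) (hYr : ∀ x ∈ Metric.ball z r, dist (Y x) z < r₀)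
    (hab : ∀ x ∈ Metric.ball z r, |α x| < ε ∧ |β x| < ε ∧ φ (α x) (g (β x) (Y x)) = x) :
    ContinuousOn (fun x => (α x, β x)) (Metric.ball z r) := by
  intro x₀ hx₀
  have hK : IsCompact (Icc (-ε) ε ×ˢ Icc (-ε) ε : Set (ℝ × ℝ)) := isCompact_Icc.prod isCompact_Icc
  refine hK.tendsto_nhds_of_unique_mapClusterPt ?_ ?_
  · filter_upwards [self_mem_nhdsWithin] with x hx
    obtain ⟨h1, h2, -⟩ := hab x hx
    exact ⟨⟨(abs_lt.1 h1).1.le, (abs_lt.1 h1).2.le⟩, ⟨(abs_lt.1 h2).1.le, (abs_lt.1 h2).2.le⟩⟩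
  · rintro ⟨α', β'⟩ ⟨hα', hβ'⟩ hcl
    obtain ⟨U, hU, hlim⟩ := mapClusterPt_iff_ultrafilter.1 hcl
    have hUx : (U : Filter M) ≤ 𝓝 x₀ := hU.trans nhdsWithin_le_nhds
    have hid : Tendsto (fun x : M => x) U (𝓝 x₀) := hUx
    have hYl : Tendsto Y U (𝓝 (Y x₀)) := (hY.tendsto x₀).comp hid
    have h1 : Tendsto (fun x => ((α x, β x) : ℝ × ℝ).1) U (𝓝 α') :=
      (continuous_fst.tendsto (α', β')).comp hlim
    have h2 : Tendsto (fun x => ((α x, β x) : ℝ × ℝ).2) U (𝓝 β') :=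
      (continuous_snd.tendsto (α', β')).comp hlim
    have h3 : Tendsto (fun x => (α x, β x, Y x)) U (𝓝 (α', β', Y x₀)) :=
      h1.prodMk_nhds (h2.prodMk_nhds hYl)
    have h4 : Tendsto (fun x => φ (α x) (g (β x) (Y x))) U (𝓝 (φ α' (g β' (Y x₀)))) :=
      ((bas_cont S).tendsto (α', β', Y x₀)).comp h3
    have h5 : ∀ᶠ x in (U : Filter M), φ (α x) (g (β x) (Y x)) = x := by
      have h6 : ∀ᶠ x in 𝓝[Metric.ball z r] x₀, φ (α x) (g (β x) (Y x)) = x := by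
        filter_upwards [self_mem_nhdsWithin] with x hx
        exact (hab x hx).2.2
      exact hU h6
    have h6 : φ α' (g β' (Y x₀)) = x₀ :=
      tendsto_nhds_unique h4 (hid.congr' (h5.mono fun x hx => hx.symm))
    obtain ⟨g1, g2, g3⟩ := hab x₀ hx₀
    have hα2 : |α'| < ε₀ / 2 := (abs_le.2 ⟨hα'.1, hα'.2⟩).trans_lt hε
    have hβ2 : |β'| < ε₀ / 2 := (abs_le.2 ⟨hβ'.1, hβ'.2⟩).trans_lt hε
    obtain ⟨e1, e2⟩ := Uni_unique S hinj (hYr x₀ hx₀) hα2 hβ2 (g1.trans hε) (g2.trans hε)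
      (h6.trans g3.symm)
    rw [e1, e2]

theorem uni (S : Sys φ ψ g H Cr) {z : M} (hz : z ∉ Cr) {a b : ℝ} (h : φ a (g b z) = z) {δ : ℝ} (hδ : 0 < δ) :
    ∃ (r : ℝ) (α β : M → ℝ), 0 < r ∧ α z = 0 ∧ β z = 0 ∧ ContinuousOn α (Metric.ball z r) ∧
      ContinuousOn β (Metric.ball z r) ∧ ∀ x ∈ Metric.ball z r, |α x| < δ ∧ |β x| < δ ∧
        φ (a + α x) (g (b + β x) x) = x := by
  obtain ⟨ε₀, hε₀, r₀, hr₀, hinj⟩ := S.inj z hz
  obtain ⟨ε, hε, hε1, hε2⟩ : ∃ ε : ℝ, 0 < ε ∧ ε < ε₀ / 2 ∧ ε ≤ δ := by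
    refine ⟨min (ε₀ / 4) δ, lt_min (by linarith) hδ, ?_, min_le_right _ _⟩
    exact (min_le_left _ _).trans_lt (by linarith)
  obtain ⟨r₁, hr₁, hbox⟩ := S.box z hz ε hε
  have hY : Continuous fun x => φ a (g b x) :=
    (bas_cont S).comp (continuous_const.prodMk (continuous_const.prodMk continuous_id))
  obtain ⟨r', hr', hYr⟩ := Metric.continuousAt_iff.1 (hY.continuousAt (x := z)) (min r₀ r₁) (lt_min hr₀ hr₁)
  obtain ⟨r, hr, hrr', hrr⟩ : ∃ r : ℝ, 0 < r ∧ r ≤ r' ∧ r ≤ r₁ :=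
    ⟨min r' r₁, lt_min hr' hr₁, min_le_left _ _, min_le_right _ _⟩
  have hYd : ∀ x ∈ Metric.ball z r, dist (φ a (g b x)) z < min r₀ r₁ := by
    intro x hx
    have h1 : dist x z < r' := (Metric.mem_ball.1 hx).trans_le hrr'
    have h2 := hYr h1
    rw [h] at h2
    exact h2
  have hex : ∀ x, ∃ α β : ℝ, x ∈ Metric.ball z r →
      |α| < ε ∧ |β| < ε ∧ φ α (g β (φ a (g b x))) = x := by
    intro x
    by_cases hx : x ∈ Metric.ball z r
    · obtain ⟨α, β, h1, h2, h3⟩ := hbox (φ a (g b x)) x ((hYd x hx).trans_le (min_le_right _ _))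
        ((Metric.mem_ball.1 hx).trans_le hrr) (bas_H S a b x)
      exact ⟨α, β, fun _ => ⟨h1, h2, h3⟩⟩
    · exact ⟨0, 0, fun hx' => absurd hx' hx⟩
  choose α β hab using hex
  have hzr : z ∈ Metric.ball z r := Metric.mem_ball_self hr
  have hz0 : α z = 0 ∧ β z = 0 := by
    obtain ⟨h1, h2, h3⟩ := hab z hzr
    rw [h] at h3
    exact hinj z (by rw [dist_self]; exact hr₀) _ _ (by linarith) (by linarith) h3
  have hc := Uni_pair S (fun x => φ a (g b x)) hY α β hinj hε1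
    (fun x hx => (hYd x hx).trans_le (min_le_left _ _)) hab
  refine ⟨r, α, β, hr, hz0.1, hz0.2, hc.fst, hc.snd, fun x hx => ?_⟩
  obtain ⟨h1, h2, h3⟩ := hab x hx
  refine ⟨h1.trans_le hε2, h2.trans_le hε2, ?_⟩
  rw [bas_mul S, add_comm (α x), add_comm (β x)] at h3
  exact h3

end Pool.Agent.CIR
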