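import Pool.Agent.CIR.Flow

/-! Module Var: the flow is differentiable along curves, and the derivative satisfies the variational equation. -/

set_option autoImplicit false

namespace Pool.Agent.CIR

open Set Filter
open scoped Topology ContDiff NNReal

variable {E : Type} [NormedAddCommGroup E] [NormedSpace ℝ E]

/-- growth of curves with `‖f'‖ ≤ K ‖f‖ + ε`, both directions -/
theorem Var_gron {F : Type} [NormedAddCommGroup F] [NormedSpace ℝ F] {f f' : ℝ → F} {K ε : ℝ}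
    (hf : ∀ t, HasDerivAt f (f' t) t) {T : ℝ} (hb : ∀ t, |t| ≤ T → ‖f' t‖ ≤ K * ‖f t‖ + ε) {t : ℝ}
    (ht : |t| ≤ T) : ‖f t‖ ≤ gronwallBound ‖f 0‖ K ε |t| := by
  rcases le_total 0 t with h0 | h0
  · rw [abs_of_nonneg h0] at ht ⊢
    have := norm_le_gronwallBound_of_norm_deriv_right_le (f := f) (f' := f') (δ := ‖f 0‖) (K := K) (ε := ε)
      (a := 0) (b := t) (fun u _ => (hf u).continuousAt.continuousWithinAt)
      (fun u _ => (hf u).hasDerivWithinAt) le_rfl
      (fun u hu => hb u (by rw [abs_of_nonneg hu.1]; linarith [hu.2])) t ⟨h0, le_rfl⟩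
    rwa [sub_zero] at this
  · rw [abs_of_nonpos h0] at ht ⊢
    have hrev : ∀ u, HasDerivAt (fun u => f (-u)) (- f' (-u)) u := by
      intro u
      have h1 : HasDerivAt (f ∘ Neg.neg) ((-1 : ℝ) • f' (-u)) u := (hf (-u)).scomp u (hasDerivAt_neg u)
      rw [neg_one_smul] at h1
      exact h1
    have := norm_le_gronwallBound_of_norm_deriv_right_le (f := fun u => f (-u)) (f' := fun u => - f' (-u))
      (δ := ‖f 0‖) (K := K) (ε := ε)
      (a := 0) (b := -t) (fun u _ => (hrev u).continuousAt.continuousWithinAt)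
      (fun u _ => (hrev u).hasDerivWithinAt) (by simp)
      (fun u hu => by
        rw [norm_neg]
        exact hb (-u) (by rw [abs_neg, abs_of_nonneg hu.1]; linarith [hu.2])) (-t) ⟨by linarith, le_rfl⟩
    simpa using this

theorem Var_fderiv_zero {X : E → E} {x : E} (hx : x ∉ tsupport X) : X x = 0 ∧ fderiv ℝ X x = 0 := by
  refine ⟨image_eq_zero_of_notMem_tsupport hx, ?_⟩
  have h1 : fderiv ℝ X x = 0 := by
    by_contra hc
    exact hx (support_fderiv_subset ℝ hc)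
  exact h1

variable [FiniteDimensional ℝ E]

/-- the linear equation on a bounded interval -/
theorem Var_loc {X : E → E} (hX : ContDiff ℝ ∞ X) (hs : HasCompactSupport X) {φ : ℝ → E → E} (hφ : IsFlow X φ)
    (x₀ v : E) (T : ℝ) :
    ∃ J : ℝ → E, J 0 = v ∧ ∀ t ∈ Ioo (-T) T, HasDerivAt J (fderiv ℝ X (φ t x₀) (J t)) t := by
  have : CompleteSpace E := FiniteDimensional.complete ℝ E
  obtain ⟨K, hK⟩ := (hX.of_le (by simp : (1 : WithTop ℕ∞) ≤ ∞)).lipschitzWith_of_hasCompactSupport hs one_ne_zero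
  have hK' : ∀ x, ‖fderiv ℝ X x‖ ≤ K := fun x => norm_fderiv_le_of_lipschitz ℝ hK
  let R : ℝ := ‖v‖ * Real.exp (K * |T|) + 1
  have hR : 0 < R := by positivity
  let χ : ContDiffBump (0 : E) := ⟨R, R + 1, hR, by linarith⟩
  let Z : E × E → E × E := fun p => χ p.2 • (X p.1, fderiv ℝ X p.1 p.2)
  have hZ : ContDiff ℝ 1 Z := by
    have h1 : ContDiff ℝ 1 fun p : E × E => χ p.2 := (χ.contDiff (n := 1)).comp contDiff_snd
    have h2 : ContDiff ℝ 1 fun p : E × E => X p.1 := (hX.of_le (by simp)).comp contDiff_fst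
    have h3 : ContDiff ℝ 1 fun p : E × E => fderiv ℝ X p.1 p.2 := by
      have h4 : ContDiff ℝ 1 (fderiv ℝ X) := (hX.of_le (by exact_mod_cast le_top : ((2 : ℕ∞) : WithTop ℕ∞) ≤ ∞)).fderiv_right (m := 1) (by norm_num)
      exact (h4.comp contDiff_fst).clm_apply contDiff_snd
    exact h1.smul (h2.prodMk h3)
  have hZs : HasCompactSupport Z := by
    refine HasCompactSupport.intro (K := tsupport X ×ˢ Metric.closedBall (0 : E) (R + 1))
      (hs.isCompact.prod (isCompact_closedBall _ _)) ?_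
    rintro ⟨x, w⟩ hxw
    by_cases hx : x ∈ tsupport X
    · have hw : w ∉ Metric.closedBall (0 : E) (R + 1) := fun hw => hxw ⟨hx, hw⟩
      have h1 : χ w = 0 := by
        apply χ.zero_of_le_dist
        rw [Metric.mem_closedBall, not_le] at hw
        exact hw.le
      show χ w • _ = _
      rw [h1, zero_smul]
    · obtain ⟨h1, h2⟩ := Var_fderiv_zero hx
      show χ w • (X x, fderiv ℝ X x w) = _
      rw [h1, h2]
      simp
  obtain ⟨Φ, hΦ⟩ := exists_flow Z hZ hZs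
  let γ : ℝ → E × E := fun t => Φ t (x₀, v)
  have hγ : ∀ t, HasDerivAt γ (Z (γ t)) t := fun t => hΦ.der _ t
  have hγ0 : γ 0 = (x₀, v) := hΦ.zero _
  have h1 : ∀ t, HasDerivAt (fun u => (γ u).1) (χ (γ t).2 • X (γ t).1) t := fun t =>
    ((ContinuousLinearMap.fst ℝ E E).hasFDerivAt.comp_hasDerivAt t (hγ t))
  have h2 : ∀ t, HasDerivAt (fun u => (γ u).2) (χ (γ t).2 • fderiv ℝ X (γ t).1 (γ t).2) t := fun t =>
    ((ContinuousLinearMap.snd ℝ E E).hasFDerivAt.comp_hasDerivAt t (hγ t))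
  have hb : ∀ t, |t| ≤ |T| → ‖(γ t).2‖ ≤ R := by
    intro t ht
    have h3 := Var_gron (K := K) (ε := 0) h2 (T := |T|) (fun u _ => by
      rw [norm_smul, add_zero]
      have e1 : ‖χ (γ u).2‖ ≤ 1 := by
        rw [Real.norm_of_nonneg χ.nonneg]
        exact χ.le_one
      have e2 : ‖fderiv ℝ X (γ u).1 (γ u).2‖ ≤ K * ‖(γ u).2‖ :=
        (ContinuousLinearMap.le_opNorm _ _).trans (mul_le_mul_of_nonneg_right (hK' _) (norm_nonneg _))
      calc _ ≤ 1 * ‖fderiv ℝ X (γ u).1 (γ u).2‖ := mul_le_mul_of_nonneg_right e1 (norm_nonneg _)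
        _ ≤ _ := by rw [one_mul]; exact e2) ht
    rw [gronwallBound_ε0] at h3
    have h4 : ‖(γ 0).2‖ = ‖v‖ := by rw [hγ0]
    rw [h4] at h3
    have h5 : Real.exp (K * |t|) ≤ Real.exp (K * |T|) :=
      Real.exp_le_exp.2 (mul_le_mul_of_nonneg_left ht K.coe_nonneg)
    have h6 := mul_le_mul_of_nonneg_left h5 (norm_nonneg v)
    show _ ≤ ‖v‖ * Real.exp (K * |T|) + 1
    linarith
  have hχ : ∀ t, |t| ≤ |T| → χ (γ t).2 = 1 := by
    intro t ht
    apply χ.one_of_mem_closedBall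
    rw [Metric.mem_closedBall, dist_zero_right]
    exact hb t ht
  by_cases hT : 0 < T
  swap
  · refine ⟨fun _ => v, rfl, ?_⟩
    intro t ht
    exfalso
    linarith [ht.1, ht.2]
  have habs : ∀ t ∈ Ioo (-T) T, |t| ≤ |T| := by
    intro t ht
    rw [abs_of_pos hT]
    exact (abs_lt.2 ht).le
  have hx : EqOn (fun t => (γ t).1) (fun t => φ t x₀) (Ioo (-T) T) := by
    refine ODE_solution_unique_of_mem_Ioo (v := fun _ => X) (s := fun _ => univ) (K := K)
      (fun _ _ => hK.lipschitzOnWith) (t₀ := 0) ⟨by linarith, hT⟩ ?_ ?_ ?_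
    · intro t ht
      refine ⟨?_, mem_univ _⟩
      have := h1 t
      rw [hχ t (habs t ht), one_smul] at this
      exact this
    · intro t _
      exact ⟨hφ.der x₀ t, mem_univ _⟩
    · show (γ 0).1 = φ 0 x₀
      rw [hγ0, hφ.zero]
  refine ⟨fun t => (γ t).2, by show (γ 0).2 = v; rw [hγ0], ?_⟩
  intro t ht
  have := h2 t
  rw [hχ t (habs t ht), one_smul] at this
  have e : (γ t).1 = φ t x₀ := hx ht
  rw [e] at this
  exact this

theorem Var_glob {X : E → E} (hX : ContDiff ℝ ∞ X) (hs : HasCompactSupport X) {φ : ℝ → E → E} (hφ : IsFlow X φ)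
    (x₀ v : E) : ∃ J : ℝ → E, J 0 = v ∧ ∀ t, HasDerivAt J (fderiv ℝ X (φ t x₀) (J t)) t := by
  obtain ⟨K, hK⟩ := (hX.of_le (by simp : (1 : WithTop ℕ∞) ≤ ∞)).lipschitzWith_of_hasCompactSupport hs one_ne_zero
  have hK' : ∀ x, ‖fderiv ℝ X x‖ ≤ K := fun x => norm_fderiv_le_of_lipschitz ℝ hK
  choose J hJ0 hJ using Var_loc hX hs hφ x₀ v
  have huniq : ∀ S T : ℝ, ∀ t, |t| < S → |t| < T → J S t = J T t := by
    intro S T t hS hT
    have h0 : 0 < min S T := lt_min (lt_of_le_of_lt (abs_nonneg t) hS) (lt_of_le_of_lt (abs_nonneg t) hT)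
    have := ODE_solution_unique_of_mem_Ioo (v := fun t y => fderiv ℝ X (φ t x₀) y) (s := fun _ => univ) (K := K)
      (f := J S) (g := J T) (a := -min S T) (b := min S T) (t₀ := 0)
      (fun u _ => by
        refine LipschitzWith.lipschitzOnWith ?_
        refine LipschitzWith.of_dist_le_mul fun y y' => ?_
        rw [dist_eq_norm, dist_eq_norm, ← map_sub]
        exact (ContinuousLinearMap.le_opNorm _ _).trans (mul_le_mul_of_nonneg_right (hK' _) (norm_nonneg _)))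
      ⟨by linarith, h0⟩
      (fun u hu => ⟨hJ S u ⟨by linarith [hu.1, min_le_left S T], by linarith [hu.2, min_le_left S T]⟩, mem_univ _⟩)
      (fun u hu => ⟨hJ T u ⟨by linarith [hu.1, min_le_right S T], by linarith [hu.2, min_le_right S T]⟩, mem_univ _⟩)
      (by rw [hJ0, hJ0])
    apply this
    rw [mem_Ioo, ← abs_lt]
    exact lt_min hS hT
  refine ⟨fun t => J (|t| + 1) t, hJ0 _, ?_⟩
  intro t
  have h1 : HasDerivAt (J (|t| + 1)) (fderiv ℝ X (φ t x₀) (J (|t| + 1) t)) t := by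
    apply hJ
    rw [mem_Ioo, ← abs_lt]
    linarith
  refine h1.congr_of_eventuallyEq ?_
  have h2 : ∀ᶠ u : ℝ in 𝓝 t, |u| < |t| + 1 := continuous_abs.continuousAt.eventually (gt_mem_nhds (by linarith))
  filter_upwards [h2] with u hu
  exact huniq _ _ u (by linarith) hu

theorem Var_taylor {X : E → E} (hX : ContDiff ℝ ∞ X) (hs : HasCompactSupport X) :
    ∃ C : ℝ, 0 ≤ C ∧ ∀ x x', ‖X x' - X x - fderiv ℝ X x (x' - x)‖ ≤ C * ‖x' - x‖ ^ 2 := by
  have h1 : ContDiff ℝ 1 (fderiv ℝ X) := (hX.of_le (by exact_mod_cast le_top : ((2 : ℕ∞) : WithTop ℕ∞) ≤ ∞)).fderiv_right (m := 1) (by norm_num)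
  obtain ⟨C, hC⟩ := h1.lipschitzWith_of_hasCompactSupport (hs.fderiv ℝ) one_ne_zero
  refine ⟨C, C.coe_nonneg, ?_⟩
  intro x x'
  have hd : ∀ y, HasFDerivAt (fun y => X y - fderiv ℝ X x y) (fderiv ℝ X y - fderiv ℝ X x) y := fun y =>
    ((hX.differentiable (by simp) y).hasFDerivAt).sub (fderiv ℝ X x).hasFDerivAt
  have h2 := (convex_closedBall x ‖x' - x‖).norm_image_sub_le_of_norm_hasFDerivWithin_le
    (f := fun y => X y - fderiv ℝ X x y) (f' := fun y => fderiv ℝ X y - fderiv ℝ X x) (C := C * ‖x' - x‖)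
    (x := x) (y := x') (fun y _ => (hd y).hasFDerivWithinAt) (fun y hy => by
      have := hC.dist_le_mul y x
      rw [dist_eq_norm, dist_eq_norm] at this
      rw [Metric.mem_closedBall, dist_eq_norm] at hy
      exact this.trans (mul_le_mul_of_nonneg_left hy C.coe_nonneg))
    (Metric.mem_closedBall_self (norm_nonneg _)) (by rw [Metric.mem_closedBall, dist_eq_norm])
  have e : X x' - fderiv ℝ X x x' - (X x - fderiv ℝ X x x) = X x' - X x - fderiv ℝ X x (x' - x) := by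
    rw [map_sub]; abel
  rw [e] at h2
  calc _ ≤ _ := h2
    _ = _ := by ring

theorem var {X : E → E} (hX : ContDiff ℝ ∞ X) (hs : HasCompactSupport X) {φ : ℝ → E → E} (hφ : IsFlow X φ)
    {c : ℝ → E} {u₀ : ℝ} {v : E} (hc : HasDerivAt c v u₀) :
    ∃ J : ℝ → E, J 0 = v ∧ (∀ t, HasDerivAt (fun u => φ t (c u)) (J t) u₀) ∧
      ∀ t, HasDerivAt J (fderiv ℝ X (φ t (c u₀)) (J t)) t := by
  obtain ⟨K, hK⟩ := (hX.of_le (by simp : (1 : WithTop ℕ∞) ≤ ∞)).lipschitzWith_of_hasCompactSupport hs one_ne_zero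
  have hK' : ∀ x, ‖fderiv ℝ X x‖ ≤ K := fun x => norm_fderiv_le_of_lipschitz ℝ hK
  obtain ⟨C, hC0, hC⟩ := Var_taylor hX hs
  obtain ⟨J, hJ0, hJ⟩ := Var_glob hX hs hφ (c u₀) v
  refine ⟨J, hJ0, ?_, hJ⟩
  intro t
  set T : ℝ := |t| with hT
  -- the error
  let f : ℝ → ℝ → E := fun u s => φ s (c u) - φ s (c u₀) - (u - u₀) • J s
  let f' : ℝ → ℝ → E := fun u s => X (φ s (c u)) - X (φ s (c u₀)) - (u - u₀) • fderiv ℝ X (φ s (c u₀)) (J s)
  have hf : ∀ u s, HasDerivAt (f u) (f' u s) s := fun u s =>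
    ((hφ.der _ s).sub (hφ.der _ s)).sub ((hJ s).const_smul _)
  have hdist : ∀ u s, |s| ≤ T → ‖φ s (c u) - φ s (c u₀)‖ ≤ ‖c u - c u₀‖ * Real.exp (K * T) := by
    intro u s hs'
    have h1 := Flow_dist X K hK (fun s => φ s (c u)) (fun s => φ s (c u₀)) (hφ.der _) (hφ.der _) s
    rw [dist_eq_norm, dist_eq_norm] at h1
    simp only [hφ.zero] at h1
    refine h1.trans (mul_le_mul_of_nonneg_left (Real.exp_le_exp.2 ?_) (norm_nonneg _))
    exact mul_le_mul_of_nonneg_left hs' K.coe_nonneg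
  have hb : ∀ u s, |s| ≤ T → ‖f' u s‖ ≤ K * ‖f u s‖ + C * (‖c u - c u₀‖ * Real.exp (K * T)) ^ 2 := by
    intro u s hs'
    have e : f' u s = fderiv ℝ X (φ s (c u₀)) (f u s) + (X (φ s (c u)) - X (φ s (c u₀)) -
        fderiv ℝ X (φ s (c u₀)) (φ s (c u) - φ s (c u₀))) := by
      simp only [f, f', map_sub, map_smul]
      abel
    rw [e]
    refine (norm_add_le _ _).trans (add_le_add ?_ ?_)
    · exact (ContinuousLinearMap.le_opNorm _ _).trans (mul_le_mul_of_nonneg_right (hK' _) (norm_nonneg _))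
    · refine (hC _ _).trans (mul_le_mul_of_nonneg_left ?_ hC0)
      exact pow_le_pow_left₀ (norm_nonneg _) (hdist u s hs') 2
  have hg : ∀ u, ‖f u t‖ ≤ gronwallBound ‖f u 0‖ K (C * (‖c u - c u₀‖ * Real.exp (K * T)) ^ 2) T := fun u =>
    Var_gron (hf u) (T := T) (hb u) (t := t) le_rfl
  have hf0 : ∀ u, f u 0 = c u - c u₀ - (u - u₀) • v := by
    intro u
    simp only [f, hφ.zero, hJ0]
  -- conclusion
  rw [hasDerivAt_iff_isLittleO]
  have h1 : (fun u => f u 0) =o[𝓝 u₀] fun u => u - u₀ := by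
    have := hasDerivAt_iff_isLittleO.1 hc
    refine this.congr_left fun u => ?_
    rw [hf0]
  have h2 : (fun u => ‖c u - c u₀‖ ^ 2) =o[𝓝 u₀] fun u => u - u₀ := by
    have h3 : (fun u => c u - c u₀) =O[𝓝 u₀] fun u => u - u₀ := hc.isBigO_sub
    have h4 : (fun u => c u - c u₀) =o[𝓝 u₀] fun _ => (1 : ℝ) := by
      rw [Asymptotics.isLittleO_one_iff]
      have := hc.continuousAt.tendsto.sub_const (c u₀)
      rwa [sub_self] at this
    have h5 := h4.norm_left.mul_isBigO h3.norm_left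
    refine (h5.congr_left fun u => ?_).congr_right fun u => ?_
    · rw [sq]
    · rw [one_mul]
  -- the gronwall bound is linear in its two data
  have h3 : ∃ B : ℝ, ∀ δ ε : ℝ, 0 ≤ δ → 0 ≤ ε → gronwallBound δ K ε T ≤ B * δ + B * ε := by
    have hT0 : 0 ≤ T := abs_nonneg t
    by_cases hK0 : (K : ℝ) = 0
    · refine ⟨1 + T, ?_⟩
      intro δ ε hδ hε
      rw [hK0, gronwallBound_K0]
      nlinarith
    · have hKp : 0 < (K : ℝ) := lt_of_le_of_ne K.coe_nonneg (Ne.symm hK0)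
      refine ⟨Real.exp (K * T) + (1 / K) * (Real.exp (K * T) - 1), ?_⟩
      intro δ ε hδ hε
      rw [gronwallBound_of_K_ne_0 hK0]
      have e1 : 1 ≤ Real.exp (K * T) := Real.one_le_exp (by positivity)
      have e2 : 0 ≤ (1 / (K : ℝ)) * (Real.exp (K * T) - 1) :=
        mul_nonneg (by positivity) (by linarith)
      have e3 : ε / K * (Real.exp (K * T) - 1) = ε * ((1 / K) * (Real.exp (K * T) - 1)) := by ring
      show δ * Real.exp (K * T) + ε / K * (Real.exp (K * T) - 1) ≤ _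
      rw [e3]
      have e4 := mul_nonneg hδ e2
      have e5 : 0 ≤ ε * Real.exp (K * T) := by positivity
      nlinarith
  obtain ⟨B, hB⟩ := h3
  have h4 : ∀ u, ‖f u t‖ ≤ ‖B * ‖f u 0‖ + B * (C * Real.exp (K * T) ^ 2 * ‖c u - c u₀‖ ^ 2)‖ := by
    intro u
    refine (hg u).trans ((hB _ _ (norm_nonneg _) (by positivity)).trans ?_)
    refine le_trans (le_of_eq ?_) (le_abs_self _)
    ring
  have h5 : (fun u => B * ‖f u 0‖ + B * (C * Real.exp (K * T) ^ 2 * ‖c u - c u₀‖ ^ 2)) =o[𝓝 u₀]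
      fun u => u - u₀ :=
    (h1.norm_left.const_mul_left B).add ((h2.const_mul_left _).const_mul_left B)
  exact (Asymptotics.isBigO_of_le _ h4).trans_isLittleO h5

end Pool.Agent.CIR
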